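import Pool.Agent.Lib.MP_1446ad_nt.EX.Spec

/-!
# MP_1446ad_nt, part EX: large sets contain a representable number (ASX)
-/

set_option autoImplicit false

namespace Pool.Agent.Lib.MP_1446ad_nt.EX

open Finset Filter
open scoped Classical
open Pool.Agent.Lib.MP_1446ad_nt.SM (tau SpecDIV SpecPIG SpecNSM)

namespace ASXM

/-- powers of the logarithm -/
lemma ev_log (C τ : ℝ) (k : ℕ) (hτ : 0 < τ) :
    ∀ᶠ N : ℕ in atTop, C * Real.log N ^ k ≤ (N : ℝ) ^ τ := by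
  have h := isLittleO_log_rpow_rpow_atTop (k : ℝ) hτ
  have h1 := h.bound (show (0 : ℝ) < 1 / (|C| + 1) by positivity)
  have h2 := tendsto_natCast_atTop_atTop (R := ℝ) |>.eventually h1
  filter_upwards [h2, eventually_ge_atTop 1] with N hN hN1
  have hN1' : (1 : ℝ) ≤ N := by exact_mod_cast hN1
  have hl : 0 ≤ Real.log N := Real.log_nonneg hN1'
  have hN0 : (0 : ℝ) ≤ N := by linarith
  rw [Real.rpow_natCast, Real.norm_of_nonneg (by positivity),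
    Real.norm_of_nonneg (Real.rpow_nonneg hN0 _)] at hN
  have hp : 0 ≤ Real.log N ^ k := by positivity
  have hC : C ≤ |C| + 1 := (le_abs_self C).trans (by linarith)
  have hC0 : 0 < |C| + 1 := by positivity
  calc C * Real.log N ^ k ≤ (|C| + 1) * Real.log N ^ k := mul_le_mul_of_nonneg_right hC hp
    _ ≤ (|C| + 1) * (1 / (|C| + 1) * (N : ℝ) ^ τ) := mul_le_mul_of_nonneg_left hN hC0.le
    _ = (N : ℝ) ^ τ := by field_simp

/-- the final contradiction -/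
lemma contra {cA w V x N ℓ L ε0 T Q E H k P M : ℝ} {j : ℕ} (hcA : 0 < cA) (hw : 0 < w)
    (hV : 0 < V) (hx : 0 < x) (hN : 0 < N) (hℓ : 1 ≤ ℓ) (hL : L ≤ 3 * ℓ)
    (hε : 0 < ε0) (hxV : x * V = N / 2) (hVw : V ≤ ℓ ^ (2 * j) * w) (hQw : Q ≤ w / 2)
    (hM : 0 < M) (hxQT : x * Q * T ≤ L * (N / M)) (hbig : 2000 / ε0 * ℓ ^ (4 * j + 1) ≤ M)
    (hE : E = cA * P) (hP : P ≤ N / M) (hk : k ≤ x / 100) (hQ0 : 0 ≤ Q)
    (hT0 : 0 ≤ T) (hH : H = ε0 / 50 * x * w)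
    (hend : cA * (w - Q) * H ≤ 2 * V * (3 * E + cA * k * Q * T)) : False := by
  have hNM : 0 < N / M := by positivity
  have hH0 : 0 < H := by rw [hH]; positivity
  have h1 : cA * (w / 2) * H ≤ cA * (w - Q) * H := by
    apply mul_le_mul_of_nonneg_right _ hH0.le
    apply mul_le_mul_of_nonneg_left _ hcA.le
    linarith
  have h2 : cA * k * Q * T ≤ cA * (L * (N / M)) / 100 := by
    have h3 : cA * k * Q * T ≤ cA * (x / 100) * Q * T := by
      apply mul_le_mul_of_nonneg_right _ hT0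
      apply mul_le_mul_of_nonneg_right _ hQ0
      exact mul_le_mul_of_nonneg_left hk hcA.le
    have h4 : cA * (x / 100) * Q * T = cA * (x * Q * T) / 100 := by ring
    rw [h4] at h3
    refine h3.trans ?_
    apply div_le_div_of_nonneg_right _ (by norm_num)
    exact mul_le_mul_of_nonneg_left hxQT hcA.le
  have h5 : 3 * E + cA * k * Q * T ≤ cA * ((N / M) * (3 + L / 100)) := by
    rw [hE]
    have h6 := mul_le_mul_of_nonneg_left hP hcA.le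
    nlinarith
  have h7 : cA * (w / 2 * H) ≤ cA * (2 * V * ((N / M) * (3 + L / 100))) := by
    have h8 := mul_le_mul_of_nonneg_left h5 (show (0 : ℝ) ≤ 2 * V by positivity)
    calc cA * (w / 2 * H) = cA * (w / 2) * H := by ring
      _ ≤ 2 * V * (3 * E + cA * k * Q * T) := h1.trans hend
      _ ≤ 2 * V * (cA * ((N / M) * (3 + L / 100))) := h8
      _ = _ := by ring
  have h9 : w / 2 * H ≤ 2 * V * ((N / M) * (3 + L / 100)) := le_of_mul_le_mul_left h7 hcA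
  have hℓ0 : 0 < ℓ := by linarith
  have h10 : V ^ 2 ≤ ℓ ^ (4 * j) * w ^ 2 := by
    calc V ^ 2 ≤ (ℓ ^ (2 * j) * w) ^ 2 := pow_le_pow_left₀ hV.le hVw 2
      _ = ℓ ^ (4 * j) * w ^ 2 := by rw [mul_pow, ← pow_mul]; congr 2; ring
  have h11 : ε0 / 100 * x * V ^ 2 ≤ ℓ ^ (4 * j) * (2 * V * ((N / M) * (3 + L / 100))) := by
    calc ε0 / 100 * x * V ^ 2 ≤ ε0 / 100 * x * (ℓ ^ (4 * j) * w ^ 2) :=
          mul_le_mul_of_nonneg_left h10 (by positivity)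
      _ = ℓ ^ (4 * j) * (w / 2 * H) := by rw [hH]; ring
      _ ≤ _ := mul_le_mul_of_nonneg_left h9 (by positivity)
  have h12 : V * (ε0 / 200 * N) ≤ V * (2 * ℓ ^ (4 * j) * ((N / M) * (3 + L / 100))) := by
    calc V * (ε0 / 200 * N) = ε0 / 100 * x * V ^ 2 := by
          have : N = 2 * (x * V) := by rw [hxV]; ring
          rw [this]; ring
      _ ≤ _ := h11
      _ = _ := by ring
  have h13 : ε0 / 200 * N ≤ 2 * ℓ ^ (4 * j) * ((N / M) * (3 + L / 100)) :=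
    le_of_mul_le_mul_left h12 hV
  have h14 : 3 + L / 100 ≤ 4 * ℓ := by nlinarith
  have h15 : ε0 / 200 * N ≤ 2 * ℓ ^ (4 * j) * ((N / M) * (4 * ℓ)) := by
    refine h13.trans ?_
    apply mul_le_mul_of_nonneg_left _ (by positivity)
    exact mul_le_mul_of_nonneg_left h14 hNM.le
  have h16 : N * (ε0 / 200 * M) ≤ N * (8 * ℓ ^ (4 * j + 1)) := by
    have h17 := mul_le_mul_of_nonneg_right h15 hM.le
    calc N * (ε0 / 200 * M) = ε0 / 200 * N * M := by ring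
      _ ≤ 2 * ℓ ^ (4 * j) * ((N / M) * (4 * ℓ)) * M := h17
      _ = N * (8 * ℓ ^ (4 * j + 1)) := by rw [pow_succ]; field_simp; ring
  have h18 : ε0 / 200 * M ≤ 8 * ℓ ^ (4 * j + 1) := le_of_mul_le_mul_left h16 hN
  have h19 : 0 < ℓ ^ (4 * j + 1) := by positivity
  have h20 : ε0 / 200 * (2000 / ε0 * ℓ ^ (4 * j + 1)) = 10 * ℓ ^ (4 * j + 1) := by
    field_simp; ring
  have h21 := mul_le_mul_of_nonneg_left hbig (show (0 : ℝ) ≤ ε0 / 200 by positivity)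
  rw [h20] at h21
  linarith

lemma one_add_pow {mu : ℝ} {j : ℕ} (hmu : 0 < mu) (hmu1 : mu ≤ 1) (hj : 1 ≤ j) :
    (1 + mu / (2 * j)) ^ j ≤ 1 + mu := by
  have hj0 : (0 : ℝ) < j := by exact_mod_cast hj
  have h1 : 1 + mu / (2 * j) ≤ Real.exp (mu / (2 * j)) := by
    have := Real.add_one_le_exp (mu / (2 * j)); linarith
  have h2 : (1 + mu / (2 * j)) ^ j ≤ Real.exp (mu / 2) := by
    calc (1 + mu / (2 * j)) ^ j ≤ Real.exp (mu / (2 * j)) ^ j :=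
          pow_le_pow_left₀ (by positivity) h1 j
      _ = Real.exp (mu / 2) := by
          rw [← Real.exp_nat_mul]; congr 1; field_simp
  refine h2.trans ?_
  have h3 := Real.exp_bound_div_one_sub_of_interval (x := mu / 2) (by positivity) (by linarith)
  refine h3.trans ?_
  rw [div_le_iff₀ (by linarith)]
  nlinarith

lemma logL {N : ℕ} (hN : 3 ≤ N) :
    N < 2 ^ (Nat.log 2 N + 1) ∧ ((Nat.log 2 N + 1 : ℕ) : ℝ) ≤ 3 * Real.log N ∧ 1 ≤ Real.log N := by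
  have h1 : N < 2 ^ (Nat.log 2 N + 1) := Nat.lt_pow_succ_log_self (by norm_num) N
  have hN3 : (3 : ℝ) ≤ N := by exact_mod_cast hN
  have h2 : 1 ≤ Real.log N := by
    rw [Real.le_log_iff_exp_le (by linarith)]
    exact (Real.exp_one_lt_d9.le.trans (by norm_num)).trans hN3
  refine ⟨h1, ?_, h2⟩
  have h3 : 2 ^ Nat.log 2 N ≤ N := Nat.pow_log_le_self 2 (by omega)
  have h4 : ((2 : ℝ)) ^ Nat.log 2 N ≤ N := by exact_mod_cast h3
  have h5 := Real.log_le_log (by positivity) h4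
  rw [Real.log_pow] at h5
  have h6 := Real.log_two_gt_d9
  have h7 : (0 : ℝ) ≤ (Nat.log 2 N : ℝ) := by positivity
  push_cast
  nlinarith

end ASXM

open ASXM in
theorem specASX (hEVA : SpecEVA) (hTRV : SpecTRV) (hEND : SpecEND) (hPRW : SpecPRW)
    (hWDX : SpecWDX) (hIVX : SpecIVX) (hDIV : SpecDIV) (hNSM : SpecNSM) : SpecASX := by
  intro θ κ η hθ hθκ hκ hlog hη
  have hκ0 : 0 < κ := hθ.trans hθκ
  obtain ⟨ε0, hε0, hε1, hε2⟩ : ∃ ε0 : ℝ, 0 < ε0 ∧ ε0 ≤ 1 / 100 ∧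
      Real.log (κ / θ) + ε0 ≤ 1 / 2 - 3 * ε0 := by
    refine ⟨min ((1 / 2 - Real.log (κ / θ)) / 4) (1 / 100), lt_min (by linarith) (by norm_num),
      min_le_right _ _, ?_⟩
    have := min_le_left ((1 / 2 - Real.log (κ / θ)) / 4) (1 / 100)
    linarith
  have hm : 0 < min θ κ := lt_min hθ hκ0
  obtain ⟨j, hj⟩ := exists_nat_gt ((1 - κ) / (min θ κ))
  have hj1 : 1 ≤ j := by
    rcases Nat.eq_zero_or_pos j with h | h
    · rw [h] at hj
      have : 0 < (1 - κ) / (min θ κ) := div_pos (by linarith) hm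
      push_cast at hj
      linarith
    · exact h
  have hj0 : (0 : ℝ) < j := by exact_mod_cast hj1
  have hj1' : (1 : ℝ) ≤ j := by exact_mod_cast hj1
  set a : ℝ := (1 - κ) / j with ha
  have ha0 : 0 < a := div_pos (by linarith) hj0
  have ham : a < min θ κ := by
    rw [ha, div_lt_iff₀ hj0]
    rw [div_lt_iff₀ hm] at hj
    linarith
  have haθ : a < θ := ham.trans_le (min_le_left _ _)
  have haκ : a < κ := ham.trans_le (min_le_right _ _)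
  have haj : a * j = 1 - κ := by rw [ha]; field_simp
  set mu : ℝ := ε0 / 200 with hmu
  have hmu0 : 0 < mu := by positivity
  have hmu1 : mu ≤ 1 / 1000 := by rw [hmu]; linarith
  set ν : ℝ := mu / (2 * j) with hν
  have hν0 : 0 < ν := by positivity
  have hν1 : ν ≤ 1 := by
    rw [hν, div_le_iff₀ (by positivity)]
    linarith
  have hνj : (1 + ν) ^ j ≤ 1 + mu := one_add_pow hmu0 (by linarith) hj1
  have h8j : (1 : ℝ) ≤ 8 ^ j := one_le_pow₀ (by norm_num)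
  obtain ⟨σ, hσ, hE⟩ := hEVA κ a η (2 * 8 ^ j) hκ0 hκ ha0 haκ hη (by linarith)
  set τ : ℝ := min (a / 4) σ with hτ
  have hτ0 : 0 < τ := lt_min (by linarith) hσ
  refine ⟨mu, hmu0, hmu1, ?_⟩
  filter_upwards [hE, hWDX ν a j hν0 hν1 ha0 (by linarith) hj1, hDIV (a / 4) (by linarith),
    hNSM θ κ ε0 (1 / (400 * 8 ^ j)) hθ hθκ (by linarith) hε0 (by positivity),
    ev_log (10000 * 8 ^ j / ε0) τ (4 * j + 1) hτ0, ev_log (400000 * 8 ^ j / ε0) κ 0 hκ0,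
    ev_log 16 (θ - a) 0 (by linarith), eventually_ge_atTop 3] with N hEN hWN hDN hNN hbig hNκ hNθ hN3
  intro A hA hAc
  by_contra hno
  push Not at hno
  obtain ⟨X, hX1, hX2, hX3⟩ := hWN
  obtain ⟨L, hL1, hL2⟩ : ∃ L : ℕ, N < 2 ^ L ∧ (L : ℝ) ≤ 3 * Real.log N :=
    ⟨Nat.log 2 N + 1, (logL hN3).1, (logL hN3).2.1⟩
  have hℓ1 := (logL hN3).2.2
  generalize Real.log N = ℓ at *
  have hN3' : (3 : ℝ) ≤ N := by exact_mod_cast hN3
  have hN0 : (0 : ℝ) < N := by linarith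
  have hN1 : (1 : ℝ) ≤ N := by linarith
  have hℓ0 : 0 < ℓ := by linarith
  rw [pow_zero, mul_one] at hNκ hNθ
  -- the sizes
  have hNa0 : 0 < (N : ℝ) ^ a := Real.rpow_pos_of_pos hN0 _
  have hXr : (0 : ℝ) < X := hNa0.trans_le hX1
  have hX0 : 1 ≤ X := by exact_mod_cast hXr
  obtain ⟨hW1, -⟩ := hPRW ν X j hν0 hν1 hX0 hj1
  obtain ⟨W, hW⟩ : ∃ W : Finset ℕ, W = PW ν X j := ⟨_, rfl⟩
  rw [← hW] at hW1 hX3
  obtain ⟨V, hV⟩ : ∃ V : ℕ, V = X ^ j := ⟨_, rfl⟩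
  have hVr : (V : ℝ) = (X : ℝ) ^ j := by rw [hV]; push_cast; rfl
  have hV0 : (0 : ℝ) < V := by rw [hVr]; positivity
  have hNaj : ((N : ℝ) ^ a) ^ j = (N : ℝ) ^ (1 - κ) := by
    rw [← Real.rpow_natCast, ← Real.rpow_mul hN0.le, haj]
  have hV1 : (N : ℝ) ^ (1 - κ) ≤ V := by
    rw [hVr, ← hNaj]
    exact pow_le_pow_left₀ hNa0.le hX1 j
  have hV2 : (V : ℝ) ≤ 8 ^ j * (N : ℝ) ^ (1 - κ) := by
    rw [hVr, ← hNaj, ← mul_pow]
    exact pow_le_pow_left₀ hXr.le hX2 j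
  have hNκ0 : 0 < (N : ℝ) ^ κ := Real.rpow_pos_of_pos hN0 _
  have hNs : (N : ℝ) ^ κ * (N : ℝ) ^ (1 - κ) = N := by
    rw [← Real.rpow_add hN0, add_sub_cancel, Real.rpow_one]
  have hN1κ : 0 < (N : ℝ) ^ (1 - κ) := Real.rpow_pos_of_pos hN0 _
  obtain ⟨x, hx⟩ : ∃ x : ℝ, x = (N : ℝ) / (2 * V) := ⟨_, rfl⟩
  have hx0 : 0 < x := by rw [hx]; positivity
  have hxV : x * V = N / 2 := by rw [hx]; field_simp
  have hx1 : 2 * x ≤ (N : ℝ) ^ κ := by
    have h1 : (2 * x) * V ≤ (N : ℝ) ^ κ * V := by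
      calc (2 * x) * V = N := by rw [mul_assoc, hxV]; ring
        _ = (N : ℝ) ^ κ * (N : ℝ) ^ (1 - κ) := hNs.symm
        _ ≤ _ := mul_le_mul_of_nonneg_left hV1 hNκ0.le
    exact le_of_mul_le_mul_right h1 hV0
  have hx2 : (N : ℝ) ^ κ ≤ 2 * 8 ^ j * x := by
    have h1 : (N : ℝ) ^ κ * V ≤ (2 * 8 ^ j * x) * V := by
      calc (N : ℝ) ^ κ * V ≤ (N : ℝ) ^ κ * (8 ^ j * (N : ℝ) ^ (1 - κ)) :=
            mul_le_mul_of_nonneg_left hV2 hNκ0.le
        _ = 8 ^ j * ((N : ℝ) ^ κ * (N : ℝ) ^ (1 - κ)) := by ring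
        _ = 8 ^ j * N := by rw [hNs]
        _ = (2 * 8 ^ j * x) * V := by
          have : (2 * 8 ^ j * x) * V = 2 * 8 ^ j * (x * V) := by ring
          rw [this, hxV]; ring
    exact le_of_mul_le_mul_right h1 hV0
  have hx3 : 200000 / ε0 ≤ x := by
    have h1 : 8 ^ j * (2 * (200000 / ε0)) ≤ 8 ^ j * (2 * x) := by
      calc 8 ^ j * (2 * (200000 / ε0)) = 400000 * 8 ^ j / ε0 := by ring
        _ ≤ (N : ℝ) ^ κ := hNκ
        _ ≤ 2 * 8 ^ j * x := hx2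
        _ = 8 ^ j * (2 * x) := by ring
    have h2 := le_of_mul_le_mul_left h1 (by positivity)
    linarith
  have hx4 : 20000000 ≤ x := by
    refine le_trans ?_ hx3
    rw [le_div_iff₀ hε0]
    linarith
  -- the intervals
  obtain ⟨k1, k2, S, S', hk12, hSS, hk2, hS2, hK1, hK2, hS3, hS4, hiv⟩ :=
    hIVX (1 / 100) mu N V (by norm_num) le_rfl hmu0 hmu1 (by exact_mod_cast hV0)
      (by rw [← hx]; linarith)
      (by
        rw [← hx]
        refine le_trans ?_ hx3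
        rw [hmu, div_le_div_iff₀ (by positivity) hε0]
        nlinarith)
  rw [← hx] at hk2 hS2 hK1 hK2 hS3 hS4
  -- the products
  have hWV : ∀ m ∈ W, V < m ∧ (m : ℝ) ≤ (1 + mu) * V := by
    intro m hm
    obtain ⟨h1, h2, -⟩ := hW1 m hm
    refine ⟨by rw [hV]; exact h1, h2.trans ?_⟩
    rw [hVr]
    exact mul_le_mul_of_nonneg_right hνj (by positivity)
  have hW2V : ∀ m ∈ W, (m : ℝ) ≤ 2 * V := by
    intro m hm
    refine (hWV m hm).2.trans ?_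
    exact mul_le_mul_of_nonneg_right (by linarith) hV0.le
  have hWpos : ∀ m ∈ W, 0 < m := fun m hm => lt_of_le_of_lt (Nat.zero_le _) (hWV m hm).1
  have hVN : 2 * (V : ℝ) ≤ N := by
    have h1 : (N : ℝ) = 2 * (x * V) := by rw [hxV]; ring
    have h2 : (V : ℝ) ≤ x * V := le_mul_of_one_le_left hV0.le (by linarith)
    linarith
  -- the intervals are small
  obtain ⟨K, hK⟩ : ∃ K : Finset ℕ, K = Ioc k1 k2 := ⟨_, rfl⟩
  obtain ⟨Ss, hSs⟩ : ∃ Ss : Finset ℕ, Ss = Ioc S S' := ⟨_, rfl⟩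
  rw [← hK, ← hSs] at hiv
  have hKN : ∀ k ∈ K, 1 ≤ k ∧ (k : ℝ) ≤ (N : ℝ) ^ κ := by
    intro k hk
    rw [hK, mem_Ioc] at hk
    refine ⟨by omega, ?_⟩
    have : (k : ℝ) ≤ k2 := by exact_mod_cast hk.2
    linarith
  have hSN : ∀ k ∈ Ss, 1 ≤ k ∧ (k : ℝ) ≤ (N : ℝ) ^ κ := by
    intro k hk
    rw [hSs, mem_Ioc] at hk
    refine ⟨by omega, ?_⟩
    have : (k : ℝ) ≤ S' := by exact_mod_cast hk.2
    linarith
  have hKc : (K.card : ℝ) = (k2 : ℝ) - k1 := by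
    rw [hK, Nat.card_Ioc, Nat.cast_sub hk12]
  obtain ⟨bad, hbad⟩ : ∃ bad : ℕ → Prop, bad = fun k => ∃ p : ℕ, p.Prime ∧ p ∣ k ∧ (N : ℝ) ^ θ < p :=
    ⟨_, rfl⟩
  have hnsm : ∀ y z : ℕ, y ≤ z → (z : ℝ) ≤ (N : ℝ) ^ κ → 1 / 100 * x - 2 ≤ (z : ℝ) - y →
      (((Ioc y z).filter bad).card : ℝ) ≤ (1 / 2 - 3 * ε0) * ((z : ℝ) - y) := by
    intro y z hyz hz1 hz2
    have h1 := hNN y (z - y) (by rw [Nat.cast_sub hyz]; linarith) (by
      rw [Nat.cast_sub hyz]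
      refine le_trans ?_ hz2
      calc 1 / (400 * 8 ^ j) * (N : ℝ) ^ κ ≤ 1 / (400 * 8 ^ j) * (2 * 8 ^ j * x) :=
            mul_le_mul_of_nonneg_left hx2 (by positivity)
        _ = x / 200 := by field_simp; ring
        _ ≤ 1 / 100 * x - 2 := by linarith)
    rw [Nat.add_sub_cancel' hyz, Nat.cast_sub hyz] at h1
    have h2 : (0 : ℝ) ≤ (z : ℝ) - y := by
      have : (y : ℝ) ≤ z := by exact_mod_cast hyz
      linarith
    rw [hbad]
    exact h1.trans (mul_le_mul_of_nonneg_right hε2 h2)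
  have hbK : ((K.filter bad).card : ℝ) ≤ (1 / 2 - 3 * ε0) * ((k2 : ℝ) - k1) := by
    rw [hK]
    exact hnsm k1 k2 hk12 (by linarith) hK1
  have hbS : ((Ss.filter bad).card : ℝ) ≤ (1 / 2 - 3 * ε0) * ((S' : ℝ) - S) := by
    rw [hSs]
    exact hnsm S S' hSS (by linarith) (by linarith)
  have hεx : 200000 ≤ ε0 * x := by
    rw [div_le_iff₀ hε0] at hx3
    linarith
  have hD : 4 * ε0 * (x / 100) ≤ (K.card : ℝ) - (K.filter bad).card - (Ss.filter bad).card := by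
    have h1 : (1 / 2 + 3 * ε0) * (1 / 100 * x - 2) ≤ (1 / 2 + 3 * ε0) * ((k2 : ℝ) - k1) :=
      mul_le_mul_of_nonneg_left hK1 (by positivity)
    have h2 : (1 / 2 - 3 * ε0) * ((S' : ℝ) - S) ≤
        (1 / 2 - 3 * ε0) * ((1 / 100 + 6 * mu) * x + 2) :=
      mul_le_mul_of_nonneg_left hS4 (by linarith)
    have h3 : (1 / 2 - 3 * ε0) * (6 * (mu * x)) ≤ 1 / 2 * (6 * (mu * x)) :=
      mul_le_mul_of_nonneg_right (by linarith) (by positivity)
    have h4 : (1 / 2 - 3 * ε0) * ((1 / 100 + 6 * mu) * x + 2) =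
        x / 200 + 1 - 3 * (ε0 * x) / 100 - 6 * ε0 + (1 / 2 - 3 * ε0) * (6 * (mu * x)) := by ring
    have h5 : mu * x = ε0 * x / 200 := by rw [hmu]; ring
    have h6 : (1 / 2 + 3 * ε0) * (1 / 100 * x - 2) =
        x / 200 - 1 + 3 * (ε0 * x) / 100 - 6 * ε0 := by ring
    have h7 : (1 / 2 - 3 * ε0) * ((k2 : ℝ) - k1) =
        ((k2 : ℝ) - k1) - (1 / 2 + 3 * ε0) * ((k2 : ℝ) - k1) := by ring
    have h8 : 4 * ε0 * (x / 100) = 4 * (ε0 * x) / 100 := by ring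
    rw [h4] at h2
    rw [h5] at h2 h3
    rw [h6] at h1
    rw [h7] at hbK
    rw [hKc, h8]
    linarith
  -- the sizes of the trivial terms
  obtain ⟨w, hw⟩ : ∃ w : ℝ, w = (W.card : ℝ) := ⟨_, rfl⟩
  have hVw : (V : ℝ) ≤ ℓ ^ (2 * j) * w := by rw [hVr, hw]; exact hX3
  have hw0 : 0 < w := by
    have h1 : 0 < ℓ ^ (2 * j) * w := lt_of_lt_of_le hV0 hVw
    exact (mul_pos_iff_of_pos_left (by positivity)).1 h1
  have hτa : (N : ℝ) ^ τ ≤ (N : ℝ) ^ (a / 4) :=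
    Real.rpow_le_rpow_of_exponent_le hN1 (min_le_left _ _)
  have hτσ : (N : ℝ) ^ τ ≤ (N : ℝ) ^ σ :=
    Real.rpow_le_rpow_of_exponent_le hN1 (min_le_right _ _)
  have hNτ0 : 0 < (N : ℝ) ^ τ := Real.rpow_pos_of_pos hN0 _
  have hTM : (N : ℝ) ^ (a / 4) * (N : ℝ) ^ τ ≤ X := by
    calc (N : ℝ) ^ (a / 4) * (N : ℝ) ^ τ ≤ (N : ℝ) ^ (a / 4) * (N : ℝ) ^ (a / 4) :=
          mul_le_mul_of_nonneg_left hτa (Real.rpow_nonneg hN0.le _)
      _ = (N : ℝ) ^ (a / 4 + a / 4) := (Real.rpow_add hN0 _ _).symm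
      _ ≤ (N : ℝ) ^ a := Real.rpow_le_rpow_of_exponent_le hN1 (by linarith)
      _ ≤ X := hX1
  have hT1 : 1 ≤ (N : ℝ) ^ (a / 4) := Real.one_le_rpow hN1 (by linarith)
  have hMX : (N : ℝ) ^ τ ≤ X := by
    refine le_trans ?_ hTM
    exact le_mul_of_one_le_left hNτ0.le hT1
  have hεX : 10000 * 8 ^ j * ℓ ^ (4 * j + 1) ≤ ε0 * X := by
    have h1 := mul_le_mul_of_nonneg_left (hbig.trans hMX) hε0.le
    calc 10000 * 8 ^ j * ℓ ^ (4 * j + 1) = ε0 * (10000 * 8 ^ j / ε0 * ℓ ^ (4 * j + 1)) := by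
          field_simp
      _ ≤ _ := h1
  have hpow1 : ℓ ^ (2 * j + 1) ≤ ℓ ^ (4 * j + 1) := pow_le_pow_right₀ hℓ1 (by omega)
  have hpow2 : ℓ ≤ ℓ ^ (4 * j + 1) := by
    calc ℓ = ℓ ^ 1 := (pow_one ℓ).symm
      _ ≤ _ := pow_le_pow_right₀ hℓ1 (by omega)
  obtain ⟨Q, hQ⟩ : ∃ Q : ℝ, Q = (L : ℝ) * (2 * V) / X := ⟨_, rfl⟩
  have hL0 : (0 : ℝ) ≤ L := Nat.cast_nonneg _
  have hQ0 : 0 ≤ Q := by rw [hQ]; positivity
  have hQw : Q ≤ ε0 * w := by
    rw [hQ, div_le_iff₀ hXr]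
    calc (L : ℝ) * (2 * V) ≤ (3 * ℓ) * (2 * (ℓ ^ (2 * j) * w)) :=
          mul_le_mul hL2 (by linarith) (by positivity) (by positivity)
      _ = (6 * ℓ ^ (2 * j + 1)) * w := by ring
      _ ≤ (ε0 * X) * w := by
          apply mul_le_mul_of_nonneg_right _ hw0.le
          have h3 : 0 < ℓ ^ (4 * j + 1) := by positivity
          have h4 : ℓ ^ (4 * j + 1) ≤ 8 ^ j * ℓ ^ (4 * j + 1) := le_mul_of_one_le_left h3.le h8j
          have h5 : 10000 * (8 ^ j * ℓ ^ (4 * j + 1)) ≤ ε0 * X := by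
            rw [← mul_assoc]; exact hεX
          linarith
      _ = ε0 * w * X := by ring
  obtain ⟨q1, hq1⟩ : ∃ q1 : ℝ, q1 = (L : ℝ) * (⌊(N : ℝ) ^ κ⌋₊ : ℝ) / X := ⟨_, rfl⟩
  have hq1x : q1 ≤ ε0 * (x / 100) := by
    rw [hq1, div_le_iff₀ hXr]
    have h1 : ((⌊(N : ℝ) ^ κ⌋₊ : ℕ) : ℝ) ≤ 2 * 8 ^ j * x := (Nat.floor_le hNκ0.le).trans hx2
    calc (L : ℝ) * (⌊(N : ℝ) ^ κ⌋₊ : ℝ) ≤ (3 * ℓ) * (2 * 8 ^ j * x) :=
          mul_le_mul hL2 h1 (Nat.cast_nonneg _) (by positivity)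
      _ = (600 * 8 ^ j * ℓ) * (x / 100) := by ring
      _ ≤ (ε0 * X) * (x / 100) := by
          apply mul_le_mul_of_nonneg_right _ (by positivity)
          refine le_trans ?_ hεX
          have h3 : 8 ^ j * ℓ ≤ 8 ^ j * ℓ ^ (4 * j + 1) :=
            mul_le_mul_of_nonneg_left hpow2 (by positivity)
          have h4 : (0 : ℝ) ≤ 8 ^ j * ℓ ^ (4 * j + 1) := by positivity
          have h5 : 600 * 8 ^ j * ℓ = 600 * (8 ^ j * ℓ) := by ring
          have h6 : 10000 * 8 ^ j * ℓ ^ (4 * j + 1) = 10000 * (8 ^ j * ℓ ^ (4 * j + 1)) := by ring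
          rw [h5, h6]
          linarith
      _ = ε0 * (x / 100) * X := by ring
  have hNL : ∀ n : ℕ, n ≤ N → n < 2 ^ L := fun n hn => lt_of_le_of_lt hn hL1
  have hWQ : ∀ n : ℕ, 1 ≤ n → n ≤ N → ((W.filter (fun s => ¬ s.Coprime n)).card : ℝ) ≤ Q := by
    intro n hn1 hn2
    have h1 := hTRV W (2 * V) n X L (fun s hs => ⟨hWpos s hs, by exact_mod_cast hW2V s hs⟩) hX0
      (fun s hs p hp h _ => ((hW1 s hs).2.2 p hp h).1) hn1 (hNL n hn2)
    rw [hQ]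
    push_cast at h1
    exact h1
  have hAN : ∀ n ∈ A, 1 ≤ n := by
    intro n hn
    rcases Nat.eq_zero_or_pos n with h | h
    · have h1 := (hA n hn).2
      rw [h] at h1
      simp at h1
      linarith
    · exact h
  have hVNn : 2 * V ≤ N := by exact_mod_cast hVN
  have hWN : ∀ r ∈ W, r ≤ N := by
    intro r hr
    have : r ≤ 2 * V := by exact_mod_cast hW2V r hr
    omega
  have hV3 : 2 * (V : ℝ) ≤ 2 * 8 ^ j * (N : ℝ) ^ (1 - κ) := by
    rw [mul_assoc]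
    exact mul_le_mul_of_nonneg_left hV2 (by norm_num)
  -- the counting argument
  have hEA := hEN A K W (fun n hn => ⟨hAN n hn, (hA n hn).1⟩) hAc hKN
    (fun m hm => ⟨hWpos m hm, (hW2V m hm).trans hV3⟩)
    (fun m hm p hp h => hX1.trans (by exact_mod_cast ((hW1 m hm).2.2 p hp h).1.le))
  have hEB := hEN A (K.filter bad) W (fun n hn => ⟨hAN n hn, (hA n hn).1⟩) hAc
    (fun k hk => hKN k (mem_filter.1 hk).1)
    (fun m hm => ⟨hWpos m hm, (hW2V m hm).trans hV3⟩)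
    (fun m hm p hp h => hX1.trans (by exact_mod_cast ((hW1 m hm).2.2 p hp h).1.le))
  have hEC := hEN A (Ss.filter bad) W (fun n hn => ⟨hAN n hn, (hA n hn).1⟩) hAc
    (fun k hk => hSN k (mem_filter.1 hk).1)
    (fun m hm => ⟨hWpos m hm, (hW2V m hm).trans hV3⟩)
    (fun m hm p hp h => hX1.trans (by exact_mod_cast ((hW1 m hm).2.2 p hp h).1.le))
  have hkm : ∀ n ∈ A, ∀ k ∈ K, ∀ m ∈ W, k * m < n := by
    intro n hn k hk m hm
    exact (hiv n m m (hA n hn).1 (hA n hn).2 (hWV m hm).1 (hWV m hm).2 (hWV m hm).1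
      (hWV m hm).2).1 k hk
  have hrat : ∀ n ∈ A, ∀ k ∈ K, ∀ m ∈ W, ∀ r ∈ W, r ∣ n - k * m → (n - k * m) / r ∈ Ss := by
    intro n hn k hk m hm r hr
    exact (hiv n m r (hA n hn).1 (hA n hn).2 (hWV m hm).1 (hWV m hm).2 (hWV r hr).1
      (hWV r hr).2).2 k hk
  have h16 : 16 * (N : ℝ) ^ a ≤ (N : ℝ) ^ θ := by
    calc 16 * (N : ℝ) ^ a ≤ (N : ℝ) ^ (θ - a) * (N : ℝ) ^ a :=
          mul_le_mul_of_nonneg_right hNθ hNa0.le
      _ = (N : ℝ) ^ θ := by rw [← Real.rpow_add hN0, sub_add_cancel]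
  have hsm : ∀ u : ℕ, ¬ bad u → ∀ m ∈ W, ∀ p : ℕ, p.Prime → p ∣ u * m → (p : ℝ) ≤ (N : ℝ) ^ θ := by
    intro u hu m hm p hp h
    rcases hp.dvd_mul.1 h with h | h
    · by_contra hcon
      push Not at hcon
      exact hu (by rw [hbad]; exact ⟨p, hp, h, hcon⟩)
    · have h1 := ((hW1 m hm).2.2 p hp h).2
      have h2 : (p : ℝ) ≤ 2 * X := by exact_mod_cast h1
      linarith
  have hrep : ∀ n ∈ A, ∀ k ∈ K, ∀ s ∈ Ss, ∀ m ∈ W, ∀ r ∈ W, k * m + r * s = n →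
      bad k ∨ bad s := by
    intro n hn k hk s hs m hm r hr he
    by_contra hcon
    push Not at hcon
    refine hno n hn ⟨k * m, s * r, Nat.mul_pos (hKN k hk).1 (hWpos m hm),
      Nat.mul_pos (hSN s hs).1 (hWpos r hr), by rw [mul_comm s r]; exact he,
      hsm k hcon.1 m hm, hsm s hcon.2 r hr⟩
  have hdiv : ∀ n ∈ A, ∀ k ∈ K, ∀ m ∈ W,
      ((W.filter (fun r => r ∣ n - k * m)).card : ℝ) ≤ (N : ℝ) ^ (a / 4) := by
    intro n hn k hk m hm
    have h1 := hkm n hn k hk m hm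
    have h2 : 0 < n - k * m := by omega
    have h3 : n - k * m ≤ N ^ 3 := by
      calc n - k * m ≤ n := Nat.sub_le _ _
        _ ≤ N := (hA n hn).1
        _ ≤ N ^ 3 := Nat.le_self_pow (by norm_num) N
    refine le_trans ?_ (hDN (n - k * m) h2 h3).1
    unfold tau
    have h4 : W.filter (fun r => r ∣ n - k * m) ⊆ (n - k * m).divisors := by
      intro r hr
      rw [Nat.mem_divisors]
      exact ⟨(mem_filter.1 hr).2, by omega⟩
    exact_mod_cast card_le_card h4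
  have hQK : Q * (K.card : ℝ) ≤ ε0 * w * (x / 100) := by
    apply mul_le_mul hQw (by rw [hKc]; linarith) (Nat.cast_nonneg _) (by positivity)
  have hend := hEND A K Ss W bad Q ((N : ℝ) ^ (a / 4)) q1 (A.card * (N : ℝ) ^ (1 - σ)) (2 * V)
    (ε0 / 50 * x * w) hQ0 (by linarith) (by positivity) (by positivity)
    (fun r hr => ⟨hWpos r hr, hW2V r hr⟩) hkm hrat hrep
    (fun n hn => by
      have h1 := hWQ n (hAN n hn) (hA n hn).1
      have h2 : W.filter (fun m => ¬ n.Coprime m) = W.filter (fun s => ¬ s.Coprime n) :=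
        Finset.filter_congr (fun m _ => by rw [Nat.coprime_comm])
      rw [h2]
      exact h1) hdiv
    (fun r hr => by
      have h1 := hTRV K ⌊(N : ℝ) ^ κ⌋₊ r X L
        (fun k hk => ⟨(hKN k hk).1, Nat.le_floor (hKN k hk).2⟩) hX0
        (fun k hk p hp _ h => ((hW1 r hr).2.2 p hp h).1) (hWpos r hr) (hNL r (hWN r hr))
      rw [hq1]
      exact h1)
    (fun r hr => hWQ r (hWpos r hr) (hWN r hr)) hEA hEB hEC (by
      rw [← hw]
      have h1 := mul_le_mul_of_nonneg_left hD hw0.le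
      have h2 := mul_le_mul_of_nonneg_right hq1x hw0.le
      have h3 := hQK
      calc ε0 / 50 * x * w = w * (4 * ε0 * (x / 100)) - ε0 * (x / 100) * w - ε0 * w * (x / 100) := by
            ring
        _ ≤ _ := by linarith)
  have hA0 : (0 : ℝ) < A.card := lt_of_lt_of_le (Real.rpow_pos_of_pos hN0 _) hAc
  rw [← hw] at hend
  refine contra (cA := (A.card : ℝ)) (w := w) (V := V) (x := x) (N := N) (ℓ := ℓ) (L := L) (ε0 := ε0)
    (T := (N : ℝ) ^ (a / 4)) (Q := Q) (E := A.card * (N : ℝ) ^ (1 - σ)) (H := ε0 / 50 * x * w)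
    (k := K.card) (P := (N : ℝ) ^ (1 - σ)) (M := (N : ℝ) ^ τ) (j := j) hA0 hw0 hV0 hx0 hN0 hℓ1 hL2 hε0 hxV
    hVw ?_ hNτ0 ?_ ?_ rfl ?_ ?_ hQ0 (by linarith) rfl hend
  · have h1 : ε0 * w ≤ 1 / 100 * w := mul_le_mul_of_nonneg_right hε1 hw0.le
    linarith
  · have h1 : x * Q = L * (N / X) := by
      have h2 : x * Q = L * (2 * (x * V)) / X := by rw [hQ]; ring
      rw [h2, hxV]; ring
    rw [h1]
    have h3 : (N : ℝ) / X * (N : ℝ) ^ (a / 4) ≤ N / (N : ℝ) ^ τ := by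
      rw [div_mul_eq_mul_div, div_le_div_iff₀ hXr hNτ0, mul_assoc]
      exact mul_le_mul_of_nonneg_left hTM hN0.le
    calc (L : ℝ) * (N / X) * (N : ℝ) ^ (a / 4) = L * (N / X * (N : ℝ) ^ (a / 4)) := by ring
      _ ≤ _ := mul_le_mul_of_nonneg_left h3 hL0
  · refine le_trans ?_ hbig
    apply mul_le_mul_of_nonneg_right _ (by positivity)
    apply div_le_div_of_nonneg_right _ hε0.le
    linarith
  · rw [Real.rpow_sub hN0, Real.rpow_one]
    exact div_le_div_of_nonneg_left hN0.le hNτ0 hτσ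
  · rw [hKc]
    linarith

end Pool.Agent.Lib.MP_1446ad_nt.EX
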