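import Pool.Agent.Lib.MP_1446ad_nt.EX.Spec
import Pool.Agent.Lib.BVS.LSP
import Pool.Agent.Lib.BVS.BILP

/-!
# Module BL1: large conductors
-/

set_option autoImplicit false

namespace Pool.Agent.Lib.MP_1446ad_nt.EX

open Finset Filter
open scoped Classical
open Pool.Agent.Lib.BVS (psum)
open Pool.Agent.Lib.MP_1446ad_nt.SM (tau SpecDIV SpecPIG SpecNSM)

namespace BL1M

/-- the character sum over `A` as a sum over `[1, N]` -/
theorem cs_eq {q : ℕ} (χ : DirichletCharacter ℂ q) (A : Finset ℕ) (N : ℕ)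
    (hA : ∀ n ∈ A, 1 ≤ n ∧ n ≤ N) :
    cs A χ = ∑ n ∈ Icc 1 N, (if n ∈ A then (1 : ℂ) else 0) * χ (n : ZMod q) := by
  have h1 : ∀ n ∈ Icc 1 N, (if n ∈ A then (1 : ℂ) else 0) * χ (n : ZMod q) =
      if n ∈ A then χ (n : ZMod q) else 0 := by
    intro n _
    rw [ite_mul, one_mul, zero_mul]
  rw [sum_congr rfl h1, sum_ite_mem]
  have h2 : Icc 1 N ∩ A = A := by
    apply inter_eq_right.mpr
    intro n hn
    exact mem_Icc.mpr (hA n hn)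
  rw [h2]
  rfl

/-- the number of representations `u = k m` -/
noncomputable def bb (K W : Finset ℕ) (u : ℕ) : ℕ :=
  ((K ×ˢ W).filter (fun t : ℕ × ℕ => t.1 * t.2 = u)).card

theorem maps {K W : Finset ℕ} {K1 M1 : ℕ} (hK : ∀ k ∈ K, 1 ≤ k ∧ k ≤ K1)
    (hW : ∀ m ∈ W, 1 ≤ m ∧ m ≤ M1) : ∀ t ∈ K ×ˢ W, t.1 * t.2 ∈ Icc 1 (K1 * M1) := by
  intro t ht
  rw [mem_product] at ht
  rw [mem_Icc]
  have h1 := hK t.1 ht.1
  have h2 := hW t.2 ht.2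
  exact ⟨Nat.mul_pos h1.1 h2.1, Nat.mul_le_mul h1.2 h2.2⟩

theorem prod_eq {q : ℕ} (χ : DirichletCharacter ℂ q) (K W : Finset ℕ) (K1 M1 : ℕ)
    (hK : ∀ k ∈ K, 1 ≤ k ∧ k ≤ K1) (hW : ∀ m ∈ W, 1 ≤ m ∧ m ≤ M1) :
    cs K χ * cs W χ = ∑ u ∈ Icc 1 (K1 * M1), (bb K W u : ℂ) * χ (u : ZMod q) := by
  unfold cs
  rw [sum_mul_sum, ← sum_product', ← sum_fiberwise_of_maps_to (maps hK hW)]
  refine sum_congr rfl fun u _ => ?_
  rw [sum_congr rfl (g := fun _ => χ (u : ZMod q)), sum_const, nsmul_eq_mul]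
  · rfl
  · intro t ht
    rw [mem_filter] at ht
    rw [← map_mul, ← Nat.cast_mul, ht.2]

theorem bb_le_tau (K W : Finset ℕ) (u : ℕ) (hu : 1 ≤ u) : (bb K W u : ℝ) ≤ tau u := by
  unfold bb tau
  have h1 : ((K ×ˢ W).filter (fun t : ℕ × ℕ => t.1 * t.2 = u)).card ≤ u.divisors.card := by
    apply card_le_card_of_injOn (fun t => t.1)
    · intro t ht
      have ht' := (mem_filter.mp (mem_coe.mp ht)).2
      rw [mem_coe, Nat.mem_divisors]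
      exact ⟨⟨t.2, ht'.symm⟩, by omega⟩
    · intro t ht t' ht' htt
      have h2 := (mem_filter.mp (mem_coe.mp ht)).2
      have h3 := (mem_filter.mp (mem_coe.mp ht')).2
      have h4 : t.1 = t'.1 := htt
      have h5 : 0 < t.1 := by
        rcases Nat.eq_zero_or_pos t.1 with h | h
        · rw [h, zero_mul] at h2
          omega
        · exact h
      refine Prod.ext h4 ?_
      apply Nat.eq_of_mul_eq_mul_left h5
      rw [h2, h4, h3]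
  exact_mod_cast h1

theorem bb_sum (K W : Finset ℕ) (K1 M1 : ℕ) (hK : ∀ k ∈ K, 1 ≤ k ∧ k ≤ K1)
    (hW : ∀ m ∈ W, 1 ≤ m ∧ m ≤ M1) :
    (∑ u ∈ Icc 1 (K1 * M1), (bb K W u : ℝ)) ≤ (K1 : ℝ) * M1 := by
  have h1 : ∑ u ∈ Icc 1 (K1 * M1), bb K W u = (K ×ˢ W).card :=
    (card_eq_sum_card_fiberwise (maps hK hW)).symm
  have h2 : K.card ≤ K1 := by
    have : K ⊆ Icc 1 K1 := fun k hk => mem_Icc.mpr (hK k hk)
    calc K.card ≤ (Icc 1 K1).card := card_le_card this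
      _ = K1 := by simp
  have h3 : W.card ≤ M1 := by
    have : W ⊆ Icc 1 M1 := fun k hk => mem_Icc.mpr (hW k hk)
    calc W.card ≤ (Icc 1 M1).card := card_le_card this
      _ = M1 := by simp
  have h4 : ∑ u ∈ Icc 1 (K1 * M1), bb K W u ≤ K1 * M1 := by
    rw [h1, card_product]
    exact Nat.mul_le_mul h2 h3
  exact_mod_cast h4

end BL1M

open BL1M in
theorem specBL1 : SpecBL1 := by
  obtain ⟨C₀, hC₀, hL⟩ := Pool.Agent.Lib.BVS.specLSP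
  refine ⟨C₀, hC₀, ?_⟩
  intro A K W N K1 M1 R T hN hK1 hM1 hR hA hK hW hT
  have hT0 : 0 ≤ T := by
    have h1 := hT 1 le_rfl (Nat.mul_pos hK1 hM1)
    refine le_trans ?_ h1
    unfold tau
    positivity
  have hKM : 1 ≤ K1 * M1 := Nat.mul_pos hK1 hM1
  have step1 : ∑ d ∈ Ioc R (2 * R), TQ A K W d =
      ∑ d ∈ Ioc R (2 * R), psum d (fun χ => ‖cs A χ‖ * (‖cs K χ‖ * ‖cs W χ‖)) := by
    refine sum_congr rfl fun d _ => ?_
    unfold TQ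
    congr 1
    funext χ
    ring
  -- the first sum
  have hS1 : ∑ d ∈ Ioc R (2 * R), psum d (fun χ => ‖cs A χ‖ ^ 2) ≤
      C₀ * ((N : ℝ) + (R : ℝ) ^ 2) * A.card := by
    have h1 := hL R N (fun n => if n ∈ A then (1 : ℂ) else 0) hR hN
    have h2 : ∑ n ∈ Icc 1 N, ‖(if n ∈ A then (1 : ℂ) else 0)‖ ^ 2 = (A.card : ℝ) := by
      have h3 : ∀ n ∈ Icc 1 N, ‖(if n ∈ A then (1 : ℂ) else 0)‖ ^ 2 =
          if n ∈ A then (1 : ℝ) else 0 := by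
        intro n _
        split_ifs <;> simp
      rw [sum_congr rfl h3, sum_ite_mem, sum_const, nsmul_eq_mul, mul_one]
      have h4 : Icc 1 N ∩ A = A := by
        apply inter_eq_right.mpr
        intro n hn
        exact mem_Icc.mpr (hA n hn)
      rw [h4]
    rw [h2] at h1
    refine le_trans (le_of_eq ?_) h1
    refine sum_congr rfl fun d _ => ?_
    congr 1
    funext χ
    rw [cs_eq χ A N hA]
  -- the second sum
  have hS2 : ∑ d ∈ Ioc R (2 * R), psum d (fun χ => (‖cs K χ‖ * ‖cs W χ‖) ^ 2) ≤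
      C₀ * ((K1 : ℝ) * M1 + (R : ℝ) ^ 2) * (T * (K1 * M1)) := by
    have h1 := hL R (K1 * M1) (fun u => (bb K W u : ℂ)) hR hKM
    have h2 : ∑ u ∈ Icc 1 (K1 * M1), ‖(bb K W u : ℂ)‖ ^ 2 ≤ T * ((K1 : ℝ) * M1) := by
      calc ∑ u ∈ Icc 1 (K1 * M1), ‖(bb K W u : ℂ)‖ ^ 2
          ≤ ∑ u ∈ Icc 1 (K1 * M1), T * (bb K W u : ℝ) := by
            refine sum_le_sum fun u hu => ?_
            rw [mem_Icc] at hu
            rw [Complex.norm_natCast, sq]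
            exact mul_le_mul_of_nonneg_right ((bb_le_tau K W u hu.1).trans (hT u hu.1 hu.2))
              (Nat.cast_nonneg _)
        _ = T * ∑ u ∈ Icc 1 (K1 * M1), (bb K W u : ℝ) := by rw [mul_sum]
        _ ≤ T * ((K1 : ℝ) * M1) := mul_le_mul_of_nonneg_left (bb_sum K W K1 M1 hK hW) hT0
    have h3 : C₀ * (((K1 * M1 : ℕ) : ℝ) + (R : ℝ) ^ 2) *
        ∑ u ∈ Icc 1 (K1 * M1), ‖(bb K W u : ℂ)‖ ^ 2 ≤
        C₀ * ((K1 : ℝ) * M1 + (R : ℝ) ^ 2) * (T * (K1 * M1)) := by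
      rw [Nat.cast_mul]
      exact mul_le_mul_of_nonneg_left h2 (by positivity)
    refine le_trans (le_of_eq ?_) (h1.trans h3)
    refine sum_congr rfl fun d _ => ?_
    congr 1
    funext χ
    rw [← norm_mul, prod_eq χ K W K1 M1 hK hW]
  rw [step1]
  refine (Pool.Agent.Lib.BVS.BILPM.cs (Ioc R (2 * R)) (fun d χ => ‖cs A χ‖)
    (fun d χ => ‖cs K χ‖ * ‖cs W χ‖)).trans ?_
  have h5 : √(∑ d ∈ Ioc R (2 * R), psum d (fun χ => ‖cs A χ‖ ^ 2)) *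
      √(∑ d ∈ Ioc R (2 * R), psum d (fun χ => (‖cs K χ‖ * ‖cs W χ‖) ^ 2)) ≤
      √(C₀ * ((N : ℝ) + (R : ℝ) ^ 2) * A.card) *
        √(C₀ * ((K1 : ℝ) * M1 + (R : ℝ) ^ 2) * (T * (K1 * M1))) :=
    mul_le_mul (Real.sqrt_le_sqrt hS1) (Real.sqrt_le_sqrt hS2) (Real.sqrt_nonneg _)
      (Real.sqrt_nonneg _)
  refine h5.trans ?_
  rw [← Real.sqrt_mul (by positivity)]
  have h6 : C₀ * ((N : ℝ) + K1 * M1 + (R : ℝ) ^ 2) * √(T * A.card * (K1 * M1)) =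
      √((C₀ * ((N : ℝ) + K1 * M1 + (R : ℝ) ^ 2)) ^ 2 * (T * A.card * (K1 * M1))) := by
    rw [Real.sqrt_mul (x := (C₀ * ((N : ℝ) + K1 * M1 + (R : ℝ) ^ 2)) ^ 2) (by positivity),
      Real.sqrt_sq (by positivity)]
  rw [h6]
  apply Real.sqrt_le_sqrt
  have h7 : ((N : ℝ) + (R : ℝ) ^ 2) * ((K1 : ℝ) * M1 + (R : ℝ) ^ 2) ≤
      ((N : ℝ) + K1 * M1 + (R : ℝ) ^ 2) ^ 2 := by
    rw [sq ((N : ℝ) + K1 * M1 + (R : ℝ) ^ 2)]
    have hN0 : (0 : ℝ) ≤ N := Nat.cast_nonneg _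
    have hKM0 : (0 : ℝ) ≤ (K1 : ℝ) * M1 := by positivity
    exact mul_le_mul (by linarith) (by linarith) (by positivity) (by positivity)
  calc C₀ * ((N : ℝ) + (R : ℝ) ^ 2) * A.card *
        (C₀ * ((K1 : ℝ) * M1 + (R : ℝ) ^ 2) * (T * (K1 * M1)))
      = (C₀ ^ 2 * (T * A.card * (K1 * M1))) *
        (((N : ℝ) + (R : ℝ) ^ 2) * ((K1 : ℝ) * M1 + (R : ℝ) ^ 2)) := by ring
    _ ≤ (C₀ ^ 2 * (T * A.card * (K1 * M1))) * ((N : ℝ) + K1 * M1 + (R : ℝ) ^ 2) ^ 2 :=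
        mul_le_mul_of_nonneg_left h7 (by positivity)
    _ = (C₀ * ((N : ℝ) + K1 * M1 + (R : ℝ) ^ 2)) ^ 2 * (T * A.card * (K1 * M1)) := by ring

end Pool.Agent.Lib.MP_1446ad_nt.EX
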