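import Pool.Agent.Lib.MP_1446ad_nt.EX.Spec
import Pool.Agent.Lib.BVS.LSP
import Pool.Agent.Lib.BVS.BILP

/-!
# Module BL2: small conductors
-/

set_option autoImplicit false

namespace Pool.Agent.Lib.MP_1446ad_nt.EX

open Finset Filter
open scoped Classical
open Pool.Agent.Lib.BVS (psum)
open Pool.Agent.Lib.MP_1446ad_nt.SM (tau SpecDIV SpecPIG SpecNSM)

namespace BL2M

/-- the character sum over `A` as a sum over `[1, N]`, with a constant factor -/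
theorem cs_eq {q : ℕ} (χ : DirichletCharacter ℂ q) (A : Finset ℕ) (N : ℕ) (c : ℂ)
    (hA : ∀ n ∈ A, 1 ≤ n ∧ n ≤ N) :
    c * cs A χ = ∑ n ∈ Icc 1 N, (if n ∈ A then c else 0) * χ (n : ZMod q) := by
  have h1 : ∀ n ∈ Icc 1 N, (if n ∈ A then c else 0) * χ (n : ZMod q) =
      if n ∈ A then c * χ (n : ZMod q) else 0 := by
    intro n _
    rw [ite_mul, zero_mul]
  rw [sum_congr rfl h1, sum_ite_mem]
  have h2 : Icc 1 N ∩ A = A := by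
    apply inter_eq_right.mpr
    intro n hn
    exact mem_Icc.mpr (hA n hn)
  rw [h2, ← mul_sum]
  rfl

theorem cs_le {q : ℕ} (χ : DirichletCharacter ℂ q) (A : Finset ℕ) : ‖cs A χ‖ ≤ A.card := by
  unfold cs
  refine (norm_sum_le _ _).trans ?_
  calc ∑ u ∈ A, ‖χ (u : ZMod q)‖ ≤ ∑ u ∈ A, (1 : ℝ) :=
        sum_le_sum fun u _ => DirichletCharacter.norm_le_one χ _
    _ = A.card := by rw [sum_const, nsmul_eq_mul, mul_one]

theorem card_le {K : Finset ℕ} {K1 : ℕ} (hK : ∀ k ∈ K, 1 ≤ k ∧ k ≤ K1) : (K.card : ℝ) ≤ K1 := by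
  have h1 : K ⊆ Icc 1 K1 := fun k hk => mem_Icc.mpr (hK k hk)
  have h2 : K.card ≤ K1 := by
    calc K.card ≤ (Icc 1 K1).card := card_le_card h1
      _ = K1 := by simp
  exact_mod_cast h2

/-- the large sieve for the character sum over a finite set -/
theorem ls {C₀ : ℝ} (hC₀ : 0 < C₀)
    (hL : ∀ (R N : ℕ) (a : ℕ → ℂ), 1 ≤ R → 1 ≤ N →
      ∑ q ∈ Ioc R (2 * R), psum q (fun χ => ‖∑ n ∈ Icc 1 N, a n * χ (n : ZMod q)‖ ^ 2)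
        ≤ C₀ * ((N : ℝ) + (R : ℝ) ^ 2) * ∑ n ∈ Icc 1 N, ‖a n‖ ^ 2)
    (K : Finset ℕ) (K1 R : ℕ) (c : ℝ) (hK1 : 1 ≤ K1) (hR : 1 ≤ R)
    (hK : ∀ k ∈ K, 1 ≤ k ∧ k ≤ K1) :
    ∑ d ∈ Ioc R (2 * R), psum d (fun χ => ‖(c : ℂ) * cs K χ‖ ^ 2) ≤
      C₀ * ((K1 : ℝ) + (R : ℝ) ^ 2) * (c ^ 2 * K1) := by
  have h1 := hL R K1 (fun n => if n ∈ K then (c : ℂ) else 0) hR hK1
  have h2 : ∑ n ∈ Icc 1 K1, ‖(if n ∈ K then (c : ℂ) else 0)‖ ^ 2 ≤ c ^ 2 * K1 := by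
    have h3 : ∀ n ∈ Icc 1 K1, ‖(if n ∈ K then (c : ℂ) else 0)‖ ^ 2 =
        if n ∈ K then c ^ 2 else 0 := by
      intro n _
      split_ifs
      · rw [Complex.norm_real, Real.norm_eq_abs, sq_abs]
      · simp
    rw [sum_congr rfl h3, sum_ite_mem, sum_const, nsmul_eq_mul]
    have h4 : Icc 1 K1 ∩ K = K := by
      apply inter_eq_right.mpr
      intro n hn
      exact mem_Icc.mpr (hK n hn)
    rw [h4, mul_comm]
    exact mul_le_mul_of_nonneg_left (card_le hK) (sq_nonneg c)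
  refine le_trans (le_of_eq ?_) (h1.trans (mul_le_mul_of_nonneg_left h2 (by positivity)))
  refine sum_congr rfl fun d _ => ?_
  congr 1
  funext χ
  rw [cs_eq χ K K1 (c : ℂ) hK]

theorem key (x R : ℝ) (hx : 0 ≤ x) (hR : 0 ≤ R) : x + R ^ 2 ≤ (√x + R) ^ 2 := by
  have h1 := Real.sq_sqrt hx
  have h2 : 0 ≤ √x * R := mul_nonneg (Real.sqrt_nonneg x) hR
  nlinarith

end BL2M

open BL2M in
theorem specBL2 : SpecBL2 := by
  obtain ⟨C₀, hC₀, hL⟩ := Pool.Agent.Lib.BVS.specLSP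
  refine ⟨C₀, hC₀, ?_⟩
  intro A K W K1 M1 R hK1 hM1 hR hK hW
  have hA0 : (0 : ℝ) ≤ A.card := Nat.cast_nonneg _
  have hR0 : (0 : ℝ) ≤ R := Nat.cast_nonneg _
  have hK0 : (0 : ℝ) ≤ K1 := Nat.cast_nonneg _
  have hM0 : (0 : ℝ) ≤ M1 := Nat.cast_nonneg _
  have step1 : ∑ d ∈ Ioc R (2 * R), TQ A K W d ≤
      ∑ d ∈ Ioc R (2 * R),
        psum d (fun χ => ‖((A.card : ℝ) : ℂ) * cs K χ‖ * ‖((1 : ℝ) : ℂ) * cs W χ‖) := by
    refine sum_le_sum fun d _ => ?_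
    unfold TQ
    apply Pool.Agent.Lib.BVS.BILPM.psum_mono
    intro χ
    rw [norm_mul, norm_mul, Complex.norm_real, Complex.norm_real, Real.norm_eq_abs,
      Real.norm_eq_abs, abs_one, one_mul, abs_of_nonneg hA0]
    exact mul_le_mul_of_nonneg_right
      (mul_le_mul_of_nonneg_right (cs_le χ A) (norm_nonneg _)) (norm_nonneg _)
  refine step1.trans ?_
  refine (Pool.Agent.Lib.BVS.BILPM.cs (Ioc R (2 * R)) (fun d χ => ‖((A.card : ℝ) : ℂ) * cs K χ‖)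
    (fun d χ => ‖((1 : ℝ) : ℂ) * cs W χ‖)).trans ?_
  have hS1 := ls hC₀ hL K K1 R (A.card : ℝ) hK1 hR hK
  have hS2 := ls hC₀ hL W M1 R 1 hM1 hR hW
  refine (mul_le_mul (Real.sqrt_le_sqrt hS1) (Real.sqrt_le_sqrt hS2) (Real.sqrt_nonneg _)
      (Real.sqrt_nonneg _)).trans ?_
  rw [← Real.sqrt_mul (by positivity)]
  have h6 : C₀ * A.card * √((K1 : ℝ) * M1) * ((√(K1 : ℝ) + R) * (√(M1 : ℝ) + R)) =
      √((C₀ * A.card * ((√(K1 : ℝ) + R) * (√(M1 : ℝ) + R))) ^ 2 * ((K1 : ℝ) * M1)) := by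
    rw [Real.sqrt_mul (x := (C₀ * A.card * ((√(K1 : ℝ) + R) * (√(M1 : ℝ) + R))) ^ 2)
      (by positivity), Real.sqrt_sq (by positivity)]
    ring
  rw [h6]
  apply Real.sqrt_le_sqrt
  have h7 := mul_le_mul (key K1 R hK0 hR0) (key M1 R hM0 hR0) (by positivity) (by positivity)
  calc C₀ * ((K1 : ℝ) + (R : ℝ) ^ 2) * ((A.card : ℝ) ^ 2 * K1) *
        (C₀ * ((M1 : ℝ) + (R : ℝ) ^ 2) * (1 ^ 2 * M1))
      = (C₀ ^ 2 * (A.card : ℝ) ^ 2 * ((K1 : ℝ) * M1)) *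
        (((K1 : ℝ) + (R : ℝ) ^ 2) * ((M1 : ℝ) + (R : ℝ) ^ 2)) := by ring
    _ ≤ (C₀ ^ 2 * (A.card : ℝ) ^ 2 * ((K1 : ℝ) * M1)) *
        ((√(K1 : ℝ) + R) ^ 2 * (√(M1 : ℝ) + R) ^ 2) :=
        mul_le_mul_of_nonneg_left h7 (by positivity)
    _ = (C₀ * A.card * ((√(K1 : ℝ) + R) * (√(M1 : ℝ) + R))) ^ 2 * ((K1 : ℝ) * M1) := by ring

end Pool.Agent.Lib.MP_1446ad_nt.EX
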