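import Pool.Agent.Lib.MP_1446ad_nt.EX.Spec

/-!
# MP_1446ad_nt, part EX: module CHA (orthogonality)
-/

set_option autoImplicit false

namespace Pool.Agent.Lib.MP_1446ad_nt.EX

open Finset
open scoped Classical ComplexConjugate

namespace CHAM

theorem cs_mul (K W : Finset ℕ) {r : ℕ} (χ : DirichletCharacter ℂ r) :
    cs K χ * cs W χ = ∑ t ∈ K ×ˢ W, χ ((t.1 * t.2 : ℕ) : ZMod r) := by
  unfold cs
  rw [Finset.sum_mul_sum, ← Finset.sum_product']
  refine Finset.sum_congr rfl fun t _ => ?_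
  rw [Nat.cast_mul, map_mul]

theorem orth {r : ℕ} [NeZero r] {n : ℕ} (hn : n.Coprime r) (K W : Finset ℕ) :
    ∑ χ : DirichletCharacter ℂ r, χ ((n : ZMod r)⁻¹) * (cs K χ * cs W χ) =
      (r.totient : ℂ) * ((cnt K W n r : ℝ) : ℂ) := by
  have hu : IsUnit (n : ZMod r) := (ZMod.isUnit_iff_coprime n r).2 hn
  have h1 : ∀ χ : DirichletCharacter ℂ r, χ ((n : ZMod r)⁻¹) * (cs K χ * cs W χ) =
      ∑ t ∈ K ×ˢ W, χ ((n : ZMod r)⁻¹) * χ ((t.1 * t.2 : ℕ) : ZMod r) := by
    intro χ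
    rw [cs_mul, Finset.mul_sum]
  rw [Finset.sum_congr rfl fun χ _ => h1 χ, Finset.sum_comm]
  unfold cnt
  rw [Finset.card_filter]
  push_cast
  rw [Finset.mul_sum]
  refine Finset.sum_congr rfl fun t _ => ?_
  have h2 := DirichletCharacter.sum_char_inv_mul_char_eq ℂ hu ((t.1 * t.2 : ℕ) : ZMod r)
  push_cast at h2
  rw [h2]
  have hiff : ((n : ZMod r) = (t.1 : ZMod r) * (t.2 : ZMod r)) ↔ t.1 * t.2 ≡ n [MOD r] := by
    rw [← ZMod.natCast_eq_natCast_iff, Nat.cast_mul, eq_comm]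
  by_cases h : t.1 * t.2 ≡ n [MOD r]
  · rw [if_pos (hiff.2 h), if_pos h]
    simp
  · rw [if_neg fun h' => h (hiff.1 h'), if_neg h]
    simp

theorem one (K W : Finset ℕ) (r : ℕ) [NeZero r] :
    cs K (1 : DirichletCharacter ℂ r) * cs W (1 : DirichletCharacter ℂ r) =
      ((cop K W r : ℝ) : ℂ) := by
  rw [cs_mul]
  unfold cop
  rw [Finset.card_filter]
  push_cast
  refine Finset.sum_congr rfl fun t _ => ?_
  by_cases h : (t.1 * t.2).Coprime r
  · rw [if_pos h, ← Nat.cast_mul, MulChar.one_apply ((ZMod.isUnit_iff_coprime _ r).2 h)]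
    simp
  · rw [if_neg h, ← Nat.cast_mul,
      MulChar.map_nonunit _ (fun h' => h ((ZMod.isUnit_iff_coprime _ r).1 h'))]
    simp

theorem inv_conj {r : ℕ} [NeZero r] {n : ℕ} (hn : n.Coprime r) (χ : DirichletCharacter ℂ r) :
    χ ((n : ZMod r)⁻¹) = conj (χ (n : ZMod r)) := by
  have hu : IsUnit (n : ZMod r) := (ZMod.isUnit_iff_coprime n r).2 hn
  have h1 : ‖χ (n : ZMod r)‖ = 1 := by
    obtain ⟨u, hu'⟩ := hu
    rw [← hu']
    exact χ.unit_norm_eq_one u
  have h2 : χ ((n : ZMod r)⁻¹) * χ (n : ZMod r) = 1 := by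
    rw [← map_mul, ZMod.inv_mul_of_unit _ hu, map_one]
  rw [← Complex.inv_eq_conj h1]
  exact eq_inv_of_mul_eq_one_left h2

theorem conj_sum (A : Finset ℕ) {r : ℕ} [NeZero r] (χ : DirichletCharacter ℂ r) :
    ∑ n ∈ A.filter (fun n => n.Coprime r), χ ((n : ZMod r)⁻¹) = conj (cs A χ) := by
  unfold cs
  rw [map_sum, Finset.sum_filter]
  refine Finset.sum_congr rfl fun n _ => ?_
  by_cases h : n.Coprime r
  · rw [if_pos h, inv_conj h]
  · rw [if_neg h, MulChar.map_nonunit _ (fun h' => h ((ZMod.isUnit_iff_coprime _ r).1 h')),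
      map_zero]

theorem one_n {r : ℕ} [NeZero r] {n : ℕ} (hn : n.Coprime r) :
    (1 : DirichletCharacter ℂ r) ((n : ZMod r)⁻¹) = 1 := by
  have h := inv_conj hn (1 : DirichletCharacter ℂ r)
  rw [MulChar.one_apply ((ZMod.isUnit_iff_coprime n r).2 hn), map_one] at h
  exact h

/-- the error as a character sum -/
theorem main (A K W : Finset ℕ) (r : ℕ) [NeZero r] :
    (((r.totient : ℝ) * er A K W r : ℝ) : ℂ) =
      ∑ χ ∈ (univ : Finset (DirichletCharacter ℂ r)).filter (fun χ => χ ≠ 1),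
        conj (cs A χ) * (cs K χ * cs W χ) := by
  have hφ : (0 : ℝ) < r.totient := by
    exact_mod_cast Nat.totient_pos.2 (Nat.pos_of_ne_zero (NeZero.ne r))
  have hfe : (Finset.univ : Finset (DirichletCharacter ℂ r)).erase 1 =
      (univ : Finset (DirichletCharacter ℂ r)).filter (fun χ => χ ≠ 1) := by
    ext χ
    simp
  have h1 : (r.totient : ℝ) * er A K W r =
      ∑ n ∈ A.filter (fun n => n.Coprime r), ((r.totient : ℝ) * cnt K W n r - cop K W r) := by
    unfold er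
    rw [Finset.mul_sum]
    refine Finset.sum_congr rfl fun n _ => ?_
    field_simp
  rw [h1]
  push_cast
  have h2 : ∀ n ∈ A.filter (fun n => n.Coprime r),
      ((r.totient : ℂ) * ((cnt K W n r : ℝ) : ℂ) - ((cop K W r : ℝ) : ℂ)) =
      ∑ χ ∈ (univ : Finset (DirichletCharacter ℂ r)).filter (fun χ => χ ≠ 1),
        χ ((n : ZMod r)⁻¹) * (cs K χ * cs W χ) := by
    intro n hn
    have hn' := (Finset.mem_filter.1 hn).2
    rw [← orth hn' K W,
      ← Finset.add_sum_erase _ _ (Finset.mem_univ (1 : DirichletCharacter ℂ r)), one_n hn',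
      one_mul, one, hfe]
    ring
  rw [Finset.sum_congr rfl h2, Finset.sum_comm]
  refine Finset.sum_congr rfl fun χ _ => ?_
  rw [← Finset.sum_mul, conj_sum]

end CHAM

theorem specCHA : SpecCHA := by
  intro A K W r _
  have hφ : (0 : ℝ) < r.totient := by
    exact_mod_cast Nat.totient_pos.2 (Nat.pos_of_ne_zero (NeZero.ne r))
  rw [le_div_iff₀ hφ]
  have h1 : |er A K W r| * (r.totient : ℝ) =
      ‖((((r.totient : ℝ) * er A K W r : ℝ)) : ℂ)‖ := by
    rw [Complex.norm_real, Real.norm_eq_abs, abs_mul, abs_of_pos hφ, mul_comm]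
  rw [h1, CHAM.main]
  refine (norm_sum_le _ _).trans (Finset.sum_le_sum fun χ _ => le_of_eq ?_)
  rw [norm_mul, norm_mul, Complex.norm_conj, mul_assoc]

end Pool.Agent.Lib.MP_1446ad_nt.EX
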