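import Pool.Agent.Lib.MP_1446ad_nt.EX.Spec
import Pool.Agent.Lib.MP_391708_nt.QPA.BDHChar

/-!
# CHB: reduction to primitive characters
-/

set_option autoImplicit false

namespace Pool.Agent.Lib.MP_1446ad_nt.EX

open Finset Filter
open scoped Classical

namespace CHBM

open Pool.Agent.Lib.MP391708.QPA (BDH.exists_prim BDH.changeLevel_apply BDH.char_zero)

/-- the character sum of an induced character -/
theorem cs_changeLevel {n q : ℕ} (hn : n ∣ q) (ψ : DirichletCharacter ℂ n) (S : Finset ℕ) :
    cs S (DirichletCharacter.changeLevel hn ψ) = cs (cg (q / n) S) ψ := by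
  unfold cs cg
  rw [Finset.sum_filter]
  refine Finset.sum_congr rfl fun u _ => ?_
  by_cases h : u.Coprime q
  · have h1 : u.Coprime (q / n) := h.coprime_dvd_right (Nat.div_dvd_of_dvd hn)
    rw [if_pos h1, BDH.changeLevel_apply hn ψ h]
  · rw [BDH.char_zero _ h]
    split_ifs with h2
    · have h3 : ¬ u.Coprime n := fun h3 => h (by
        rw [← Nat.mul_div_cancel' hn]
        exact Nat.Coprime.mul_right h3 h2)
      rw [BDH.char_zero _ h3]
    · rfl

/-- the characters with the conductor `n` -/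
theorem fiber (A K W : Finset ℕ) {q n : ℕ} [NeZero q] (hn : n ∣ q) (hn1 : n ≠ 0) :
    ∑ χ ∈ ((univ : Finset (DirichletCharacter ℂ q)).filter (fun χ => χ ≠ 1)).filter
        (fun χ => χ.conductor = n), ‖cs A χ‖ * ‖cs K χ‖ * ‖cs W χ‖ ≤
      TQ (cg (q / n) A) (cg (q / n) K) (cg (q / n) W) n := by
  have : NeZero n := ⟨hn1⟩
  have hinj : Function.Injective (DirichletCharacter.changeLevel (R := ℂ) hn) :=
    DirichletCharacter.changeLevel_injective hn
  have hsub : ((univ : Finset (DirichletCharacter ℂ q)).filter (fun χ => χ ≠ 1)).filter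
      (fun χ => χ.conductor = n) ⊆
      ((univ : Finset (DirichletCharacter ℂ n)).filter (fun ψ => ψ.IsPrimitive)).image
        (fun ψ => DirichletCharacter.changeLevel hn ψ) := by
    intro χ hχ
    rw [Finset.mem_filter, Finset.mem_filter] at hχ
    obtain ⟨ψ, hψ, h⟩ := BDH.exists_prim χ n hχ.2 hn
    rw [Finset.mem_image]
    exact ⟨ψ, by simp [hψ], h⟩
  calc _ ≤ ∑ χ ∈ ((univ : Finset (DirichletCharacter ℂ n)).filter
        (fun ψ => ψ.IsPrimitive)).image (fun ψ => DirichletCharacter.changeLevel hn ψ),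
          ‖cs A χ‖ * ‖cs K χ‖ * ‖cs W χ‖ :=
        Finset.sum_le_sum_of_subset_of_nonneg hsub (fun _ _ _ => by positivity)
    _ = ∑ ψ ∈ (univ : Finset (DirichletCharacter ℂ n)).filter (fun ψ => ψ.IsPrimitive),
          ‖cs A (DirichletCharacter.changeLevel hn ψ)‖ *
            ‖cs K (DirichletCharacter.changeLevel hn ψ)‖ *
            ‖cs W (DirichletCharacter.changeLevel hn ψ)‖ := by
        rw [Finset.sum_image]
        intro a _ c _ h
        exact hinj h
    _ = TQ (cg (q / n) A) (cg (q / n) K) (cg (q / n) W) n := by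
        unfold TQ
        rw [Pool.Agent.Lib.BVS.psum_eq]
        apply Finset.sum_congr rfl
        intro ψ _
        rw [cs_changeLevel, cs_changeLevel, cs_changeLevel]

end CHBM

/-- CHB -/
theorem specCHB : SpecCHB := by
  intro A K W r _
  have hmaps : ∀ χ ∈ (univ : Finset (DirichletCharacter ℂ r)).filter (fun χ => χ ≠ 1),
      χ.conductor ∈ r.divisors.filter (fun d => d ≠ 1) := by
    intro χ hχ
    rw [Finset.mem_filter] at hχ
    rw [Finset.mem_filter, Nat.mem_divisors]
    exact ⟨⟨χ.conductor_dvd_level, NeZero.ne r⟩,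
      fun h => hχ.2 ((χ.eq_one_iff_conductor_eq_one).mpr h)⟩
  rw [← Finset.sum_fiberwise_of_maps_to hmaps]
  refine Finset.sum_le_sum fun d hd => ?_
  have h := Nat.mem_divisors.1 (Finset.mem_filter.1 hd).1
  refine CHBM.fiber A K W h.1 ?_
  rintro rfl
  exact h.2 (zero_dvd_iff.1 h.1)

end Pool.Agent.Lib.MP_1446ad_nt.EX
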