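import Pool.Agent.Lib.MP_1446ad_nt.EX.Spec

/-!
# MP_1446ad_nt, module CNT: the triples
-/

set_option autoImplicit false

namespace Pool.Agent.Lib.MP_1446ad_nt.EX

open Finset Filter
open scoped Classical

namespace CNTM

theorem cnt_eq (K W : Finset ℕ) (n r : ℕ) :
    cnt K W n r = ∑ k ∈ K, ∑ m ∈ W, (if k * m ≡ n [MOD r] then (1 : ℝ) else 0) := by
  unfold cnt
  rw [Finset.card_filter, Finset.sum_product]
  push_cast
  rfl

theorem tot_eq (A K V W : Finset ℕ) :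
    ∑ r ∈ W, ∑ n ∈ A.filter (fun n => n.Coprime r), cnt K V n r =
      ∑ r ∈ W, ∑ n ∈ A, ∑ k ∈ K, ∑ m ∈ V, (if n.Coprime r ∧ k * m ≡ n [MOD r] then (1 : ℝ) else 0) := by
  refine Finset.sum_congr rfl fun r _ => ?_
  rw [Finset.sum_filter]
  refine Finset.sum_congr rfl fun n _ => ?_
  by_cases h : n.Coprime r
  · rw [if_pos h, cnt_eq]
    refine Finset.sum_congr rfl fun k _ => Finset.sum_congr rfl fun m _ => ?_
    by_cases h2 : k * m ≡ n [MOD r]
    · rw [if_pos h2, if_pos ⟨h, h2⟩]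
    · rw [if_neg h2, if_neg (fun h3 => h2 h3.2)]
  · rw [if_neg h]
    symm
    refine Finset.sum_eq_zero fun k _ => Finset.sum_eq_zero fun m _ => ?_
    rw [if_neg (fun h3 => h h3.1)]

theorem totb_eq (A K V W : Finset ℕ) (bad : ℕ → Prop) :
    ∑ r ∈ W, ∑ n ∈ A.filter (fun n => n.Coprime r), cnt (K.filter bad) V n r =
      ∑ r ∈ W, ∑ n ∈ A, ∑ k ∈ K, ∑ m ∈ V,
        (if bad k ∧ n.Coprime r ∧ k * m ≡ n [MOD r] then (1 : ℝ) else 0) := by
  rw [tot_eq]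
  refine Finset.sum_congr rfl fun r _ => Finset.sum_congr rfl fun n _ => ?_
  rw [Finset.sum_filter]
  refine Finset.sum_congr rfl fun k _ => ?_
  by_cases h : bad k
  · rw [if_pos h]
    refine Finset.sum_congr rfl fun m _ => ?_
    by_cases h2 : n.Coprime r ∧ k * m ≡ n [MOD r]
    · rw [if_pos h2, if_pos ⟨h, h2⟩]
    · rw [if_neg h2, if_neg (fun h3 => h2 h3.2)]
  · rw [if_neg h]
    symm
    refine Finset.sum_eq_zero fun m _ => ?_
    rw [if_neg (fun h3 => h h3.1)]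

theorem dvd_of_modEq (k m n r : ℕ) (h : k * m < n) (h2 : k * m ≡ n [MOD r]) : r ∣ n - k * m :=
  (Nat.modEq_iff_dvd' h.le).1 h2

theorem inj (K Ss : Finset ℕ) (bad : ℕ → Prop) (n m r : ℕ) (hm : 0 < m)
    (hlt : ∀ k ∈ K, k * m < n) (hS : ∀ k ∈ K, r ∣ n - k * m → (n - k * m) / r ∈ Ss) :
    ∑ k ∈ K, (if n.Coprime m ∧ r ∣ n - k * m ∧ bad ((n - k * m) / r) then (1 : ℝ) else 0) ≤
      ∑ s ∈ Ss, (if bad s ∧ n.Coprime m ∧ s * r ≡ n [MOD m] then (1 : ℝ) else 0) := by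
  rw [← Finset.sum_filter, ← Finset.sum_filter, Finset.sum_const, Finset.sum_const, nsmul_eq_mul, nsmul_eq_mul,
    mul_one, mul_one]
  norm_cast
  refine Finset.card_le_card_of_injOn (fun k => (n - k * m) / r) ?_ ?_
  · intro k hk
    have hk' := Finset.mem_filter.1 (Finset.mem_coe.1 hk)
    obtain ⟨hkK, hco, hd, hb⟩ := hk'
    refine Finset.mem_coe.2 (Finset.mem_filter.2 ⟨hS k hkK hd, hb, hco, ?_⟩)
    have h1 : (n - k * m) / r * r = n - k * m := Nat.div_mul_cancel hd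
    show (n - k * m) / r * r ≡ n [MOD m]
    rw [h1]
    have h2 := hlt k hkK
    refine (Nat.modEq_iff_dvd' (Nat.sub_le _ _)).2 ?_
    rw [Nat.sub_sub_self h2.le]
    exact dvd_mul_left m k
  · intro k hk k' hk' hkk
    have a := Finset.mem_filter.1 (Finset.mem_coe.1 hk)
    have b := Finset.mem_filter.1 (Finset.mem_coe.1 hk')
    have h1 : (n - k * m) / r * r = n - k * m := Nat.div_mul_cancel a.2.2.1
    have h2 : (n - k' * m) / r * r = n - k' * m := Nat.div_mul_cancel b.2.2.1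
    have h3 : (n - k * m) / r = (n - k' * m) / r := hkk
    rw [h3, h2] at h1
    have l1 := hlt k a.1
    have l2 := hlt k' b.1
    have h4 : k * m = k' * m := by omega
    exact Nat.eq_of_mul_eq_mul_right hm h4

theorem third (A K W : Finset ℕ) (Q T : ℝ) (hT : 0 ≤ T)
    (hQ : ∀ n ∈ A, ((W.filter (fun m => ¬ n.Coprime m)).card : ℝ) ≤ Q)
    (hTT : ∀ n ∈ A, ∀ k ∈ K, ∀ m ∈ W, ((W.filter (fun r => r ∣ n - k * m)).card : ℝ) ≤ T) :
    ∑ n ∈ A, ∑ m ∈ W, ∑ k ∈ K, ∑ r ∈ W, (if ¬ n.Coprime m ∧ r ∣ n - k * m then (1 : ℝ) else 0) ≤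
      A.card * K.card * Q * T := by
  have h1 : ∀ n ∈ A, ∑ m ∈ W, ∑ k ∈ K, ∑ r ∈ W,
      (if ¬ n.Coprime m ∧ r ∣ n - k * m then (1 : ℝ) else 0) ≤ Q * (K.card * T) := by
    intro n hn
    have h2 : ∀ m ∈ W, ∑ k ∈ K, ∑ r ∈ W, (if ¬ n.Coprime m ∧ r ∣ n - k * m then (1 : ℝ) else 0) ≤
        (if ¬ n.Coprime m then (1 : ℝ) else 0) * (K.card * T) := by
      intro m hm
      by_cases h : n.Coprime m
      · rw [if_neg (not_not.2 h), zero_mul]
        refine le_of_eq (Finset.sum_eq_zero fun k _ => Finset.sum_eq_zero fun r _ => ?_)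
        rw [if_neg (fun h3 => h3.1 h)]
      · rw [if_pos h, one_mul]
        have h3 : ∀ k ∈ K, ∑ r ∈ W, (if ¬ n.Coprime m ∧ r ∣ n - k * m then (1 : ℝ) else 0) ≤ T := by
          intro k hk
          refine le_trans (le_of_eq ?_) (hTT n hn k hk m hm)
          rw [Finset.card_filter]
          push_cast
          refine Finset.sum_congr rfl fun r _ => ?_
          by_cases h4 : r ∣ n - k * m
          · rw [if_pos h4, if_pos ⟨h, h4⟩]
          · rw [if_neg h4, if_neg (fun h5 => h4 h5.2)]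
        calc ∑ k ∈ K, ∑ r ∈ W, (if ¬ n.Coprime m ∧ r ∣ n - k * m then (1 : ℝ) else 0)
            ≤ ∑ _k ∈ K, T := Finset.sum_le_sum h3
          _ = K.card * T := by rw [Finset.sum_const, nsmul_eq_mul]
    calc ∑ m ∈ W, ∑ k ∈ K, ∑ r ∈ W, (if ¬ n.Coprime m ∧ r ∣ n - k * m then (1 : ℝ) else 0)
        ≤ ∑ m ∈ W, (if ¬ n.Coprime m then (1 : ℝ) else 0) * (K.card * T) := Finset.sum_le_sum h2
      _ = ((W.filter (fun m => ¬ n.Coprime m)).card : ℝ) * (K.card * T) := by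
          rw [← Finset.sum_mul, Finset.card_filter]
          push_cast
          rfl
      _ ≤ Q * (K.card * T) := mul_le_mul_of_nonneg_right (hQ n hn) (by positivity)
  calc ∑ n ∈ A, ∑ m ∈ W, ∑ k ∈ K, ∑ r ∈ W, (if ¬ n.Coprime m ∧ r ∣ n - k * m then (1 : ℝ) else 0)
      ≤ ∑ _n ∈ A, Q * (K.card * T) := Finset.sum_le_sum h1
    _ = A.card * K.card * Q * T := by
        rw [Finset.sum_const, nsmul_eq_mul]
        ring

end CNTM

open CNTM in
theorem specCNT : SpecCNT := by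
  intro A K Ss W bad Q T hQ0 hT0 hW hlt hSs hbad hQ hT
  rw [tot_eq, totb_eq, totb_eq]
  -- the pointwise inequality
  have hpt : ∀ r ∈ W, ∀ n ∈ A, ∀ k ∈ K, ∀ m ∈ W,
      (if n.Coprime r ∧ k * m ≡ n [MOD r] then (1 : ℝ) else 0) ≤
        (if bad k ∧ n.Coprime r ∧ k * m ≡ n [MOD r] then (1 : ℝ) else 0) +
        (if n.Coprime m ∧ r ∣ n - k * m ∧ bad ((n - k * m) / r) then (1 : ℝ) else 0) +
        (if ¬ n.Coprime m ∧ r ∣ n - k * m then (1 : ℝ) else 0) := by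
    intro r hr n hn k hk m hm
    have p1 : (0 : ℝ) ≤ (if bad k ∧ n.Coprime r ∧ k * m ≡ n [MOD r] then (1 : ℝ) else 0) := by
      split_ifs <;> norm_num
    have p2 : (0 : ℝ) ≤ (if n.Coprime m ∧ r ∣ n - k * m ∧ bad ((n - k * m) / r) then (1 : ℝ) else 0) := by
      split_ifs <;> norm_num
    have p3 : (0 : ℝ) ≤ (if ¬ n.Coprime m ∧ r ∣ n - k * m then (1 : ℝ) else 0) := by
      split_ifs <;> norm_num
    by_cases h : n.Coprime r ∧ k * m ≡ n [MOD r]
    · rw [if_pos h]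
      have hd := dvd_of_modEq k m n r (hlt n hn k hk m hm) h.2
      by_cases hc : n.Coprime m
      · have hs := hSs n hn k hk m hm r hr hd
        have heq : k * m + r * ((n - k * m) / r) = n := by
          rw [Nat.mul_div_cancel' hd]
          have := hlt n hn k hk m hm
          omega
        rcases hbad n hn k hk _ hs m hm r hr heq with hb | hb
        · have e : (if bad k ∧ n.Coprime r ∧ k * m ≡ n [MOD r] then (1 : ℝ) else 0) = 1 := if_pos ⟨hb, h⟩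
          linarith
        · have e : (if n.Coprime m ∧ r ∣ n - k * m ∧ bad ((n - k * m) / r) then (1 : ℝ) else 0) = 1 :=
            if_pos ⟨hc, hd, hb⟩
          linarith
      · have e : (if ¬ n.Coprime m ∧ r ∣ n - k * m then (1 : ℝ) else 0) = 1 := if_pos ⟨hc, hd⟩
        linarith
    · rw [if_neg h]
      linarith
  have hsum : ∑ r ∈ W, ∑ n ∈ A, ∑ k ∈ K, ∑ m ∈ W, (if n.Coprime r ∧ k * m ≡ n [MOD r] then (1 : ℝ) else 0) ≤
      ∑ r ∈ W, ∑ n ∈ A, ∑ k ∈ K, ∑ m ∈ W, (if bad k ∧ n.Coprime r ∧ k * m ≡ n [MOD r] then (1 : ℝ) else 0) +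
      ∑ r ∈ W, ∑ n ∈ A, ∑ k ∈ K, ∑ m ∈ W,
        (if n.Coprime m ∧ r ∣ n - k * m ∧ bad ((n - k * m) / r) then (1 : ℝ) else 0) +
      ∑ r ∈ W, ∑ n ∈ A, ∑ k ∈ K, ∑ m ∈ W, (if ¬ n.Coprime m ∧ r ∣ n - k * m then (1 : ℝ) else 0) := by
    rw [← Finset.sum_add_distrib, ← Finset.sum_add_distrib]
    refine Finset.sum_le_sum fun r hr => ?_
    rw [← Finset.sum_add_distrib, ← Finset.sum_add_distrib]
    refine Finset.sum_le_sum fun n hn => ?_
    rw [← Finset.sum_add_distrib, ← Finset.sum_add_distrib]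
    refine Finset.sum_le_sum fun k hk => ?_
    rw [← Finset.sum_add_distrib, ← Finset.sum_add_distrib]
    exact Finset.sum_le_sum fun m hm => hpt r hr n hn k hk m hm
  -- the second sum
  have h2 : ∑ r ∈ W, ∑ n ∈ A, ∑ k ∈ K, ∑ m ∈ W,
        (if n.Coprime m ∧ r ∣ n - k * m ∧ bad ((n - k * m) / r) then (1 : ℝ) else 0) ≤
      ∑ m ∈ W, ∑ n ∈ A, ∑ s ∈ Ss, ∑ r ∈ W, (if bad s ∧ n.Coprime m ∧ s * r ≡ n [MOD m] then (1 : ℝ) else 0) := by
    have e1 : ∑ r ∈ W, ∑ n ∈ A, ∑ k ∈ K, ∑ m ∈ W,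
        (if n.Coprime m ∧ r ∣ n - k * m ∧ bad ((n - k * m) / r) then (1 : ℝ) else 0) =
        ∑ m ∈ W, ∑ n ∈ A, ∑ r ∈ W, ∑ k ∈ K,
        (if n.Coprime m ∧ r ∣ n - k * m ∧ bad ((n - k * m) / r) then (1 : ℝ) else 0) := by
      rw [Finset.sum_comm]
      rw [Finset.sum_comm (s := W) (t := A)]
      refine Finset.sum_congr rfl fun n _ => ?_
      rw [Finset.sum_comm (s := W) (t := W)]
      refine Finset.sum_congr rfl fun r _ => ?_
      rw [Finset.sum_comm]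
    have e2 : ∑ m ∈ W, ∑ n ∈ A, ∑ s ∈ Ss, ∑ r ∈ W,
        (if bad s ∧ n.Coprime m ∧ s * r ≡ n [MOD m] then (1 : ℝ) else 0) =
        ∑ m ∈ W, ∑ n ∈ A, ∑ r ∈ W, ∑ s ∈ Ss,
        (if bad s ∧ n.Coprime m ∧ s * r ≡ n [MOD m] then (1 : ℝ) else 0) := by
      refine Finset.sum_congr rfl fun m _ => Finset.sum_congr rfl fun n _ => ?_
      rw [Finset.sum_comm]
    rw [e1, e2]
    refine Finset.sum_le_sum fun m hm => Finset.sum_le_sum fun n hn => Finset.sum_le_sum fun r hr => ?_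
    exact inj K Ss bad n m r (hW m hm) (fun k hk => hlt n hn k hk m hm)
      (fun k hk hd => hSs n hn k hk m hm r hr hd)
  -- the third sum
  have h3 : ∑ r ∈ W, ∑ n ∈ A, ∑ k ∈ K, ∑ m ∈ W, (if ¬ n.Coprime m ∧ r ∣ n - k * m then (1 : ℝ) else 0) ≤
      A.card * K.card * Q * T := by
    refine le_trans (le_of_eq ?_) (third A K W Q T hT0 hQ hT)
    rw [Finset.sum_comm]
    refine Finset.sum_congr rfl fun n _ => ?_
    have e3 : ∀ r ∈ W, ∑ k ∈ K, ∑ m ∈ W, (if ¬ n.Coprime m ∧ r ∣ n - k * m then (1 : ℝ) else 0) =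
        ∑ m ∈ W, ∑ k ∈ K, (if ¬ n.Coprime m ∧ r ∣ n - k * m then (1 : ℝ) else 0) := fun r _ =>
      Finset.sum_comm
    rw [Finset.sum_congr rfl e3, Finset.sum_comm]
    refine Finset.sum_congr rfl fun m _ => ?_
    rw [Finset.sum_comm]
  linarith

end Pool.Agent.Lib.MP_1446ad_nt.EX
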