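import Pool.Agent.Lib.MP_1446ad_nt.EX.Spec
import Pool.Agent.Lib.BVS.TOT

/-!
# DYD: the dyadic decomposition
-/

set_option autoImplicit false

namespace Pool.Agent.Lib.MP_1446ad_nt.EX

open Finset Filter

namespace DYDM

theorem main (F : ℕ → ℝ) (Z D : ℕ) (α β γ : ℝ) (hF : ∀ d, 0 ≤ F d) (hZ : 1 ≤ Z)
    (hα : 0 ≤ α) (hβ : 0 ≤ β) (hγ : 0 ≤ γ)
    (h : ∀ R : ℕ, Z ≤ R → R ≤ D → ∑ d ∈ Ioc R (2 * R), F d ≤ α + β * R + γ * (R : ℝ) ^ 2)
    (m : ℕ) : ∀ D1 : ℕ, Z ≤ D1 → D1 ≤ 2 ^ m * Z → D1 ≤ D →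
      ∑ d ∈ Ioc Z D1, F d / (d.totient : ℝ) ≤
        m * (2 * (1 + Real.log D) * (α / Z + β + γ * D)) := by
  have hZ' : (0 : ℝ) < Z := by exact_mod_cast hZ
  induction m with
  | zero =>
    intro D1 h1 h2 h3
    have : D1 = Z := by
      rw [pow_zero, one_mul] at h2
      omega
    subst this
    simp
  | succ m ih =>
    intro D1 h1 h2 h3
    have hD1 : (1 : ℝ) ≤ D := by
      have : 1 ≤ D := hZ.trans (h1.trans h3)
      exact_mod_cast this
    have hL : 0 ≤ Real.log D := Real.log_nonneg hD1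
    set X : ℝ := 2 * (1 + Real.log D) * (α / Z + β + γ * D) with hX
    have hX0 : 0 ≤ X := by
      rw [hX]
      have : 0 ≤ α / Z := div_nonneg hα hZ'.le
      have : 0 ≤ γ * (D : ℝ) := mul_nonneg hγ (by linarith)
      positivity
    by_cases hc : D1 ≤ 2 ^ m * Z
    · have := ih D1 h1 hc h3
      push_cast
      linarith
    · push Not at hc
      have p1 : 1 ≤ 2 ^ m := Nat.one_le_two_pow
      have hR : Z ≤ 2 ^ m * Z := Nat.le_mul_of_pos_left Z p1
      have hRD : 2 ^ m * Z ≤ D := hc.le.trans h3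
      have e := ih (2 ^ m * Z) hR (le_refl _) hRD
      have hsplit : ∑ d ∈ Ioc Z D1, F d / (d.totient : ℝ) =
          ∑ d ∈ Ioc Z (2 ^ m * Z), F d / (d.totient : ℝ) +
          ∑ d ∈ Ioc (2 ^ m * Z) D1, F d / (d.totient : ℝ) :=
        (Finset.sum_Ioc_consecutive _ hR hc.le).symm
      have hR0 : (0 : ℝ) < ((2 ^ m * Z : ℕ) : ℝ) := by
        have : 0 < 2 ^ m * Z := lt_of_lt_of_le hZ hR
        exact_mod_cast this
      have hb : ∑ d ∈ Ioc (2 ^ m * Z) D1, F d / (d.totient : ℝ) ≤ X := by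
        have step : ∀ d ∈ Ioc (2 ^ m * Z) D1, F d / (d.totient : ℝ) ≤
            F d * (2 * (1 + Real.log D) / ((2 ^ m * Z : ℕ) : ℝ)) := by
          intro d hd
          rw [Finset.mem_Ioc] at hd
          have d1 : 1 ≤ d := by
            have := hd.1
            omega
          have hd0 : (0 : ℝ) < d := by exact_mod_cast d1
          have t1 := Pool.Agent.Lib.BVS.TOTM.one d d1
          have t2 : Real.log d ≤ Real.log D :=
            Real.log_le_log hd0 (by exact_mod_cast hd.2.trans h3)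
          have t3 : ((2 ^ m * Z : ℕ) : ℝ) ≤ d := by exact_mod_cast hd.1.le
          have t4 : 2 * (1 + Real.log d) / d ≤
              2 * (1 + Real.log D) / ((2 ^ m * Z : ℕ) : ℝ) := by
            refine div_le_div₀ (by positivity) (by linarith) hR0 t3
          rw [div_eq_mul_one_div]
          exact mul_le_mul_of_nonneg_left (t1.trans t4) (hF d)
        have hsub : ∑ d ∈ Ioc (2 ^ m * Z) D1, F d ≤ ∑ d ∈ Ioc (2 ^ m * Z) (2 * (2 ^ m * Z)), F d := by
          refine Finset.sum_le_sum_of_subset_of_nonneg ?_ (fun d _ _ => hF d)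
          refine Finset.Ioc_subset_Ioc_right ?_
          rw [pow_succ] at h2
          linarith
        have hblock := h (2 ^ m * Z) hR hRD
        have hc0 : 0 ≤ 2 * (1 + Real.log D) / ((2 ^ m * Z : ℕ) : ℝ) := by positivity
        calc ∑ d ∈ Ioc (2 ^ m * Z) D1, F d / (d.totient : ℝ)
            ≤ ∑ d ∈ Ioc (2 ^ m * Z) D1, F d * (2 * (1 + Real.log D) / ((2 ^ m * Z : ℕ) : ℝ)) :=
              Finset.sum_le_sum step
          _ = (∑ d ∈ Ioc (2 ^ m * Z) D1, F d) *
              (2 * (1 + Real.log D) / ((2 ^ m * Z : ℕ) : ℝ)) := by rw [Finset.sum_mul]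
          _ ≤ (α + β * ((2 ^ m * Z : ℕ) : ℝ) + γ * ((2 ^ m * Z : ℕ) : ℝ) ^ 2) *
              (2 * (1 + Real.log D) / ((2 ^ m * Z : ℕ) : ℝ)) :=
              mul_le_mul_of_nonneg_right (hsub.trans hblock) hc0
          _ = 2 * (1 + Real.log D) *
              (α / ((2 ^ m * Z : ℕ) : ℝ) + β + γ * ((2 ^ m * Z : ℕ) : ℝ)) := by
              field_simp
          _ ≤ X := by
              rw [hX]
              refine mul_le_mul_of_nonneg_left ?_ (by positivity)
              have a1 : α / ((2 ^ m * Z : ℕ) : ℝ) ≤ α / Z :=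
                div_le_div_of_nonneg_left hα hZ' (by exact_mod_cast hR)
              have a2 : γ * ((2 ^ m * Z : ℕ) : ℝ) ≤ γ * D :=
                mul_le_mul_of_nonneg_left (by exact_mod_cast hRD) hγ
              linarith
      rw [hsplit]
      push_cast
      linarith

theorem blocks (D : ℕ) (hD : 1 ≤ D) : ((Nat.log 2 D + 1 : ℕ) : ℝ) ≤ 2 * (1 + Real.log D) := by
  have h1 : 2 ^ Nat.log 2 D ≤ D := Nat.pow_log_le_self 2 (by omega)
  have h2 : ((2 : ℝ) ^ Nat.log 2 D) ≤ D := by exact_mod_cast h1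
  have h3 : (Nat.log 2 D : ℝ) * Real.log 2 ≤ Real.log D := by
    rw [← Real.log_pow]
    exact Real.log_le_log (by positivity) h2
  have h4 : (1 : ℝ) / 2 ≤ Real.log 2 := by
    have := Real.log_two_gt_d9
    linarith
  have h5 : (0 : ℝ) ≤ (Nat.log 2 D : ℝ) := by positivity
  push_cast
  nlinarith

end DYDM

open DYDM in
theorem specDYD : SpecDYD := by
  intro F Z D α β γ hF hZ hZD hα hβ hγ h
  have hD : 1 ≤ D := hZ.trans hZD
  have hD1 : (1 : ℝ) ≤ D := by exact_mod_cast hD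
  have hL : 0 ≤ Real.log D := Real.log_nonneg hD1
  have hZ' : (0 : ℝ) < Z := by exact_mod_cast hZ
  have h1 : D ≤ 2 ^ (Nat.log 2 D + 1) * Z := by
    have h2 : D < 2 ^ (Nat.log 2 D + 1) := Nat.lt_pow_succ_log_self (b := 2) (by norm_num) D
    exact h2.le.trans (Nat.le_mul_of_pos_right _ hZ)
  have e := main F Z D α β γ hF hZ hα hβ hγ h (Nat.log 2 D + 1) D hZD h1 (le_refl _)
  have b := blocks D hD
  have hY : 0 ≤ α / Z + β + γ * D := by
    have : 0 ≤ α / Z := div_nonneg hα hZ'.le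
    have : 0 ≤ γ * (D : ℝ) := mul_nonneg hγ (by linarith)
    linarith
  have hX : 0 ≤ 2 * (1 + Real.log D) * (α / Z + β + γ * D) := by positivity
  calc ∑ d ∈ Ioc Z D, F d / (d.totient : ℝ)
      ≤ ((Nat.log 2 D + 1 : ℕ) : ℝ) * (2 * (1 + Real.log D) * (α / Z + β + γ * D)) := e
    _ ≤ (2 * (1 + Real.log D)) * (2 * (1 + Real.log D) * (α / Z + β + γ * D)) :=
        mul_le_mul_of_nonneg_right b hX
    _ = 4 * ((1 + Real.log D) ^ 2 * (α / Z + β + γ * D)) := by ring
    _ ≤ 8 * ((1 + Real.log D) ^ 2 * (α / Z + β + γ * D)) := by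
        have : 0 ≤ (1 + Real.log D) ^ 2 * (α / Z + β + γ * D) := by positivity
        linarith
    _ = _ := by ring

end Pool.Agent.Lib.MP_1446ad_nt.EX
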