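import Pool.Agent.Lib.MP_1446ad_nt.EX.Spec

set_option autoImplicit false

namespace Pool.Agent.Lib.MP_1446ad_nt.EX

open Finset
open scoped Classical

namespace ENDM

theorem split (A K W : Finset ℕ) :
    ∑ r ∈ W, ∑ n ∈ A.filter (fun n => n.Coprime r), cnt K W n r =
      ER A K W +
        ∑ r ∈ W, ∑ n ∈ A.filter (fun n => n.Coprime r), cop K W r / (r.totient : ℝ) := by
  unfold ER er
  rw [← Finset.sum_add_distrib]
  refine Finset.sum_congr rfl fun r _ => ?_
  rw [← Finset.sum_add_distrib]
  refine Finset.sum_congr rfl fun n _ => ?_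
  ring

theorem cop_le (K W : Finset ℕ) (r : ℕ) : cop K W r ≤ (K.card : ℝ) * W.card := by
  unfold cop
  have h := Finset.card_filter_le (K ×ˢ W) (fun t : ℕ × ℕ => (t.1 * t.2).Coprime r)
  rw [Finset.card_product] at h
  exact_mod_cast h

theorem cop_ge (K W : Finset ℕ) (r : ℕ) (q1 Q : ℝ)
    (h1 : ((K.filter (fun k => ¬ k.Coprime r)).card : ℝ) ≤ q1)
    (h2 : ((W.filter (fun m => ¬ m.Coprime r)).card : ℝ) ≤ Q) :
    (K.card : ℝ) * W.card - q1 * W.card - Q * K.card ≤ cop K W r := by
  have hsub : K ×ˢ W ⊆ (K ×ˢ W).filter (fun t : ℕ × ℕ => (t.1 * t.2).Coprime r) ∪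
      ((K.filter (fun k => ¬ k.Coprime r)) ×ˢ W ∪
        K ×ˢ (W.filter (fun m => ¬ m.Coprime r))) := by
    intro t ht
    rw [mem_product] at ht
    by_cases a : t.1.Coprime r
    · by_cases b : t.2.Coprime r
      · apply mem_union_left
        rw [mem_filter, mem_product]
        exact ⟨ht, Nat.Coprime.mul_left a b⟩
      · apply mem_union_right
        apply mem_union_right
        rw [mem_product, mem_filter]
        exact ⟨ht.1, ht.2, b⟩
    · apply mem_union_right
      apply mem_union_left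
      rw [mem_product, mem_filter]
      exact ⟨⟨ht.1, a⟩, ht.2⟩
  have hc := card_le_card hsub
  have hc2 := hc.trans ((card_union_le _ _).trans (Nat.add_le_add_left (card_union_le _ _) _))
  rw [card_product, card_product, card_product] at hc2
  have hc3 : (K.card : ℝ) * W.card ≤ cop K W r +
      (((K.filter (fun k => ¬ k.Coprime r)).card : ℝ) * W.card +
        K.card * ((W.filter (fun m => ¬ m.Coprime r)).card : ℝ)) := by
    unfold cop
    exact_mod_cast hc2
  have e1 : ((K.filter (fun k => ¬ k.Coprime r)).card : ℝ) * W.card ≤ q1 * W.card :=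
    mul_le_mul_of_nonneg_right h1 (Nat.cast_nonneg _)
  have e2 : (K.card : ℝ) * ((W.filter (fun m => ¬ m.Coprime r)).card : ℝ) ≤ K.card * Q :=
    mul_le_mul_of_nonneg_left h2 (Nat.cast_nonneg _)
  linarith

/-- the number of the coprime pairs -/
theorem pairs (A W : Finset ℕ) (Q : ℝ)
    (h : ∀ n ∈ A, ((W.filter (fun m => ¬ n.Coprime m)).card : ℝ) ≤ Q) :
    (A.card : ℝ) * ((W.card : ℝ) - Q) ≤
      ∑ r ∈ W, ∑ _n ∈ A.filter (fun n => n.Coprime r), (1 : ℝ) := by
  have e1 : ∑ r ∈ W, ∑ _n ∈ A.filter (fun n => n.Coprime r), (1 : ℝ) =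
      ∑ n ∈ A, ((W.filter (fun m => n.Coprime m)).card : ℝ) := by
    simp_rw [Finset.sum_filter]
    rw [Finset.sum_comm]
    refine Finset.sum_congr rfl fun n _ => ?_
    rw [← Finset.sum_filter, Finset.sum_const, nsmul_eq_mul, mul_one]
  rw [e1, ← nsmul_eq_mul, ← Finset.sum_const]
  refine Finset.sum_le_sum fun n hn => ?_
  have h1 := h n hn
  have h2 : (W.filter (fun m => n.Coprime m)).card + (W.filter (fun m => ¬ n.Coprime m)).card =
      W.card := Finset.card_filter_add_card_filter_not _
  have h3 : ((W.filter (fun m => n.Coprime m)).card : ℝ) +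
      ((W.filter (fun m => ¬ n.Coprime m)).card : ℝ) = W.card := by exact_mod_cast h2
  linarith

end ENDM

open ENDM in
theorem specEND (hCNT : SpecCNT) : SpecEND := by
  intro A K Ss W bad Q T q1 E X H hQ hT hX hH hW hkm hS hbad hnm hr hq1 hWr hE1 hE2 hE3 hHle
  have h1 := hCNT A K Ss W bad Q T hQ hT (fun r hr => (hW r hr).1) hkm hS hbad hnm hr
  rw [split, split, split] at h1
  have a1 := (abs_le.1 hE1).1
  have a2 := (abs_le.1 hE2).2
  have a3 := (abs_le.1 hE3).2
  -- the main inequality
  have h2 : ∑ r ∈ W, ∑ _n ∈ A.filter (fun n => n.Coprime r),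
      (cop K W r - cop (K.filter bad) W r - cop (Ss.filter bad) W r) / (r.totient : ℝ) ≤
      3 * E + A.card * K.card * Q * T := by
    have e : ∑ r ∈ W, ∑ _n ∈ A.filter (fun n => n.Coprime r),
        (cop K W r - cop (K.filter bad) W r - cop (Ss.filter bad) W r) / (r.totient : ℝ) =
        ∑ r ∈ W, ∑ _n ∈ A.filter (fun n => n.Coprime r), cop K W r / (r.totient : ℝ) -
        ∑ r ∈ W, ∑ _n ∈ A.filter (fun n => n.Coprime r),
          cop (K.filter bad) W r / (r.totient : ℝ) -
        ∑ r ∈ W, ∑ _n ∈ A.filter (fun n => n.Coprime r),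
          cop (Ss.filter bad) W r / (r.totient : ℝ) := by
      rw [← Finset.sum_sub_distrib, ← Finset.sum_sub_distrib]
      refine Finset.sum_congr rfl fun r _ => ?_
      rw [← Finset.sum_sub_distrib, ← Finset.sum_sub_distrib]
      refine Finset.sum_congr rfl fun n _ => ?_
      ring
    rw [e]
    linarith
  -- the lower bound of each term
  have h3 : ∀ r ∈ W, H / X ≤
      (cop K W r - cop (K.filter bad) W r - cop (Ss.filter bad) W r) / (r.totient : ℝ) := by
    intro r hr'
    have b1 := cop_ge K W r q1 Q (hq1 r hr') (hWr r hr')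
    have b2 := cop_le (K.filter bad) W r
    have b3 := cop_le (Ss.filter bad) W r
    have b4 : H ≤ cop K W r - cop (K.filter bad) W r - cop (Ss.filter bad) W r := by
      refine hHle.trans ?_
      linarith
    have b5 : (0 : ℝ) < (r.totient : ℝ) := by exact_mod_cast Nat.totient_pos.2 (hW r hr').1
    have b6 : (r.totient : ℝ) ≤ X := by
      refine le_trans ?_ (hW r hr').2
      exact_mod_cast Nat.totient_le r
    exact div_le_div₀ (hH.trans b4) b4 b5 b6
  have h4 : (A.card : ℝ) * ((W.card : ℝ) - Q) * (H / X) ≤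
      3 * E + A.card * K.card * Q * T := by
    refine le_trans ?_ h2
    refine le_trans (mul_le_mul_of_nonneg_right (pairs A W Q hnm) (div_nonneg hH hX.le)) ?_
    rw [Finset.sum_mul]
    refine Finset.sum_le_sum fun r hr' => ?_
    rw [Finset.sum_mul]
    refine Finset.sum_le_sum fun n _ => ?_
    rw [one_mul]
    exact h3 r hr'
  have h5 := mul_le_mul_of_nonneg_left h4 hX.le
  have e5 : X * ((A.card : ℝ) * ((W.card : ℝ) - Q) * (H / X)) =
      (A.card : ℝ) * ((W.card : ℝ) - Q) * H := by
    field_simp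
  rwa [e5] at h5

end Pool.Agent.Lib.MP_1446ad_nt.EX
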