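import Pool.Agent.Lib.MP_1446ad_nt.EX.Spec
import Pool.Agent.Lib.BVS.TOT

/-!
# ERR: the total error
-/

set_option autoImplicit false

namespace Pool.Agent.Lib.MP_1446ad_nt.EX

open Finset Filter
open scoped Classical
open Pool.Agent.Lib.MP_1446ad_nt.SM (tau)

namespace ERRM

theorem TQ_nonneg (A K W : Finset ℕ) (d : ℕ) : 0 ≤ TQ A K W d := by
  unfold TQ Pool.Agent.Lib.BVS.psum
  split_ifs with h
  · exact le_refl _
  · exact Finset.sum_nonneg fun _ _ => by positivity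

theorem cg_card (g : ℕ) (S : Finset ℕ) : ((cg g S).card : ℝ) ≤ S.card := by
  exact_mod_cast Finset.card_filter_le _ _

theorem cg_sub {g : ℕ} {S : Finset ℕ} {P : ℕ → Prop} (h : ∀ u ∈ S, P u) : ∀ u ∈ cg g S, P u :=
  fun u hu => h u (Finset.mem_filter.1 hu).1

end ERRM

open ERRM in
/-- ERR -/
theorem specERR (hRED : SpecRED) (hBL1 : SpecBL1) (hBL2 : SpecBL2) (hDYD : SpecDYD) : SpecERR := by
  obtain ⟨C1, hC1, h1⟩ := hBL1
  obtain ⟨C2, hC2, h2⟩ := hBL2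
  refine ⟨16 * (C1 + C2), by positivity, ?_⟩
  intro A K W N K1 M1 z Y T hN hK1 hz hzY hYM hA hK hW hWp hT
  have hY1 : 1 ≤ Y := hz.trans hzY
  have hM1 : 1 ≤ M1 := hY1.trans hYM
  have hT0 : 0 ≤ T := by
    have h := hT 1 le_rfl (Nat.one_le_iff_ne_zero.2 (by positivity))
    refine le_trans ?_ h
    unfold tau
    positivity
  have hzR : (1 : ℝ) ≤ z := by exact_mod_cast hz
  have hYR : (1 : ℝ) ≤ Y := by exact_mod_cast hY1
  have hMR : (1 : ℝ) ≤ M1 := by exact_mod_cast hM1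
  have hKR : (1 : ℝ) ≤ K1 := by exact_mod_cast hK1
  have hlY : 0 ≤ Real.log Y := Real.log_nonneg hYR
  have hlM : 0 ≤ Real.log M1 := Real.log_nonneg hMR
  have hlYM : Real.log Y ≤ Real.log M1 :=
    Real.log_le_log (by linarith) (by exact_mod_cast hYM)
  have hKMsq : √((K1 : ℝ) * M1) * √((K1 : ℝ) * M1) = K1 * M1 :=
    Real.mul_self_sqrt (by positivity)
  have hsq : √(K1 : ℝ) * √(M1 : ℝ) = √((K1 : ℝ) * M1) :=
    (Real.sqrt_mul (by positivity) _).symm
  set L : ℝ := 1 + Real.log M1 with hL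
  have hL1 : 1 ≤ L := by rw [hL]; linarith
  set S : ℝ := √((K1 : ℝ) * M1) with hS
  have hS0 : 0 ≤ S := Real.sqrt_nonneg _
  set Q : ℝ := √(T * A.card * (K1 * M1)) with hQ
  have hQ0 : 0 ≤ Q := Real.sqrt_nonneg _
  set U : ℝ := A.card * S * (S / z + √(K1 : ℝ) + √(M1 : ℝ) + Y) with hU
  set V : ℝ := Q * (((N : ℝ) + K1 * M1) / Y + M1) with hV
  have hU0 : 0 ≤ U := by rw [hU]; positivity
  have hV0 : 0 ≤ V := by rw [hV]; positivity
  have key : ∀ g : ℕ, ∑ d ∈ Ioc z M1, TQ (cg g A) (cg g K) (cg g W) d / (d.totient : ℝ) ≤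
      8 * (C1 + C2) * L ^ 2 * (U + V) := by
    intro g
    have hsplit : Ioc z M1 = Ioc z Y ∪ Ioc Y M1 := (Finset.Ioc_union_Ioc_eq_Ioc hzY hYM).symm
    have hdisj : Disjoint (Ioc z Y) (Ioc Y M1) := by
      rw [Finset.disjoint_left]
      intro a ha hb
      rw [Finset.mem_Ioc] at ha hb
      omega
    rw [hsplit, Finset.sum_union hdisj]
    have hAg : ((cg g A).card : ℝ) ≤ A.card := cg_card g A
    -- the small conductors
    have e1 : ∑ d ∈ Ioc z Y, TQ (cg g A) (cg g K) (cg g W) d / (d.totient : ℝ) ≤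
        8 * (1 + Real.log Y) ^ 2 * ((C2 * A.card * S * S) / z +
          (C2 * A.card * S * (√(K1 : ℝ) + √(M1 : ℝ))) + (C2 * A.card * S) * Y) := by
      refine hDYD (TQ (cg g A) (cg g K) (cg g W)) z Y _ _ _ (TQ_nonneg _ _ _) hz hzY
        (by positivity) (by positivity) (by positivity) ?_
      intro R hzR' _
      refine (h2 (cg g A) (cg g K) (cg g W) K1 M1 R hK1 hM1 (hz.trans hzR') (cg_sub hK)
        (cg_sub hW)).trans ?_
      have h3 : C2 * ((cg g A).card : ℝ) * S * ((√(K1 : ℝ) + R) * (√(M1 : ℝ) + R)) ≤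
          C2 * (A.card : ℝ) * S * ((√(K1 : ℝ) + R) * (√(M1 : ℝ) + R)) := by
        gcongr
      refine h3.trans (le_of_eq ?_)
      linear_combination C2 * A.card * S * hsq
    -- the large conductors
    have e2 : ∑ d ∈ Ioc Y M1, TQ (cg g A) (cg g K) (cg g W) d / (d.totient : ℝ) ≤
        8 * (1 + Real.log M1) ^ 2 * ((C1 * ((N : ℝ) + K1 * M1) * Q) / Y + 0 + (C1 * Q) * M1) := by
      refine hDYD (TQ (cg g A) (cg g K) (cg g W)) Y M1 _ _ _ (TQ_nonneg _ _ _) hY1 hYM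
        (by positivity) le_rfl (by positivity) ?_
      intro R hYR' _
      refine (h1 (cg g A) (cg g K) (cg g W) N K1 M1 R T hN hK1 hM1 (hY1.trans hYR') (cg_sub hA)
        (cg_sub hK) (cg_sub hW) hT).trans ?_
      have h4 : √(T * ((cg g A).card : ℝ) * (K1 * M1)) ≤ Q := by
        rw [hQ]
        apply Real.sqrt_le_sqrt
        gcongr
      have h3 : C1 * ((N : ℝ) + K1 * M1 + (R : ℝ) ^ 2) * √(T * ((cg g A).card : ℝ) * (K1 * M1)) ≤
          C1 * ((N : ℝ) + K1 * M1 + (R : ℝ) ^ 2) * Q := by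
        gcongr
      refine h3.trans (le_of_eq ?_)
      ring
    have e1' : 8 * (1 + Real.log Y) ^ 2 * ((C2 * A.card * S * S) / z +
          (C2 * A.card * S * (√(K1 : ℝ) + √(M1 : ℝ))) + (C2 * A.card * S) * Y) ≤
        8 * C2 * L ^ 2 * U := by
      have h5 : (1 + Real.log Y) ^ 2 ≤ L ^ 2 := by
        rw [hL]
        gcongr
      have h6 : (C2 * A.card * S * S) / z +
          (C2 * A.card * S * (√(K1 : ℝ) + √(M1 : ℝ))) + (C2 * A.card * S) * Y = C2 * U := by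
        rw [hU]
        ring
      rw [h6]
      calc 8 * (1 + Real.log Y) ^ 2 * (C2 * U) ≤ 8 * L ^ 2 * (C2 * U) := by gcongr
        _ = 8 * C2 * L ^ 2 * U := by ring
    have e2' : 8 * (1 + Real.log M1) ^ 2 * ((C1 * ((N : ℝ) + K1 * M1) * Q) / Y + 0 +
        (C1 * Q) * M1) = 8 * C1 * L ^ 2 * V := by
      rw [hV, hL]
      ring
    have e3 : 0 ≤ C1 * L ^ 2 * U := by positivity
    have e4 : 0 ≤ C2 * L ^ 2 * V := by positivity
    nlinarith [e1, e2, e1', e2', e3, e4]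
  refine hRED A K W z M1 hW hWp |>.trans ?_
  calc ∑ g ∈ Icc 1 M1, 1 / (g.totient : ℝ) *
      ∑ d ∈ Ioc z M1, TQ (cg g A) (cg g K) (cg g W) d / (d.totient : ℝ)
      ≤ ∑ g ∈ Icc 1 M1, 1 / (g.totient : ℝ) * (8 * (C1 + C2) * L ^ 2 * (U + V)) :=
        Finset.sum_le_sum fun g _ => mul_le_mul_of_nonneg_left (key g) (by positivity)
    _ = (∑ g ∈ Icc 1 M1, 1 / (g.totient : ℝ)) * (8 * (C1 + C2) * L ^ 2 * (U + V)) := by
        rw [Finset.sum_mul]
    _ ≤ (2 * L ^ 2) * (8 * (C1 + C2) * L ^ 2 * (U + V)) :=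
        mul_le_mul_of_nonneg_right (Pool.Agent.Lib.BVS.TOTM.sum_tot M1) (by positivity)
    _ = _ := by ring

end Pool.Agent.Lib.MP_1446ad_nt.EX
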