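import Pool.Agent.Lib.MP_1446ad_nt.EX.Spec

/-!
# MP_1446ad_nt, part EX, module EVA: the error for large `N`
-/

set_option autoImplicit false

namespace Pool.Agent.Lib.MP_1446ad_nt.EX

open Finset Filter
open scoped Classical
open Pool.Agent.Lib.MP_1446ad_nt.SM (tau SpecDIV)

namespace EVAM

theorem ev_ge {e : ℝ} (he : 0 < e) (c : ℝ) : ∀ᶠ N : ℕ in atTop, c ≤ (N : ℝ) ^ e :=
  ((tendsto_rpow_atTop he).comp tendsto_natCast_atTop_atTop).eventually_ge_atTop c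

/-- The inequality between the powers. -/
theorem core {κ a η B σ x n z Y K1 M1 T : ℝ} (hx : 1 ≤ x) (hB : 1 ≤ B) (hκ : κ < 1 / 2)
    (hσ : 0 < σ) (ha : 8 * σ ≤ a) (hκ1 : 8 * σ ≤ κ) (hκ2 : 8 * σ ≤ 1 / 2 - κ) (hη : 8 * σ ≤ η)
    (hn : x ^ (1 - 2 * κ + η) ≤ n) (hK0 : 0 ≤ K1) (hK : K1 ≤ x ^ κ) (hM0 : 0 ≤ M1)
    (hM : M1 ≤ B * x ^ (1 - κ)) (hz : x ^ a / 2 ≤ z) (hY : x ^ κ / 2 ≤ Y) (hY2 : Y ≤ x ^ κ)
    (hT0 : 0 ≤ T) (hT : T ≤ x ^ σ) :
    n * √(K1 * M1) * (√(K1 * M1) / z + √K1 + √M1 + Y) +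
      √(T * n * (K1 * M1)) * ((x + K1 * M1) / Y + M1) ≤ 10 * B ^ 2 * (n * x ^ (1 - 7 * σ / 2)) := by
  have x0 : 0 < x := by linarith
  have B0 : 0 < B := by linarith
  have P : ∀ e1 e2 : ℝ, x ^ e1 * x ^ e2 = x ^ (e1 + e2) := fun e1 e2 => (Real.rpow_add x0 _ _).symm
  have pp : ∀ e : ℝ, 0 < x ^ e := fun e => Real.rpow_pos_of_pos x0 e
  have mono : ∀ e1 e2 : ℝ, e1 ≤ e2 → x ^ e1 ≤ x ^ e2 := fun e1 e2 h =>
    Real.rpow_le_rpow_of_exponent_le hx h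
  have hn0 : 0 < n := (pp _).trans_le hn
  have hz0 : 0 < z := (by have := pp a; linarith : 0 < x ^ a / 2).trans_le hz
  have hY0 : 0 < Y := (by have := pp κ; linarith : 0 < x ^ κ / 2).trans_le hY
  have sq : ∀ e : ℝ, (x ^ e) ^ 2 = x ^ (2 * e) := fun e => by
    rw [sq, P]
    congr 1
    ring
  have x1 : x ^ (1 : ℝ) = x := Real.rpow_one x
  have hKM0 : 0 ≤ K1 * M1 := mul_nonneg hK0 hM0
  have h0 : K1 * M1 ≤ B * x := by
    calc K1 * M1 ≤ x ^ κ * (B * x ^ (1 - κ)) := mul_le_mul hK hM hM0 (pp _).le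
      _ = B * (x ^ κ * x ^ (1 - κ)) := by ring
      _ = B * x := by rw [P, show κ + (1 - κ) = 1 by ring, x1]
  have hBB : B ≤ B ^ 2 := by nlinarith
  have h1 : √(K1 * M1) ≤ B * x ^ (1 / 2 : ℝ) := by
    refine Real.sqrt_le_iff.2 ⟨mul_nonneg B0.le (pp _).le, h0.trans ?_⟩
    rw [mul_pow, sq, show 2 * (1 / 2 : ℝ) = 1 by norm_num, x1]
    exact mul_le_mul_of_nonneg_right hBB x0.le
  have h2 : √K1 ≤ x ^ (κ / 2) := by
    refine Real.sqrt_le_iff.2 ⟨(pp _).le, hK.trans (le_of_eq ?_)⟩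
    rw [sq]
    congr 1
    ring
  have h3 : √M1 ≤ B * x ^ ((1 - κ) / 2) := by
    refine Real.sqrt_le_iff.2 ⟨mul_nonneg B0.le (pp _).le, hM.trans ?_⟩
    rw [mul_pow, sq, show 2 * ((1 - κ) / 2) = 1 - κ by ring]
    exact mul_le_mul_of_nonneg_right hBB (pp _).le
  have h4 : √(K1 * M1) / z ≤ 2 * B * x ^ (1 / 2 - a) := by
    rw [div_le_iff₀ hz0]
    calc √(K1 * M1) ≤ B * x ^ (1 / 2 : ℝ) := h1
      _ = 2 * B * x ^ (1 / 2 - a) * (x ^ a / 2) := by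
          rw [show (1 / 2 : ℝ) = (1 / 2 - a) + a by ring, ← P]
          ring_nf
      _ ≤ 2 * B * x ^ (1 / 2 - a) * z :=
          mul_le_mul_of_nonneg_left hz (mul_nonneg (by linarith) (pp _).le)
  set E : ℝ := x ^ (1 / 2 - 7 * σ / 2) with hE
  have e1 : x ^ (1 / 2 - a) ≤ E := mono _ _ (by linarith)
  have e2 : x ^ (κ / 2) ≤ E := mono _ _ (by linarith)
  have e3 : x ^ ((1 - κ) / 2) ≤ E := mono _ _ (by linarith)
  have e4 : x ^ κ ≤ E := mono _ _ (by linarith)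
  have E0 : 0 < E := pp _
  have hS1 : √(K1 * M1) / z + √K1 + √M1 + Y ≤ 5 * B * E := by
    have f1 : 2 * B * x ^ (1 / 2 - a) ≤ 2 * B * E := mul_le_mul_of_nonneg_left e1 (by linarith)
    have f3 : B * x ^ ((1 - κ) / 2) ≤ B * E := mul_le_mul_of_nonneg_left e3 B0.le
    have f5 : E ≤ B * E := le_mul_of_one_le_left E0.le hB
    linarith
  have hS0 : 0 ≤ √(K1 * M1) / z + √K1 + √M1 + Y := by positivity
  have hA : n * √(K1 * M1) * (√(K1 * M1) / z + √K1 + √M1 + Y) ≤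
      5 * B ^ 2 * (n * x ^ (1 - 7 * σ / 2)) := by
    calc n * √(K1 * M1) * (√(K1 * M1) / z + √K1 + √M1 + Y)
        ≤ n * (B * x ^ (1 / 2 : ℝ)) * (5 * B * E) := by
          refine mul_le_mul (mul_le_mul_of_nonneg_left h1 hn0.le) hS1 hS0 ?_
          have := pp (1 / 2)
          positivity
      _ = 5 * B ^ 2 * (n * (x ^ (1 / 2 : ℝ) * E)) := by ring
      _ = 5 * B ^ 2 * (n * x ^ (1 - 7 * σ / 2)) := by
          rw [hE, P, show (1 / 2 : ℝ) + (1 / 2 - 7 * σ / 2) = 1 - 7 * σ / 2 by ring]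
  have h5 : √(T * n * (K1 * M1)) ≤ B * x ^ (1 / 2 + σ / 2) * √n := by
    refine Real.sqrt_le_iff.2 ⟨mul_nonneg (mul_nonneg B0.le (pp _).le) (Real.sqrt_nonneg _), ?_⟩
    rw [mul_pow, mul_pow, Real.sq_sqrt hn0.le, sq,
      show 2 * (1 / 2 + σ / 2) = σ + 1 by ring, ← P, x1]
    calc T * n * (K1 * M1) ≤ x ^ σ * n * (B * x) := by
          refine mul_le_mul (mul_le_mul_of_nonneg_right hT hn0.le) h0 hKM0 ?_
          exact mul_nonneg (pp _).le hn0.le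
      _ = B * (x ^ σ * x * n) := by ring
      _ ≤ B ^ 2 * (x ^ σ * x * n) := by
          refine mul_le_mul_of_nonneg_right hBB ?_
          have := pp σ
          positivity
      _ = B ^ 2 * (x ^ σ * x) * n := by ring
  have h6 : (x + K1 * M1) / Y + M1 ≤ 5 * B * x ^ (1 - κ) := by
    have g1 : (x + K1 * M1) / Y ≤ 4 * B * x ^ (1 - κ) := by
      rw [div_le_iff₀ hY0]
      calc x + K1 * M1 ≤ x + B * x := by linarith
        _ ≤ 2 * B * x := by nlinarith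
        _ = 4 * B * x ^ (1 - κ) * (x ^ κ / 2) := by
            rw [show 4 * B * x ^ (1 - κ) * (x ^ κ / 2) = 2 * B * (x ^ (1 - κ) * x ^ κ) by ring, P,
              show 1 - κ + κ = 1 by ring, x1]
        _ ≤ 4 * B * x ^ (1 - κ) * Y :=
            mul_le_mul_of_nonneg_left hY (mul_nonneg (by linarith) (pp _).le)
    linarith
  have h7 : x ^ (1 / 2 - κ + η / 2) ≤ √n := by
    refine Real.le_sqrt_of_sq_le ?_
    rw [sq, show 2 * (1 / 2 - κ + η / 2) = 1 - 2 * κ + η by ring]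
    exact hn
  have hB2 : √(T * n * (K1 * M1)) * ((x + K1 * M1) / Y + M1) ≤
      5 * B ^ 2 * (n * x ^ (1 - 7 * σ / 2)) := by
    calc √(T * n * (K1 * M1)) * ((x + K1 * M1) / Y + M1)
        ≤ (B * x ^ (1 / 2 + σ / 2) * √n) * (5 * B * x ^ (1 - κ)) := by
          refine mul_le_mul h5 h6 (by positivity) ?_
          exact mul_nonneg (mul_nonneg B0.le (pp _).le) (Real.sqrt_nonneg _)
      _ = 5 * B ^ 2 * (√n * (x ^ (1 / 2 + σ / 2) * x ^ (1 - κ))) := by ring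
      _ = 5 * B ^ 2 * (√n * (x ^ (1 / 2 - κ + η / 2) * x ^ (1 + σ / 2 - η / 2))) := by
          rw [P, P, show 1 / 2 + σ / 2 + (1 - κ) = 1 / 2 - κ + η / 2 + (1 + σ / 2 - η / 2) by ring]
      _ ≤ 5 * B ^ 2 * (√n * (√n * x ^ (1 - 7 * σ / 2))) := by
          refine mul_le_mul_of_nonneg_left ?_ (by positivity)
          refine mul_le_mul_of_nonneg_left ?_ (Real.sqrt_nonneg _)
          exact mul_le_mul h7 (mono _ _ (by linarith)) (pp _).le (Real.sqrt_nonneg _)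
      _ = 5 * B ^ 2 * (n * x ^ (1 - 7 * σ / 2)) := by
          rw [← mul_assoc (√n), Real.mul_self_sqrt hn0.le]
  linarith

end EVAM

open EVAM in
theorem specEVA (hERR : SpecERR) (hDIV : SpecDIV) : SpecEVA := by
  intro κ a η B hκ0 hκ ha0 haκ hη hB
  obtain ⟨C, hC, H⟩ := hERR
  set σ : ℝ := min (min a κ) (min (1 / 2 - κ) η) / 8 with hσd
  have hσ : 0 < σ := by
    have : 0 < min (min a κ) (min (1 / 2 - κ) η) :=
      lt_min (lt_min ha0 hκ0) (lt_min (by linarith) hη)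
    rw [hσd]
    linarith
  have s1 : 8 * σ ≤ a := by
    have : min (min a κ) (min (1 / 2 - κ) η) ≤ a := (min_le_left _ _).trans (min_le_left _ _)
    rw [hσd]
    linarith
  have s2 : 8 * σ ≤ κ := by
    have : min (min a κ) (min (1 / 2 - κ) η) ≤ κ := (min_le_left _ _).trans (min_le_right _ _)
    rw [hσd]
    linarith
  have s3 : 8 * σ ≤ 1 / 2 - κ := by
    have : min (min a κ) (min (1 / 2 - κ) η) ≤ 1 / 2 - κ :=
      (min_le_right _ _).trans (min_le_left _ _)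
    rw [hσd]
    linarith
  have s4 : 8 * σ ≤ η := by
    have : min (min a κ) (min (1 / 2 - κ) η) ≤ η := (min_le_right _ _).trans (min_le_right _ _)
    rw [hσd]
    linarith
  refine ⟨σ, hσ, ?_⟩
  have E1 := hDIV (σ / 8) (by linarith)
  have E1' := hDIV σ hσ
  have E2 := ev_ge (e := σ / 2) (by linarith) C
  have E3 := ev_ge (e := 3 * σ / 2) (by linarith) (10 * B ^ 2)
  have E4 := ev_ge (e := a) ha0 2
  have E5 := ev_ge (e := κ) hκ0 2
  have E6 := tendsto_natCast_atTop_atTop (R := ℝ) |>.eventually_ge_atTop (B + 1)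
  filter_upwards [E1, E1', E2, E3, E4, E5, E6] with N D1 D2 F2 F3 F4 F5 F6 A K W hA hcard hK hW hp
  set x : ℝ := (N : ℝ) with hx
  have x1 : 1 ≤ x := by linarith
  have x0 : 0 < x := by linarith
  have N1 : 1 ≤ N := by
    have : (1 : ℝ) ≤ (N : ℝ) := x1
    exact_mod_cast this
  have P : ∀ e1 e2 : ℝ, x ^ e1 * x ^ e2 = x ^ (e1 + e2) := fun e1 e2 => (Real.rpow_add x0 _ _).symm
  have pp : ∀ e : ℝ, 0 < x ^ e := fun e => Real.rpow_pos_of_pos x0 e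
  have mono : ∀ e1 e2 : ℝ, e1 ≤ e2 → x ^ e1 ≤ x ^ e2 := fun e1 e2 h =>
    Real.rpow_le_rpow_of_exponent_le x1 h
  have B0 : 0 < B := by linarith
  -- the parameters
  set K1 : ℕ := ⌊x ^ κ⌋₊ with hK1
  set M1 : ℕ := ⌊B * x ^ (1 - κ)⌋₊ with hM1
  set z : ℕ := ⌈x ^ a⌉₊ - 1 with hz
  have hK1le : (K1 : ℝ) ≤ x ^ κ := Nat.floor_le (pp _).le
  have hM1le : (M1 : ℝ) ≤ B * x ^ (1 - κ) := Nat.floor_le (mul_nonneg B0.le (pp _).le)
  have hK1ge : x ^ κ / 2 ≤ (K1 : ℝ) := by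
    have : x ^ κ < (K1 : ℝ) + 1 := Nat.lt_floor_add_one _
    linarith
  have hK11 : 1 ≤ K1 := by
    have : (1 : ℝ) ≤ (K1 : ℝ) := by linarith
    exact_mod_cast this
  have hceil : (2 : ℝ) ≤ (⌈x ^ a⌉₊ : ℝ) := F4.trans (Nat.le_ceil _)
  have hceil' : 2 ≤ ⌈x ^ a⌉₊ := by exact_mod_cast hceil
  have hzr : (z : ℝ) = (⌈x ^ a⌉₊ : ℝ) - 1 := by
    rw [hz, Nat.cast_sub (by omega)]
    norm_num
  have hz1 : 1 ≤ z := by omega
  have hzlt : (z : ℝ) < x ^ a := by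
    have := Nat.ceil_lt_add_one (pp a).le
    rw [hzr]
    linarith
  have hzge : x ^ a / 2 ≤ (z : ℝ) := by
    have := Nat.le_ceil (x ^ a)
    rw [hzr]
    linarith
  have hzY : z ≤ K1 := by
    refine Nat.le_floor ?_
    exact hzlt.le.trans (mono _ _ haκ.le)
  have hYM : K1 ≤ M1 := by
    refine Nat.floor_le_floor ?_
    calc x ^ κ ≤ x ^ (1 - κ) := mono _ _ (by linarith)
      _ ≤ B * x ^ (1 - κ) := le_mul_of_one_le_left (pp _).le hB
  have hM1N : M1 ≤ N ^ 3 := by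
    have h1 : (M1 : ℝ) ≤ ((N ^ 3 : ℕ) : ℝ) := by
      push_cast
      calc (M1 : ℝ) ≤ B * x ^ (1 - κ) := hM1le
        _ ≤ x * x ^ (1 : ℝ) := mul_le_mul (by linarith) (mono _ _ (by linarith)) (pp _).le x0.le
        _ = x ^ 2 := by rw [Real.rpow_one]; ring
        _ ≤ (N : ℝ) ^ 3 := pow_le_pow_right₀ x1 (by norm_num)
    exact_mod_cast h1
  have hKMN : K1 * M1 ≤ N ^ 3 := by
    have h1 : (((K1 * M1 : ℕ)) : ℝ) ≤ ((N ^ 3 : ℕ) : ℝ) := by
      push_cast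
      calc (K1 : ℝ) * (M1 : ℝ) ≤ x ^ κ * (B * x ^ (1 - κ)) :=
            mul_le_mul hK1le hM1le (Nat.cast_nonneg _) (pp _).le
        _ = B * (x ^ κ * x ^ (1 - κ)) := by ring
        _ = B * x := by rw [P, show κ + (1 - κ) = 1 by ring, Real.rpow_one]
        _ ≤ x * x := mul_le_mul_of_nonneg_right (by linarith) x0.le
        _ = x ^ 2 := by ring
        _ ≤ (N : ℝ) ^ 3 := pow_le_pow_right₀ x1 (by norm_num)
    exact_mod_cast h1
  have hM11 : 1 ≤ M1 := hK11.trans hYM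
  have key := H A K W N K1 M1 z K1 (x ^ σ) N1 hK11 hz1 hzY hYM hA
    (fun k hk => ⟨(hK k hk).1, Nat.le_floor (hK k hk).2⟩)
    (fun m hm => ⟨(hW m hm).1, Nat.le_floor (hW m hm).2⟩)
    (fun m hm p pp' hpm => by
      have h1 := hp m hm p pp' hpm
      have h2 : (z : ℝ) < (p : ℝ) := hzlt.trans_le h1
      exact_mod_cast h2)
    (fun u hu1 hu2 => (D2 u (by omega) (hu2.trans hKMN)).1)
  refine key.trans ?_
  have hlog : (1 + Real.log (M1 : ℝ)) ^ 4 ≤ x ^ (σ / 2) := by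
    have h1 := (D1 M1 (by omega) hM1N).2
    have h0 : 0 ≤ 1 + Real.log (M1 : ℝ) := by
      have : 0 ≤ Real.log (M1 : ℝ) := Real.log_nonneg (by exact_mod_cast hM11)
      linarith
    calc (1 + Real.log (M1 : ℝ)) ^ 4 ≤ (x ^ (σ / 8)) ^ 4 := pow_le_pow_left₀ h0 h1 4
      _ = x ^ (σ / 2) := by
          rw [← Real.rpow_natCast, ← Real.rpow_mul x0.le]
          congr 1
          push_cast
          ring
  have hCl : C * (1 + Real.log (M1 : ℝ)) ^ 4 ≤ x ^ σ := by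
    calc C * (1 + Real.log (M1 : ℝ)) ^ 4 ≤ x ^ (σ / 2) * x ^ (σ / 2) := by
          refine mul_le_mul F2 hlog (by positivity) (pp _).le
      _ = x ^ σ := by
          rw [P]
          congr 1
          ring
  have hcore := core (κ := κ) (a := a) (η := η) (B := B) (σ := σ) (x := x) (n := (A.card : ℝ))
    (z := (z : ℝ)) (Y := (K1 : ℝ)) (K1 := (K1 : ℝ)) (M1 := (M1 : ℝ)) (T := x ^ σ)
    x1 hB hκ hσ s1 s2 s3 s4 hcard (Nat.cast_nonneg _) hK1le (Nat.cast_nonneg _) hM1le hzge hK1ge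
    hK1le (pp _).le le_rfl
  have hn0 : (0 : ℝ) ≤ (A.card : ℝ) := Nat.cast_nonneg _
  calc C * (1 + Real.log (M1 : ℝ)) ^ 4 * _
      ≤ x ^ σ * (10 * B ^ 2 * ((A.card : ℝ) * x ^ (1 - 7 * σ / 2))) := by
        refine mul_le_mul hCl hcore ?_ (pp _).le
        positivity
    _ = 10 * B ^ 2 * ((A.card : ℝ) * (x ^ σ * x ^ (1 - 7 * σ / 2))) := by ring
    _ ≤ x ^ (3 * σ / 2) * ((A.card : ℝ) * (x ^ σ * x ^ (1 - 7 * σ / 2))) := by
        refine mul_le_mul_of_nonneg_right F3 ?_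
        exact mul_nonneg hn0 (mul_nonneg (pp _).le (pp _).le)
    _ = (A.card : ℝ) * (x ^ (3 * σ / 2) * x ^ σ * x ^ (1 - 7 * σ / 2)) := by ring
    _ = (A.card : ℝ) * x ^ (1 - σ) := by
        rw [P, P]
        congr 2
        ring

end Pool.Agent.Lib.MP_1446ad_nt.EX
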