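import Pool.Agent.Lib.MP_1446ad_nt.EX.Spec

/-!
# MP_1446ad_nt, EX: module IVX, the intervals
-/

set_option autoImplicit false

namespace Pool.Agent.Lib.MP_1446ad_nt.EX

open Finset Filter
open scoped Classical

theorem specIVX : SpecIVX := by
  intro lam mu N V hlam hlam2 hmu hmu2 hV hx1 hx2
  obtain ⟨x, hx⟩ : ∃ x : ℝ, x = (N : ℝ) / (2 * V) := ⟨_, rfl⟩
  rw [← hx] at hx1 hx2 ⊢
  have hVr : (0 : ℝ) < V := by exact_mod_cast hV
  have hxV : x * V = (N : ℝ) / 2 := by
    rw [hx]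
    field_simp
  have hlx : 10 ≤ lam * x := by
    rw [div_le_iff₀ hlam] at hx1
    linarith
  have hx0 : 1000 ≤ x := by nlinarith
  have hN0 : (0 : ℝ) < N := by nlinarith
  -- the end points
  have a1 : x ≤ (⌈x⌉₊ : ℝ) := Nat.le_ceil x
  have a2 : (⌈x⌉₊ : ℝ) < x + 1 := Nat.ceil_lt_add_one (by linarith)
  have b0 : 0 ≤ (1 + lam) * x := by positivity
  have b1 : (⌊(1 + lam) * x⌋₊ : ℝ) ≤ (1 + lam) * x := Nat.floor_le b0
  have b2 : (1 + lam) * x < (⌊(1 + lam) * x⌋₊ : ℝ) + 1 := Nat.lt_floor_add_one _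
  have c0 : 0 ≤ (1 - lam - 6 * mu) * x := mul_nonneg (by linarith) (by linarith)
  have c1 : (⌊(1 - lam - 6 * mu) * x⌋₊ : ℝ) ≤ (1 - lam - 6 * mu) * x := Nat.floor_le c0
  have c2 : (1 - lam - 6 * mu) * x < (⌊(1 - lam - 6 * mu) * x⌋₊ : ℝ) + 1 := Nat.lt_floor_add_one _
  have hmux : 0 ≤ mu * x := by positivity
  have hlx2 : lam * x ≤ x := by nlinarith
  refine ⟨⌈x⌉₊, ⌊(1 + lam) * x⌋₊, ⌊(1 - lam - 6 * mu) * x⌋₊, ⌈x⌉₊, ?_, ?_, ?_, ?_, ?_, ?_, ?_,
    ?_, ?_⟩
  · have : (⌈x⌉₊ : ℝ) ≤ (⌊(1 + lam) * x⌋₊ : ℝ) := by linarith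
    exact_mod_cast this
  · have : (⌊(1 - lam - 6 * mu) * x⌋₊ : ℝ) ≤ (⌈x⌉₊ : ℝ) := by linarith
    exact_mod_cast this
  · linarith
  · linarith
  · linarith
  · linarith
  · linarith
  · linarith
  · intro n m r hn hn2 hm hm2 hr hr2
    have hn' : (n : ℝ) ≤ N := by exact_mod_cast hn
    have hm' : (V : ℝ) < m := by exact_mod_cast hm
    have hr' : (V : ℝ) < r := by exact_mod_cast hr
    -- bounds of the product `k m`
    have hkm : ∀ k ∈ Ioc ⌈x⌉₊ ⌊(1 + lam) * x⌋₊, (N : ℝ) / 2 < (k : ℝ) * m ∧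
        (k : ℝ) * m ≤ (1 + lam) * (1 + mu) * ((N : ℝ) / 2) := by
      intro k hk
      rw [mem_Ioc] at hk
      have h1 : (⌈x⌉₊ : ℝ) < k := by exact_mod_cast hk.1
      have h2 : (k : ℝ) ≤ (⌊(1 + lam) * x⌋₊ : ℝ) := by exact_mod_cast hk.2
      have h3 : x < k := by linarith
      have h4 : (k : ℝ) ≤ (1 + lam) * x := by linarith
      constructor
      · rw [← hxV]
        exact mul_lt_mul'' h3 hm' (by linarith) hVr.le
      · calc (k : ℝ) * m ≤ ((1 + lam) * x) * ((1 + mu) * V) :=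
              mul_le_mul h4 hm2 (by linarith) b0
          _ = (1 + lam) * (1 + mu) * (x * V) := by ring
          _ = (1 + lam) * (1 + mu) * ((N : ℝ) / 2) := by rw [hxV]
    have hlt : ∀ k ∈ Ioc ⌈x⌉₊ ⌊(1 + lam) * x⌋₊, k * m < n := by
      intro k hk
      have h1 := (hkm k hk).2
      have h2 : ((k * m : ℕ) : ℝ) < n := by
        push_cast
        have h3 : (1 + mu) * ((k : ℝ) * m) ≤ (1 + mu) * ((1 + lam) * (1 + mu) * ((N : ℝ) / 2)) :=
          mul_le_mul_of_nonneg_left h1 (by linarith)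
        have h4 : (1 + mu) * ((1 + lam) * (1 + mu)) ≤ 2 := by
          have e1 : (1 + mu) * (1 + mu) ≤ 2 * 2⁻¹ * (101 / 100) := by nlinarith
          have e2 : (1 + lam) * ((1 + mu) * (1 + mu)) ≤ (101 / 100) * (2 * 2⁻¹ * (101 / 100)) :=
            mul_le_mul (by linarith) e1 (by positivity) (by norm_num)
          have e3 : (1 + mu) * ((1 + lam) * (1 + mu)) = (1 + lam) * ((1 + mu) * (1 + mu)) := by ring
          rw [e3]
          refine e2.trans (by norm_num)
        have h5 : (1 + mu) * ((1 + lam) * (1 + mu)) * ((N : ℝ) / 2) ≤ 2 * ((N : ℝ) / 2) :=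
          mul_le_mul_of_nonneg_right h4 (by linarith)
        have h6 : (1 + mu) * ((k : ℝ) * m) < (1 + mu) * n := by linarith
        exact lt_of_mul_lt_mul_left h6 (by linarith)
      exact_mod_cast h2
    refine ⟨hlt, ?_⟩
    intro k hk hdvd
    have h1 := hkm k hk
    have h2 := hlt k hk
    obtain ⟨s, hs⟩ := hdvd
    have hr0 : 0 < r := by omega
    rw [hs, Nat.mul_div_cancel_left s hr0]
    have hs' : (n : ℝ) - (k : ℝ) * m = (r : ℝ) * s := by
      have h3 : n = k * m + r * s := by omega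
      rw [h3]
      push_cast
      ring
    have hrr : (0 : ℝ) < r := by linarith
    rw [mem_Ioc]
    constructor
    · -- lower bound
      have h3 : (1 - lam - 6 * mu) * x < s := by
        by_contra hcon
        rw [not_lt] at hcon
        have h4 : (r : ℝ) * s ≤ ((1 + mu) * V) * ((1 - lam - 6 * mu) * x) :=
          mul_le_mul hr2 hcon (Nat.cast_nonneg s) (by positivity)
        have h5 : ((1 + mu) * V) * ((1 - lam - 6 * mu) * x)
            = (1 + mu) * (1 - lam - 6 * mu) * ((N : ℝ) / 2) := by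
          rw [← hxV]
          ring
        have h6 : (n : ℝ) ≤ (1 + mu) * (2 - 6 * mu) * ((N : ℝ) / 2) := by
          have h7 := h1.2
          have h8 : (1 + mu) * (2 - 6 * mu) * ((N : ℝ) / 2)
              = (1 + lam) * (1 + mu) * ((N : ℝ) / 2) +
                (1 + mu) * (1 - lam - 6 * mu) * ((N : ℝ) / 2) := by ring
          linarith
        have h7 : (1 + mu) * n ≤ (1 + mu) * ((1 + mu) * (2 - 6 * mu) * ((N : ℝ) / 2)) :=
          mul_le_mul_of_nonneg_left h6 (by linarith)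
        have h8 : (1 + mu) * ((1 + mu) * (2 - 6 * mu)) ≤ 2 := by
          have : (1 + mu) * ((1 + mu) * (2 - 6 * mu)) = 2 - 2 * mu - 10 * mu ^ 2 - 6 * mu ^ 3 := by
            ring
          have h9 : 0 ≤ mu ^ 2 := by positivity
          have h10 : 0 ≤ mu ^ 3 := by positivity
          linarith
        have h9 : (1 + mu) * ((1 + mu) * (2 - 6 * mu)) * ((N : ℝ) / 2) ≤ 2 * ((N : ℝ) / 2) :=
          mul_le_mul_of_nonneg_right h8 (by linarith)
        linarith
      have h4 : (⌊(1 - lam - 6 * mu) * x⌋₊ : ℝ) < s := by linarith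
      exact_mod_cast h4
    · -- upper bound
      have h3 : (s : ℝ) < x := by
        have h4 : (r : ℝ) * s < (r : ℝ) * x := by
          have h5 : (V : ℝ) * x < r * x := mul_lt_mul_of_pos_right hr' (by linarith)
          have h6 : (V : ℝ) * x = (N : ℝ) / 2 := by
            rw [← hxV]
            ring
          linarith [h1.1]
        exact lt_of_mul_lt_mul_left h4 hrr.le
      have h4 : (s : ℝ) ≤ (⌈x⌉₊ : ℝ) := by linarith
      exact_mod_cast h4

end Pool.Agent.Lib.MP_1446ad_nt.EX
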