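import Pool.Agent.Lib.MP_1446ad_nt.EX.Spec

/-! PRW: the products of `j` primes of one window. -/

set_option autoImplicit false

namespace Pool.Agent.Lib.MP_1446ad_nt.EX

open Finset
open scoped Classical

namespace PRWM

lemma mem_PX {ν : ℝ} {X p : ℕ} : p ∈ PX ν X ↔
    (X < p ∧ p ≤ 2 * X) ∧ p.Prime ∧ (p : ℝ) ≤ (1 + ν) * X := by
  unfold PX
  rw [mem_filter, mem_Ioc]

lemma mem_PW {ν : ℝ} {X j m : ℕ} : m ∈ PW ν X j ↔
    ∃ f : Fin j → ℕ, (∀ i, f i ∈ PX ν X) ∧ ∏ i, f i = m := by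
  unfold PW
  rw [mem_image]
  constructor
  · rintro ⟨f, hf, h⟩
    exact ⟨f, fun i => Fintype.mem_piFinset.1 hf i, h⟩
  · rintro ⟨f, hf, h⟩
    exact ⟨f, Fintype.mem_piFinset.2 hf, h⟩

lemma lower {ν : ℝ} {X j : ℕ} (hX : 1 ≤ X) (hj : 1 ≤ j) (f : Fin j → ℕ)
    (hf : ∀ i, f i ∈ PX ν X) : X ^ j < ∏ i, f i := by
  have h1 : ∏ _i : Fin j, X = X ^ j := by simp
  rw [← h1]
  refine Finset.prod_lt_prod (fun i _ => by omega) (fun i _ => ?_) ?_
  · exact (mem_PX.1 (hf i)).1.1.le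
  · exact ⟨⟨0, by omega⟩, mem_univ _, (mem_PX.1 (hf _)).1.1⟩

lemma upper {ν : ℝ} {X j : ℕ} (f : Fin j → ℕ)
    (hf : ∀ i, f i ∈ PX ν X) :
    ((∏ i, f i : ℕ) : ℝ) ≤ (1 + ν) ^ j * (X : ℝ) ^ j := by
  have h1 : ∏ _i : Fin j, ((1 + ν) * (X : ℝ)) = (1 + ν) ^ j * (X : ℝ) ^ j := by
    rw [Finset.prod_const, Finset.card_univ, Fintype.card_fin, mul_pow]
  rw [← h1, Nat.cast_prod]
  exact Finset.prod_le_prod (fun i _ => Nat.cast_nonneg _) (fun i _ => (mem_PX.1 (hf i)).2.2)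

lemma pdvd {ν : ℝ} {X j : ℕ} (f : Fin j → ℕ)
    (hf : ∀ i, f i ∈ PX ν X) {p : ℕ} (hp : p.Prime) (h : p ∣ ∏ i, f i) :
    ∃ i, p = f i := by
  obtain ⟨i, _, hi⟩ := (hp.prime.dvd_finsetProd_iff _).1 h
  exact ⟨i, (Nat.prime_dvd_prime_iff_eq hp (mem_PX.1 (hf i)).2.1).1 hi⟩

lemma fiber {ν : ℝ} {X j : ℕ} (w : ℕ)
    (hw : w ∈ PW ν X j) :
    ((Fintype.piFinset (fun _ : Fin j => PX ν X)).filter
      (fun f => ∏ i, f i = w)).card ≤ j ^ j := by
  obtain ⟨f₀, hf₀, h₀⟩ := mem_PW.1 hw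
  have hsub : (Fintype.piFinset (fun _ : Fin j => PX ν X)).filter (fun f => ∏ i, f i = w) ⊆
      Fintype.piFinset (fun _ : Fin j => (univ : Finset (Fin j)).image f₀) := by
    intro f hf
    rw [mem_filter, Fintype.mem_piFinset] at hf
    rw [Fintype.mem_piFinset]
    intro i
    have hd : f i ∣ ∏ i, f₀ i := by
      rw [h₀, ← hf.2]
      exact Finset.dvd_prod_of_mem f (mem_univ i)
    obtain ⟨k, hk⟩ := pdvd f₀ hf₀ (mem_PX.1 (hf.1 i)).2.1 hd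
    rw [mem_image]
    exact ⟨k, mem_univ _, hk.symm⟩
  refine (card_le_card hsub).trans ?_
  rw [Fintype.card_piFinset, Finset.prod_const, Finset.card_univ, Fintype.card_fin]
  refine Nat.pow_le_pow_left ?_ j
  refine Finset.card_image_le.trans ?_
  rw [Finset.card_univ, Fintype.card_fin]

end PRWM

open PRWM in
/-- The products. -/
theorem specPRW : SpecPRW := by
  intro ν X j hν hν1 hX hj
  refine ⟨?_, ?_⟩
  · intro m hm
    obtain ⟨f, hf, rfl⟩ := mem_PW.1 hm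
    refine ⟨lower hX hj f hf, upper f hf, ?_⟩
    intro p hp hpd
    obtain ⟨i, rfl⟩ := pdvd f hf hp hpd
    exact (mem_PX.1 (hf i)).1
  · have h1 : (Fintype.piFinset (fun _ : Fin j => PX ν X)).card = (PX ν X).card ^ j := by
      rw [Fintype.card_piFinset, Finset.prod_const, Finset.card_univ, Fintype.card_fin]
    rw [← h1]
    have h2 := Finset.card_le_mul_card_image (s := Fintype.piFinset (fun _ : Fin j => PX ν X))
      (f := fun f => ∏ i, f i) (j ^ j) (fun w hw => fiber w hw)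
    exact h2

end Pool.Agent.Lib.MP_1446ad_nt.EX
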