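import Pool.Agent.Lib.MP_1446ad_nt.EX.Spec

/-!
# RED: the error term as a sum over conductors
-/

set_option autoImplicit false

namespace Pool.Agent.Lib.MP_1446ad_nt.EX

open Finset Filter
open scoped Classical
open Pool.Agent.Lib.BVS (psum)

namespace REDM

lemma psum_nonneg (q : ℕ) (Φ : DirichletCharacter ℂ q → ℝ) (h : ∀ χ, 0 ≤ Φ χ) :
    0 ≤ psum q Φ := by
  unfold psum
  split_ifs
  · exact le_rfl
  · exact Finset.sum_nonneg fun χ _ => h χ

lemma TQ_nonneg (A K W : Finset ℕ) (d : ℕ) : 0 ≤ TQ A K W d :=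
  psum_nonneg d _ fun _ => mul_nonneg (mul_nonneg (norm_nonneg _) (norm_nonneg _)) (norm_nonneg _)

/-- the terms -/
noncomputable def F (A K W : Finset ℕ) (g d : ℕ) : ℝ :=
  1 / (g.totient : ℝ) * (TQ (cg g A) (cg g K) (cg g W) d / (d.totient : ℝ))

lemma F_nonneg (A K W : Finset ℕ) (g d : ℕ) : 0 ≤ F A K W g d := by
  have := TQ_nonneg (cg g A) (cg g K) (cg g W) d
  unfold F
  positivity

lemma term (A K W : Finset ℕ) (r d : ℕ) (hr : 0 < r) (hd : d ∣ r) :
    TQ (cg (r / d) A) (cg (r / d) K) (cg (r / d) W) d / (r.totient : ℝ) ≤ F A K W (r / d) d := by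
  have hd0 : 0 < d := Nat.pos_of_dvd_of_pos hd hr
  have hg0 : 0 < r / d := Nat.div_pos (Nat.le_of_dvd hr hd) hd0
  have h1 : (r / d).totient * d.totient ≤ r.totient := by
    have h := Nat.totient_super_multiplicative (r / d) d
    rwa [Nat.div_mul_cancel hd] at h
  have h2 : (((r / d).totient : ℝ)) * (d.totient : ℝ) ≤ (r.totient : ℝ) := by
    exact_mod_cast h1
  have p1 : (0 : ℝ) < ((r / d).totient : ℝ) := by exact_mod_cast Nat.totient_pos.2 hg0
  have p2 : (0 : ℝ) < (d.totient : ℝ) := by exact_mod_cast Nat.totient_pos.2 hd0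
  have h3 : F A K W (r / d) d = TQ (cg (r / d) A) (cg (r / d) K) (cg (r / d) W) d /
      (((r / d).totient : ℝ) * (d.totient : ℝ)) := by
    unfold F
    rw [div_mul_div_comm, one_mul]
  rw [h3]
  exact div_le_div_of_nonneg_left (TQ_nonneg _ _ _ _) (mul_pos p1 p2) h2

end REDM

theorem specRED (hCHA : SpecCHA) (hCHB : SpecCHB) : SpecRED := by
  intro A K W z X hW hWz
  have step1 : |ER A K W| ≤ ∑ r ∈ W, ∑ d ∈ r.divisors.filter (fun d => d ≠ 1),
      REDM.F A K W (r / d) d := by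
    refine (Finset.abs_sum_le_sum_abs _ _).trans (Finset.sum_le_sum fun r hr => ?_)
    have hr0 : 0 < r := (hW r hr).1
    have : NeZero r := ⟨hr0.ne'⟩
    refine (hCHA A K W r).trans ?_
    refine (div_le_div_of_nonneg_right (hCHB A K W r) (Nat.cast_nonneg _)).trans ?_
    rw [Finset.sum_div]
    refine Finset.sum_le_sum fun d hd => ?_
    exact REDM.term A K W r d hr0 (Nat.dvd_of_mem_divisors (Finset.mem_filter.1 hd).1)
  refine step1.trans ?_
  rw [Finset.sum_sigma']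
  have hinj : Set.InjOn (fun x : (_ : ℕ) × ℕ => (x.1 / x.2, x.2))
      (W.sigma fun r => r.divisors.filter (fun d => d ≠ 1) : Finset ((_ : ℕ) × ℕ)) := by
    rintro ⟨r, d⟩ hx ⟨r', d'⟩ hx' h
    rw [Finset.mem_coe, Finset.mem_sigma] at hx hx'
    have h1 : d ∣ r := Nat.dvd_of_mem_divisors (Finset.mem_filter.1 hx.2).1
    have h2 : d' ∣ r' := Nat.dvd_of_mem_divisors (Finset.mem_filter.1 hx'.2).1
    have h3 : r / d = r' / d' := congrArg Prod.fst h
    have h4 : d = d' := congrArg Prod.snd h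
    subst h4
    have h5 : r = r' := by
      rw [← Nat.div_mul_cancel h1, ← Nat.div_mul_cancel h2, h3]
    rw [h5]
  have himg : ∑ x ∈ (W.sigma fun r => r.divisors.filter (fun d => d ≠ 1)),
      REDM.F A K W (x.1 / x.2) x.2 =
      ∑ y ∈ (W.sigma fun r => r.divisors.filter (fun d => d ≠ 1)).image
        (fun x : (_ : ℕ) × ℕ => (x.1 / x.2, x.2)), REDM.F A K W y.1 y.2 := by
    rw [Finset.sum_image hinj]
  rw [himg]
  have hsub : (W.sigma fun r => r.divisors.filter (fun d => d ≠ 1)).image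
      (fun x : (_ : ℕ) × ℕ => (x.1 / x.2, x.2)) ⊆ (Icc 1 X) ×ˢ (Ioc z X) := by
    intro y hy
    obtain ⟨⟨r, d⟩, hx, rfl⟩ := Finset.mem_image.1 hy
    rw [Finset.mem_sigma] at hx
    obtain ⟨hr, hd⟩ := hx
    have hr' : r ∈ W := hr
    obtain ⟨hr0, hrX⟩ := hW r hr'
    have hd1 : d ∣ r := Nat.dvd_of_mem_divisors (Finset.mem_filter.1 hd).1
    have hd2 : d ≠ 1 := (Finset.mem_filter.1 hd).2
    have hd0 : 0 < d := Nat.pos_of_dvd_of_pos hd1 hr0
    have hdr : d ≤ r := Nat.le_of_dvd hr0 hd1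
    obtain ⟨p, hp, hpd⟩ := Nat.exists_prime_and_dvd hd2
    have hzp : z < p := hWz r hr' p hp (hpd.trans hd1)
    have hpd' : p ≤ d := Nat.le_of_dvd hd0 hpd
    rw [Finset.mem_product, Finset.mem_Icc, Finset.mem_Ioc]
    exact ⟨⟨Nat.div_pos hdr hd0, (Nat.div_le_self r d).trans hrX⟩, by
      show z < d
      omega, hdr.trans hrX⟩
  refine (Finset.sum_le_sum_of_subset_of_nonneg hsub fun y _ _ => REDM.F_nonneg _ _ _ _ _).trans
    (le_of_eq ?_)
  rw [Finset.sum_product]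
  refine Finset.sum_congr rfl fun g _ => ?_
  rw [Finset.mul_sum]
  rfl

end Pool.Agent.Lib.MP_1446ad_nt.EX
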