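import Pool.Agent.Lib.MP_1446ad_nt.EX.Spec

/-!
# TRV: the elements with a common factor
-/

set_option autoImplicit false

namespace Pool.Agent.Lib.MP_1446ad_nt.EX

open Finset Filter
open scoped Classical

namespace TRVM

/-- The number of prime factors. -/
lemma card_le (n L : ℕ) (hn : 1 ≤ n) (hL : n < 2 ^ L) : n.primeFactors.card ≤ L := by
  have h1 : 2 ^ n.primeFactors.card ≤ ∏ p ∈ n.primeFactors, p := by
    rw [← Finset.prod_const]
    exact Finset.prod_le_prod (fun _ _ => by norm_num)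
      (fun p hp => (Nat.prime_of_mem_primeFactors hp).two_le)
  have h2 : ∏ p ∈ n.primeFactors, p ≤ n :=
    Nat.le_of_dvd hn (Nat.prod_primeFactors_dvd n)
  have h3 : 2 ^ n.primeFactors.card < 2 ^ L := lt_of_le_of_lt (h1.trans h2) hL
  exact ((Nat.pow_lt_pow_iff_right (by norm_num)).mp h3).le

end TRVM

open TRVM in
/-- TRV -/
theorem specTRV : SpecTRV := by
  intro S X n z L hS hz hp hn hL
  have hz0 : (0 : ℝ) < z := by exact_mod_cast hz
  set P : Finset ℕ := n.primeFactors.filter (fun p => z < p) with hP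
  have h1 : S.filter (fun s => ¬ s.Coprime n) ⊆
      P.biUnion (fun p => (Ioc 0 X).filter (fun s => p ∣ s)) := by
    intro s hs
    rw [mem_filter] at hs
    obtain ⟨hs1, hs2⟩ := hs
    obtain ⟨p, hpp, hps, hpn⟩ := Nat.Prime.not_coprime_iff_dvd.mp hs2
    rw [mem_biUnion]
    refine ⟨p, ?_, ?_⟩
    · rw [hP, mem_filter]
      exact ⟨Nat.mem_primeFactors.mpr ⟨hpp, hpn, by omega⟩, hp s hs1 p hpp hps hpn⟩
    · rw [mem_filter, mem_Ioc]
      have := hS s hs1
      exact ⟨⟨by omega, this.2⟩, hps⟩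
  have h2 : (S.filter (fun s => ¬ s.Coprime n)).card ≤ ∑ p ∈ P, X / p := by
    refine (card_le_card h1).trans (card_biUnion_le.trans (le_of_eq ?_))
    refine sum_congr rfl fun p _ => ?_
    exact Nat.Ioc_filter_dvd_card_eq_div X p
  have h3 : (∑ p ∈ P, ((X / p : ℕ) : ℝ)) ≤ ∑ p ∈ P, (X : ℝ) / z := by
    refine sum_le_sum fun p hpP => ?_
    rw [hP, mem_filter] at hpP
    have hzp : (z : ℝ) ≤ p := by exact_mod_cast hpP.2.le
    refine (Nat.cast_div_le).trans ?_
    exact div_le_div_of_nonneg_left (Nat.cast_nonneg X) hz0 hzp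
  have h4 : (P.card : ℝ) ≤ L := by
    have : P.card ≤ L := (card_le_card (filter_subset _ _)).trans (card_le n L hn hL)
    exact_mod_cast this
  have h5 : ((S.filter (fun s => ¬ s.Coprime n)).card : ℝ) ≤ ∑ p ∈ P, ((X / p : ℕ) : ℝ) := by
    exact_mod_cast h2
  calc ((S.filter (fun s => ¬ s.Coprime n)).card : ℝ) ≤ ∑ p ∈ P, (X : ℝ) / z := h5.trans h3
    _ = P.card * ((X : ℝ) / z) := by rw [sum_const, nsmul_eq_mul]
    _ ≤ L * ((X : ℝ) / z) := mul_le_mul_of_nonneg_right h4 (by positivity)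
    _ = L * X / z := by ring

end Pool.Agent.Lib.MP_1446ad_nt.EX
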