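import Pool.Agent.Lib.MP_1446ad_nt.EX.Spec

/-!
# WDX: windows with many products
-/

set_option autoImplicit false

namespace Pool.Agent.Lib.MP_1446ad_nt.EX

open Finset Filter
open scoped Classical
open Pool.Agent.Lib.MP_1446ad_nt.SM (tau SpecDIV SpecPIG SpecNSM)

/-- WDX -/
theorem specWDX (hPRW : SpecPRW) (hPIG : SpecPIG) : SpecWDX := by
  intro ν a j hν hν1 ha ha1 hj
  obtain ⟨c, x0, hc, hPIG⟩ := hPIG ν hν hν1
  have hj0 : (0 : ℝ) < j := by exact_mod_cast hj
  have t1 : Tendsto (fun N : ℕ => (N : ℝ) ^ a) atTop atTop :=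
    (tendsto_rpow_atTop ha).comp tendsto_natCast_atTop_atTop
  have t2 : Tendsto (fun N : ℕ => Real.log (N : ℝ)) atTop atTop :=
    Real.tendsto_log_atTop.comp tendsto_natCast_atTop_atTop
  filter_upwards [t1.eventually_ge_atTop x0, t1.eventually_ge_atTop 1,
    t2.eventually_ge_atTop (8 * j / c), t2.eventually_ge_atTop 1, eventually_ge_atTop 1]
    with N h1 h1' h2 h3 hN
  have hN0 : (0 : ℝ) < N := by exact_mod_cast hN
  obtain ⟨X, hX1, hX2, hX3⟩ := hPIG ((N : ℝ) ^ a) h1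
  refine ⟨X, hX1, hX2, ?_⟩
  have hXr : (1 : ℝ) ≤ X := h1'.trans hX1
  have hX0 : (0 : ℝ) < X := by linarith
  have hXn : 1 ≤ X := by exact_mod_cast hXr
  have hl0 : (0 : ℝ) < Real.log N := by linarith
  obtain ⟨-, hcard⟩ := hPRW ν X j hν hν1 hXn hj
  have hcard' : ((PX ν X).card : ℝ) ^ j ≤ (j : ℝ) ^ j * ((PW ν X j).card : ℝ) := by
    exact_mod_cast hcard
  have hPX : c * (N : ℝ) ^ a / Real.log ((N : ℝ) ^ a) ≤ ((PX ν X).card : ℝ) := hX3
  rw [Real.log_rpow hN0] at hPX
  have h4 : c * (X / 8) / Real.log N ≤ ((PX ν X).card : ℝ) := by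
    refine le_trans ?_ hPX
    have e1 : c * ((X : ℝ) / 8) ≤ c * (N : ℝ) ^ a :=
      mul_le_mul_of_nonneg_left (by linarith) hc.le
    have e2 : a * Real.log N ≤ Real.log N := by nlinarith
    exact div_le_div₀ (by positivity) e1 (by positivity) e2
  have h5 : (X : ℝ) ≤ Real.log N ^ 2 * ((PX ν X).card : ℝ) / j := by
    rw [le_div_iff₀ hj0]
    have e3 : 8 * (j : ℝ) ≤ c * Real.log N := by
      rw [div_le_iff₀ hc] at h2
      linarith
    calc (X : ℝ) * j ≤ Real.log N ^ 2 * (c * (X / 8) / Real.log N) := by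
          have e4 : Real.log N ^ 2 * (c * ((X : ℝ) / 8) / Real.log N) =
              X * (c * Real.log N) / 8 := by
            field_simp
          rw [e4]
          nlinarith
      _ ≤ Real.log N ^ 2 * ((PX ν X).card : ℝ) :=
          mul_le_mul_of_nonneg_left h4 (by positivity)
  calc (X : ℝ) ^ j ≤ (Real.log N ^ 2 * ((PX ν X).card : ℝ) / j) ^ j :=
        pow_le_pow_left₀ hX0.le h5 j
    _ = Real.log N ^ (2 * j) * (((PX ν X).card : ℝ) ^ j / (j : ℝ) ^ j) := by
        rw [div_pow, mul_pow, pow_mul]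
        ring
    _ ≤ Real.log N ^ (2 * j) * ((PW ν X j).card : ℝ) := by
        refine mul_le_mul_of_nonneg_left ?_ (by positivity)
        rw [div_le_iff₀ (by positivity)]
        linarith [hcard']

end Pool.Agent.Lib.MP_1446ad_nt.EX
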