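import Pool.Agent.Lib.MP_1446ad_nt.EX.ASX
import Pool.Agent.Lib.MP_1446ad_nt.EX.BL1
import Pool.Agent.Lib.MP_1446ad_nt.EX.BL2
import Pool.Agent.Lib.MP_1446ad_nt.EX.CHA
import Pool.Agent.Lib.MP_1446ad_nt.EX.CHB
import Pool.Agent.Lib.MP_1446ad_nt.EX.CNT
import Pool.Agent.Lib.MP_1446ad_nt.EX.DYD
import Pool.Agent.Lib.MP_1446ad_nt.EX.END
import Pool.Agent.Lib.MP_1446ad_nt.EX.ERR
import Pool.Agent.Lib.MP_1446ad_nt.EX.EVA
import Pool.Agent.Lib.MP_1446ad_nt.EX.FNX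
import Pool.Agent.Lib.MP_1446ad_nt.EX.IVX
import Pool.Agent.Lib.MP_1446ad_nt.EX.PRW
import Pool.Agent.Lib.MP_1446ad_nt.EX.RED
import Pool.Agent.Lib.MP_1446ad_nt.EX.TRV
import Pool.Agent.Lib.MP_1446ad_nt.EX.WDX
import Pool.Agent.Lib.MP_1446ad_nt.SM.DIV
import Pool.Agent.Lib.MP_1446ad_nt.SM.PIG
import Pool.Agent.Lib.MP_1446ad_nt.SM.MRA
import Pool.Agent.Lib.MP_1446ad_nt.SM.MRB
import Pool.Agent.Lib.MP_1446ad_nt.SM.NSM

/-!
# MP_1446ad_nt, part EX: assembly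
-/

set_option autoImplicit false

namespace Pool.Agent.Lib.MP_1446ad_nt.EX

open Pool.Agent.Lib.MP_1446ad_nt.SM (specDIV specPIG specMRA specMRB specNSM)

theorem allERR : SpecERR := specERR (specRED specCHA specCHB) specBL1 specBL2 specDYD

theorem allEVA : SpecEVA := specEVA allERR specDIV

theorem allASX : SpecASX := specASX allEVA specTRV (specEND specCNT) specPRW
  (specWDX specPRW specPIG) specIVX specDIV (specNSM (specMRB specMRA))

theorem allFNX : SpecFNX := specFNX allASX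

end Pool.Agent.Lib.MP_1446ad_nt.EX
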