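import Pool.Agent.Lib.MP_1446ad_nt.EX.Spec

/-!
# FNX: the final theorem
-/

set_option autoImplicit false

namespace Pool.Agent.Lib.MP_1446ad_nt.EX

open Finset Filter
open scoped Classical

namespace FNXM

lemma rep_mono {y z : ℝ} {n : ℕ} (h : y ≤ z) (hr : Rep y n) : Rep z n := by
  obtain ⟨a, b, ha, hb, hab, h1, h2⟩ := hr
  exact ⟨a, b, ha, hb, hab, fun p hp hd => (h1 p hp hd).trans h,
    fun p hp hd => (h2 p hp hd).trans h⟩

/-- the recursion over the scales -/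
lemma recur {β mu : ℝ} (hβ : 0 < β) (hmu : 0 < mu) (M0 : ℕ) (Bd : Finset ℕ) (N : ℕ)
    (h1 : ∀ n ∈ Bd, 1 ≤ n)
    (hA : ∀ M : ℕ, M0 ≤ M → 1 ≤ M → M ≤ N →
      ((Bd.filter (fun n : ℕ => n ≤ M ∧ (M : ℝ) < (1 + mu) * n)).card : ℝ) ≤ (M : ℝ) ^ β) :
    ∀ M : ℕ, M ≤ N → ((Bd.filter (fun n => n ≤ M)).card : ℝ) ≤
      M0 + 1 / (1 - (1 + mu) ^ (-β)) * (M : ℝ) ^ β := by
  have hmu1 : (1 : ℝ) < 1 + mu := by linarith
  have hq : (1 + mu) ^ (-β) < 1 := Real.rpow_lt_one_of_one_lt_of_neg hmu1 (neg_lt_zero.mpr hβ)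
  have hq0 : 0 < 1 - (1 + mu) ^ (-β) := by linarith
  set C1 := 1 / (1 - (1 + mu) ^ (-β)) with hC1
  have hC1p : 0 < C1 := one_div_pos.mpr hq0
  have hC1e : C1 * (1 + mu) ^ (-β) + 1 = C1 := by
    have : C1 * (1 - (1 + mu) ^ (-β)) = 1 := by
      rw [hC1]
      exact one_div_mul_cancel hq0.ne'
    linarith
  intro M
  induction M using Nat.strong_induction_on with
  | _ M ih =>
    intro hMN
    have hp : (0 : ℝ) ≤ (M : ℝ) ^ β := Real.rpow_nonneg (Nat.cast_nonneg M) β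
    by_cases hM : M0 ≤ M ∧ 1 ≤ M
    · obtain ⟨hM0, hM1⟩ := hM
      have hMr : (1 : ℝ) ≤ M := by exact_mod_cast hM1
      have hdiv : (M : ℝ) / (1 + mu) < M := div_lt_self (by linarith) hmu1
      have hd0 : (0 : ℝ) ≤ (M : ℝ) / (1 + mu) := by positivity
      set M' := ⌊(M : ℝ) / (1 + mu)⌋₊ with hM'
      have hle : (M' : ℝ) ≤ (M : ℝ) / (1 + mu) := Nat.floor_le hd0
      have hlt : M' < M := by
        have : (M' : ℝ) < M := lt_of_le_of_lt hle hdiv
        exact_mod_cast this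
      have h3 := ih M' hlt (hlt.le.trans hMN)
      have h4 := hA M hM0 hM1 hMN
      have hsub : Bd.filter (fun n => n ≤ M) ⊆ Bd.filter (fun n => n ≤ M') ∪
          Bd.filter (fun n : ℕ => n ≤ M ∧ (M : ℝ) < (1 + mu) * n) := by
        intro n hn
        obtain ⟨hnB, hnM⟩ := Finset.mem_filter.mp hn
        by_cases hnM' : n ≤ M'
        · exact Finset.mem_union_left _ (Finset.mem_filter.mpr ⟨hnB, hnM'⟩)
        · refine Finset.mem_union_right _ (Finset.mem_filter.mpr ⟨hnB, hnM, ?_⟩)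
          have h5 : (M : ℝ) / (1 + mu) < n := (Nat.floor_lt hd0).mp (not_le.mp hnM')
          rw [div_lt_iff₀ (by linarith)] at h5
          linarith
      have h6 : ((Bd.filter (fun n => n ≤ M)).card : ℝ) ≤
          ((Bd.filter (fun n => n ≤ M')).card : ℝ) +
          ((Bd.filter (fun n : ℕ => n ≤ M ∧ (M : ℝ) < (1 + mu) * n)).card : ℝ) := by
        exact_mod_cast (Finset.card_le_card hsub).trans (Finset.card_union_le _ _)
      have h7 : (M' : ℝ) ^ β ≤ (1 + mu) ^ (-β) * (M : ℝ) ^ β := by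
        refine (Real.rpow_le_rpow (Nat.cast_nonneg _) hle hβ.le).trans ?_
        rw [Real.div_rpow (Nat.cast_nonneg _) (by linarith), Real.rpow_neg (by linarith),
          div_eq_inv_mul]
      have h8 : C1 * (M' : ℝ) ^ β ≤ C1 * ((1 + mu) ^ (-β) * (M : ℝ) ^ β) :=
        mul_le_mul_of_nonneg_left h7 hC1p.le
      have h9 : C1 * (M : ℝ) ^ β = C1 * ((1 + mu) ^ (-β) * (M : ℝ) ^ β) + (M : ℝ) ^ β := by
        nth_rewrite 1 [← hC1e]
        ring
      linarith
    · have h2 : M ≤ M0 := by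
        by_contra h
        exact hM ⟨by omega, by omega⟩
      have h3 : (Bd.filter (fun n => n ≤ M)).card ≤ M := by
        have h4 : Bd.filter (fun n => n ≤ M) ⊆ Finset.Icc 1 M := by
          intro n hn
          obtain ⟨hnB, hnM⟩ := Finset.mem_filter.mp hn
          exact Finset.mem_Icc.mpr ⟨h1 n hnB, hnM⟩
        refine (Finset.card_le_card h4).trans ?_
        rw [Nat.card_Icc]
        omega
      have h5 : ((Bd.filter (fun n => n ≤ M)).card : ℝ) ≤ M0 := by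
        exact_mod_cast h3.trans h2
      have h6 : 0 ≤ C1 * (M : ℝ) ^ β := mul_nonneg hC1p.le hp
      linarith

end FNXM

open FNXM in
/-- **FNX** -/
theorem specFNX (hASX : SpecASX) : SpecFNX := by
  intro ε δ hε hδ
  set s := √(Real.exp 1) with hs
  have hs1 : 1 < s := by
    rw [hs]
    refine Real.lt_sqrt_of_sq_lt ?_
    rw [one_pow]
    exact Real.one_lt_exp_iff.mpr one_pos
  have hs0 : 0 < s := by linarith
  have hlog : Real.log s = 1 / 2 := by
    rw [hs, Real.log_sqrt (Real.exp_pos 1).le, Real.log_exp]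
  set m := min (s * ε) (1 / 2) with hm
  have hm0 : 0 < m := lt_min (mul_pos hs0 hε) (by norm_num)
  have hm1 : m ≤ s * ε := min_le_left _ _
  have hm2 : m ≤ 1 / 2 := min_le_right _ _
  set δ' := min δ m with hδ'
  have hd0 : 0 < δ' := lt_min hδ hm0
  have hd1 : δ' ≤ δ := min_le_left _ _
  have hd2 : δ' ≤ m := min_le_right _ _
  set κ := m - δ' / 4 with hκ
  have hκ0 : 0 < κ := by linarith
  have hκ1 : κ < 1 / 2 := by linarith
  have hκm : κ < m := by linarith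
  set β := 1 - 2 * κ + δ' / 2 with hβ
  have hmax : max 0 (1 - 2 * s * ε) = 1 - 2 * m := by
    rw [hm]
    rcases le_total (s * ε) (1 / 2) with h | h
    · rw [min_eq_left h, max_eq_right (by linarith)]
      ring
    · rw [min_eq_right h, max_eq_left (by linarith)]
      norm_num
  have hβe : β = max 0 (1 - 2 * s * ε) + δ' := by
    rw [hmax, hβ, hκ]
    ring
  have hβ0 : 0 < β := by
    rw [hβe]
    have := le_max_left (0 : ℝ) (1 - 2 * s * ε)
    linarith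
  obtain ⟨θ, hθ1, hθ2⟩ := exists_between (show κ / s < min κ (m / s) from
    lt_min (div_lt_self hκ0 hs1) ((div_lt_div_iff_of_pos_right hs0).mpr hκm))
  have hθκ : θ < κ := hθ2.trans_le (min_le_left _ _)
  have hθε : θ < ε := by
    refine (hθ2.trans_le (min_le_right _ _)).trans_le ?_
    rw [div_le_iff₀ hs0]
    linarith
  have hθ0 : 0 < θ := (div_pos hκ0 hs0).trans hθ1
  have hlk : Real.log (κ / θ) < 1 / 2 := by
    rw [← hlog]
    refine Real.log_lt_log (div_pos hκ0 hθ0) ?_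
    rw [div_lt_iff₀ hs0] at hθ1
    rw [div_lt_iff₀ hθ0]
    linarith
  obtain ⟨mu, hmu0, _, hev⟩ := hASX θ κ (δ' / 2) hθ0 hθκ hκ1 hlk (by linarith)
  obtain ⟨M0, hM0⟩ := Filter.eventually_atTop.mp hev
  have hq : (1 + mu) ^ (-β) < 1 :=
    Real.rpow_lt_one_of_one_lt_of_neg (by linarith) (neg_lt_zero.mpr hβ0)
  have hC1p : 0 < 1 / (1 - (1 + mu) ^ (-β)) := one_div_pos.mpr (by linarith)
  refine ⟨M0 + 1 / (1 - (1 + mu) ^ (-β)), fun N hN => ?_⟩
  have hNr : (1 : ℝ) ≤ N := by exact_mod_cast hN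
  set Bd := (Icc 2 N).filter (fun n => ¬ Rep ((N : ℝ) ^ ε) n) with hBd
  have hB1 : ∀ n ∈ Bd, 1 ≤ n := by
    intro n hn
    have := (Finset.mem_Icc.mp (Finset.mem_filter.mp hn).1).1
    omega
  have hA : ∀ M : ℕ, M0 ≤ M → 1 ≤ M → M ≤ N →
      ((Bd.filter (fun n : ℕ => n ≤ M ∧ (M : ℝ) < (1 + mu) * n)).card : ℝ) ≤ (M : ℝ) ^ β := by
    intro M h1 h2 h3
    by_contra hcon
    obtain ⟨n, hn, hr⟩ := hM0 M h1 (Bd.filter (fun n : ℕ => n ≤ M ∧ (M : ℝ) < (1 + mu) * n))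
      (fun n hn => (Finset.mem_filter.mp hn).2) (not_le.mp hcon).le
    have hMr : (1 : ℝ) ≤ M := by exact_mod_cast h2
    have h4 : (M : ℝ) ^ θ ≤ (N : ℝ) ^ ε :=
      (Real.rpow_le_rpow (by linarith) (by exact_mod_cast h3) hθ0.le).trans
        (Real.rpow_le_rpow_of_exponent_le hNr hθε.le)
    exact (Finset.mem_filter.mp (Finset.mem_filter.mp hn).1).2 (rep_mono h4 hr)
  have h5 := recur hβ0 hmu0 M0 Bd N hB1 hA N le_rfl
  have h6 : Bd.filter (fun n => n ≤ N) = Bd := by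
    refine Finset.filter_true_of_mem fun n hn => ?_
    exact (Finset.mem_Icc.mp (Finset.mem_filter.mp hn).1).2
  rw [h6] at h5
  have h7 : (1 : ℝ) ≤ (N : ℝ) ^ β := Real.one_le_rpow hNr hβ0.le
  have h8 : (N : ℝ) ^ β ≤ (N : ℝ) ^ (max 0 (1 - 2 * s * ε) + δ) := by
    refine Real.rpow_le_rpow_of_exponent_le hNr ?_
    rw [hβe]
    linarith
  have h9 : (M0 : ℝ) ≤ M0 * (N : ℝ) ^ β := le_mul_of_one_le_right (Nat.cast_nonneg _) h7
  have h10 : (0 : ℝ) ≤ M0 + 1 / (1 - (1 + mu) ^ (-β)) := add_nonneg (Nat.cast_nonneg _) hC1p.le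
  have h11 := mul_le_mul_of_nonneg_left h8 h10
  refine le_trans ?_ h11
  rw [add_mul]
  linarith

end Pool.Agent.Lib.MP_1446ad_nt.EX
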