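import Pool.Agent.Lib.MP_1446ad_nt.SM.SpecF
import Pool.Agent.Lib.BVS.Spec

/-!
# MP_1446ad_nt (sums of two smooth numbers), part EX: few exceptions for every exponent

THEOREM (`SpecFNX`). For all `ε, δ > 0` all but `C N^(max(0, 1 - 2 √e ε) + δ)` of the integers `n ≤ N` are
sums of two positive integers all of whose prime factors are at most `N^ε`.

METHOD. Let `W` be a set of products of `j` primes from one window `(X, (1+ν)X]`, `X` about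
`N^((1-κ)/j)`, so `W ⊂ (V, (1+μ)V]`, `V = X^j` about `N^(1-κ)`, `κ < min(√e ε, 1/2)`; let `A` be a set of at
least `N^(1-2κ+η)` integers in `(N/(1+μ), N]`. Count `k m + r s = n`, `n ∈ A`, `m, r ∈ W`, `k ∈ K`,
`s ∈ Ss` (intervals around `x = N/(2V)`). With modulus `r` the congruence `k m ≡ n (mod r)` is expanded in characters;
the large sieve for the primitive characters of the conductors `d ∈ (z, 2V]` (all divisors `≠ 1` of elements of `W` are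
large!) bounds the error on average over `A` by `|A| N^(1-σ)` (ERR, EVA). The same with the bad `k` (a prime factor
`> N^θ`; their proportion is at most `log(κ/θ) + o(1) < 1/2`) and, modulus `m`, the bad `s`. So for some `n ∈ A` there is
a solution with `k`, `s` good (CNT, END, ASX). FNX: cover `[1, N]` by intervals.

Every Spec is a closed proposition; its doc string contains a complete elementary proof. Module `XXX`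
= file `EX/XXX.lean`, importing `Pool.Agent.Lib.MP_1446ad_nt.EX.Spec` (and the landed files named in the doc string),
namespace `Pool.Agent.Lib.MP_1446ad_nt.EX`, theorem `specXXX (hYYY : SpecYYY) .. : SpecXXX`, the hypotheses in the
order of USES, own lemmas in the namespace `Pool.Agent.Lib.MP_1446ad_nt.EX.XXXM`.
-/

set_option autoImplicit false

namespace Pool.Agent.Lib.MP_1446ad_nt.EX

open Finset Filter
open scoped Classical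
open Pool.Agent.Lib.BVS (psum)
open Pool.Agent.Lib.MP_1446ad_nt.SM (tau SpecDIV SpecPIG SpecNSM)

/-! ## Definitions -/

/-- The number of the pairs `(k, m) ∈ K × W` with `k m ≡ n (mod r)`. -/
noncomputable def cnt (K W : Finset ℕ) (n r : ℕ) : ℝ :=
  (((K ×ˢ W).filter (fun t : ℕ × ℕ => t.1 * t.2 ≡ n [MOD r])).card : ℝ)

/-- The number of the pairs `(k, m) ∈ K × W` with `k m` coprime to `r`. -/
noncomputable def cop (K W : Finset ℕ) (r : ℕ) : ℝ :=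
  (((K ×ˢ W).filter (fun t : ℕ × ℕ => (t.1 * t.2).Coprime r)).card : ℝ)

/-- The error for the modulus `r`. -/
noncomputable def er (A K W : Finset ℕ) (r : ℕ) : ℝ :=
  ∑ n ∈ A.filter (fun n => n.Coprime r), (cnt K W n r - cop K W r / (r.totient : ℝ))

/-- The total error. -/
noncomputable def ER (A K W : Finset ℕ) : ℝ := ∑ r ∈ W, er A K W r

/-- The character sum over a finite set. -/
noncomputable def cs (S : Finset ℕ) {q : ℕ} (χ : DirichletCharacter ℂ q) : ℂ :=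
  ∑ u ∈ S, χ (u : ZMod q)

/-- The elements of `S` coprime to `g`. -/
noncomputable def cg (g : ℕ) (S : Finset ℕ) : Finset ℕ := S.filter (fun u => u.Coprime g)

/-- The sum over the primitive characters modulo `d` of the product of three character sums. -/
noncomputable def TQ (A K W : Finset ℕ) (d : ℕ) : ℝ :=
  psum d (fun χ => ‖cs A χ‖ * ‖cs K χ‖ * ‖cs W χ‖)

/-- The primes in `(X, (1+ν) X]`. -/
noncomputable def PX (ν : ℝ) (X : ℕ) : Finset ℕ :=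
  (Ioc X (2 * X)).filter (fun p : ℕ => p.Prime ∧ (p : ℝ) ≤ (1 + ν) * X)

/-- The products of `j` primes of `PX`. -/
noncomputable def PW (ν : ℝ) (X j : ℕ) : Finset ℕ :=
  (Fintype.piFinset (fun _ : Fin j => PX ν X)).image (fun f => ∏ i, f i)

/-- `n` is a sum of two positive integers with all prime factors `≤ y`. -/
def Rep (y : ℝ) (n : ℕ) : Prop :=
  ∃ a b : ℕ, 0 < a ∧ 0 < b ∧ a + b = n ∧
    (∀ p : ℕ, p.Prime → p ∣ a → (p : ℝ) ≤ y) ∧ (∀ p : ℕ, p.Prime → p ∣ b → (p : ℝ) ≤ y)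

/-! ## The error term -/

/-- **CHA** (130 lines). Orthogonality. Import `Pool.Agent.Lib.SW.SWA` (`SW.SWAM.orth`); model: `SPLM.main` in
`Pool/Agent/Lib/BVS/SPL.lean`.

PROOF. Let `S` be the image of `K × W` under `(k, m) ↦ k m` and `w(u) = #{(k, m) : k m = u}`. Then
`∑_{u ∈ S} w(u) χ(u) = cs K χ * cs W χ`, `∑_{u ∈ S, u ≡ n} w(u) = cnt K W n r`, and for the trivial character
`∑ w(u) 1(u) = cop K W r`. For `n` coprime to `r`, `SWAM.orth` gives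
`φ(r) cnt K W n r = ∑_χ χ(n⁻¹) cs K χ cs W χ`, the term `χ = 1` is `cop K W r`. So
`φ(r) er A K W r = ∑_{χ ≠ 1} (∑_{n ∈ A, (n,r)=1} χ(n⁻¹)) cs K χ cs W χ`. Finally `χ(n⁻¹)` is the complex conjugate of
`χ(n)` for `n` coprime to `r`, and `χ(n) = 0` otherwise, so the norm of the inner sum is `‖cs A χ‖`. -/
def SpecCHA : Prop := ∀ (A K W : Finset ℕ) (r : ℕ) [NeZero r],
  |er A K W r| ≤ (∑ χ ∈ (univ : Finset (DirichletCharacter ℂ r)).filter (fun χ => χ ≠ 1),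
    ‖cs A χ‖ * ‖cs K χ‖ * ‖cs W χ‖) / (r.totient : ℝ)

/-- **CHB** (110 lines). Reduction to primitive characters. Import `Pool.Agent.Lib.MP_391708_nt.QPA.BDHChar`
(`BDH.exists_prim`, `BDH.changeLevel_apply`, `BDH.char_zero`); model: `SPLM.fiber`, `SPLM.total` in
`Pool/Agent/Lib/BVS/SPL.lean`.

PROOF. Partition the `χ ≠ 1` by the conductor `d ∣ r`, `d ≠ 1`; the `χ` with conductor `d` are the
`changeLevel ψ` of (some) primitive `ψ` modulo `d`, injectively. For `S ∈ {A, K, W}`: `changeLevel ψ (u) = ψ(u)` if `u` is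
coprime to `r` and `0` otherwise; for `u` coprime to `r/d` but not to `r = d (r/d)`, `u` is not coprime to `d` and `ψ(u) = 0`.
So `cs S (changeLevel ψ) = cs (cg (r/d) S) ψ`. The terms are `≥ 0`: enlarge to all primitive `ψ`. -/
def SpecCHB : Prop := ∀ (A K W : Finset ℕ) (r : ℕ) [NeZero r],
  ∑ χ ∈ (univ : Finset (DirichletCharacter ℂ r)).filter (fun χ => χ ≠ 1),
    ‖cs A χ‖ * ‖cs K χ‖ * ‖cs W χ‖ ≤
  ∑ d ∈ r.divisors.filter (fun d => d ≠ 1), TQ (cg (r / d) A) (cg (r / d) K) (cg (r / d) W) d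

/-- **RED** (100 lines), USES CHA, CHB.

PROOF. `|ER| ≤ ∑_{r ∈ W} (1/φ(r)) ∑_{d ∣ r, d ≠ 1} TQ (cg (r/d) ..) d`. Put `g = r/d`. `d ≠ 1` has a prime factor,
which divides `r`, so `d > z`; `d, g ≤ r ≤ X`; `φ(r) = φ(d g) ≥ φ(d) φ(g)` (`Nat.totient_super_multiplicative`). The map
`(r, d) ↦ (g, d)` is injective (`r = d g`) and all terms are `≥ 0`: extend the sum to all `g ∈ [1, X]`, `d ∈ (z, X]`. -/
def SpecRED : Prop := ∀ (A K W : Finset ℕ) (z X : ℕ), (∀ r ∈ W, 1 ≤ r ∧ r ≤ X) →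
  (∀ r ∈ W, ∀ p : ℕ, p.Prime → p ∣ r → z < p) →
  |ER A K W| ≤ ∑ g ∈ Icc 1 X, 1 / (g.totient : ℝ) *
    ∑ d ∈ Ioc z X, TQ (cg g A) (cg g K) (cg g W) d / (d.totient : ℝ)

/-- **BL1** (120 lines). Large conductors. Import `Pool.Agent.Lib.BVS.LSP` (`BVS.specLSP`, proved without hypotheses) and
`Pool.Agent.Lib.BVS.BILP` (for `BILPM.cs`, `BILPM.psum_mono`; or copy them).

PROOF. By Cauchy-Schwarz (`BILPM.cs`) the sum is at most `√(∑∑* ‖cs A χ‖²) √(∑∑* ‖cs K χ cs W χ‖²)`. LSP with the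
indicator function of `A` (length `N`): the first sum is `≤ C₀ (N + R²) |A|`. `cs K χ * cs W χ = ∑_{u ≤ K1 M1} b_u χ(u)`,
`b_u = #{(k, m) ∈ K × W : k m = u} ≤ τ(u) ≤ T` and `∑ b_u = |K| |W| ≤ K1 M1`, so `∑ b_u² ≤ T K1 M1`. LSP: the second sum is
`≤ C₀ (K1 M1 + R²) T K1 M1`. Finally `√(N + R²) √(K1 M1 + R²) ≤ N + K1 M1 + R²`. -/
def SpecBL1 : Prop := ∃ C : ℝ, 0 < C ∧ ∀ (A K W : Finset ℕ) (N K1 M1 R : ℕ) (T : ℝ),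
  1 ≤ N → 1 ≤ K1 → 1 ≤ M1 → 1 ≤ R →
  (∀ n ∈ A, 1 ≤ n ∧ n ≤ N) → (∀ k ∈ K, 1 ≤ k ∧ k ≤ K1) → (∀ m ∈ W, 1 ≤ m ∧ m ≤ M1) →
  (∀ u : ℕ, 1 ≤ u → u ≤ K1 * M1 → tau u ≤ T) →
  ∑ d ∈ Ioc R (2 * R), TQ A K W d ≤
    C * ((N : ℝ) + K1 * M1 + (R : ℝ) ^ 2) * √(T * A.card * (K1 * M1))

/-- **BL2** (80 lines). Small conductors. Imports as in BL1.

PROOF. `‖cs A χ‖ ≤ |A|`. Cauchy-Schwarz and LSP for the indicator functions of `K` (length `K1`) and `W` (length `M1`):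
`∑∑* ‖cs K χ‖ ‖cs W χ‖ ≤ √(C₀ (K1 + R²) K1) √(C₀ (M1 + R²) M1)`, and `√(K1 + R²) ≤ √K1 + R`. -/
def SpecBL2 : Prop := ∃ C : ℝ, 0 < C ∧ ∀ (A K W : Finset ℕ) (K1 M1 R : ℕ),
  1 ≤ K1 → 1 ≤ M1 → 1 ≤ R →
  (∀ k ∈ K, 1 ≤ k ∧ k ≤ K1) → (∀ m ∈ W, 1 ≤ m ∧ m ≤ M1) →
  ∑ d ∈ Ioc R (2 * R), TQ A K W d ≤
    C * A.card * √((K1 : ℝ) * M1) * ((√(K1 : ℝ) + R) * (√(M1 : ℝ) + R))

/-- **DYD** (120 lines). The dyadic decomposition. Import `Pool.Agent.Lib.BVS.TOT` (`TOTM.one`: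
`1/φ(n) ≤ 2 (1 + log n)/n`); model: `specDYA` in `Pool/Agent/Lib/BVS/DYA.lean`.

PROOF. We may assume `F d = 0` for `d > D` or just estimate more. For `d ∈ (R, 2R]`, `R ≤ D`:
`1/φ(d) ≤ 2 (1 + log 2R)/R ≤ 4 (1 + log D)/R`, so a block contributes at most
`4 (1 + log D) (α/R + β + γ R)`. `(Z, D]` is covered by the blocks with `R = 2^i Z ≤ D`; `∑ 1/R ≤ 2/Z`, `∑ R ≤ 2 D`
(the largest `R` is `≤ D`), and their number is at most `1 + log D/log 2 ≤ 2 (1 + log D)`. -/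
def SpecDYD : Prop := ∀ (F : ℕ → ℝ) (Z D : ℕ) (α β γ : ℝ), (∀ d, 0 ≤ F d) → 1 ≤ Z → Z ≤ D →
  0 ≤ α → 0 ≤ β → 0 ≤ γ →
  (∀ R : ℕ, Z ≤ R → R ≤ D → ∑ d ∈ Ioc R (2 * R), F d ≤ α + β * R + γ * (R : ℝ) ^ 2) →
  ∑ d ∈ Ioc Z D, F d / (d.totient : ℝ) ≤ 8 * (1 + Real.log D) ^ 2 * (α / Z + β + γ * D)

/-- **ERR** (120 lines), USES RED, BL1, BL2, DYD. Import `Pool.Agent.Lib.BVS.TOT` (`TOTM.sum_tot`).

PROOF. RED with `X = M1`. For every `g` apply BL1, BL2 to `cg g A`, `cg g K`, `cg g W` (subsets, so the cardinality of the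
first is at most `|A|`). DYD on `(z, Y]` with `α = C|A|K1 M1`, `β = C|A| √(K1 M1) (√K1 + √M1)`, `γ = C|A| √(K1 M1)`; on
`(Y, M1]` with `α = C (N + K1 M1) Q`, `β = 0`, `γ = C Q`, `Q = √(T |A| K1 M1)`. `1 + log Y ≤ 1 + log M1`,
`∑_{g ≤ M1} 1/φ(g) ≤ 2 (1 + log M1)²`. -/
def SpecERR : Prop := ∃ C : ℝ, 0 < C ∧ ∀ (A K W : Finset ℕ) (N K1 M1 z Y : ℕ) (T : ℝ),
  1 ≤ N → 1 ≤ K1 → 1 ≤ z → z ≤ Y → Y ≤ M1 →
  (∀ n ∈ A, 1 ≤ n ∧ n ≤ N) → (∀ k ∈ K, 1 ≤ k ∧ k ≤ K1) → (∀ m ∈ W, 1 ≤ m ∧ m ≤ M1) →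
  (∀ m ∈ W, ∀ p : ℕ, p.Prime → p ∣ m → z < p) →
  (∀ u : ℕ, 1 ≤ u → u ≤ K1 * M1 → tau u ≤ T) →
  |ER A K W| ≤ C * (1 + Real.log M1) ^ 4 *
    (A.card * √((K1 : ℝ) * M1) * (√((K1 : ℝ) * M1) / z + √(K1 : ℝ) + √(M1 : ℝ) + Y) +
      √(T * A.card * (K1 * M1)) * (((N : ℝ) + K1 * M1) / Y + M1))

/-- **EVA** (180 lines), USES ERR, DIV (`SM.SpecDIV`). The error for large `N`.

PROOF. `σ = min(a, κ, 1/2 - κ, η)/8`. ERR with `K1 = ⌊N^κ⌋`, `M1 = ⌊B N^(1-κ)⌋`, `z = ⌈N^a⌉ - 1`, `Y = ⌊N^κ⌋`,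
`T = N^σ` (DIV: `K1 M1 ≤ B N ≤ N³`); for large `N`: `z ≥ N^a/2`, `Y ≥ N^κ/2`, `1 ≤ z ≤ Y ≤ M1` (`a < κ < 1/2`),
`C (1 + log M1)^4 ≤ N^σ`. First part: `√(K1 M1) ≤ √(B N)`, so it is at most
`|A| √(B N) (2 √(B N) N^(-a) + N^(κ/2) + √B N^((1-κ)/2) + N^κ)
≤ 2 B |A| (N^(1-a) + N^(1/2+κ/2) + N^(1-κ/2) + N^(1/2+κ)) ≤ 8 B |A| N^(1-4σ)`, because
`a ≥ 8σ`, `(1-κ)/2 ≥ 1/4 ≥ 4σ`, `κ/2 ≥ 4σ`, `1/2-κ ≥ 8σ`. Second part: `√|A| ≥ N^(1/2-κ+η/2)`, so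
`N^(1/2-κ) ≤ √|A| N^(-4σ)` and
`√(T |A| B N) ((N + B N) 2 N^(-κ) + B N^(1-κ)) ≤ √|A| N^(σ/2) √B N^(1/2) 5 B N^(1-κ)
≤ 5 B² |A| N^(1 + σ/2 - 4σ)`. Total with the factor `N^σ`: at most `13 B² |A| N^(1 - 5σ/2) ≤ |A| N^(1-σ)`. -/
def SpecEVA : Prop := ∀ κ a η B : ℝ, 0 < κ → κ < 1 / 2 → 0 < a → a < κ → 0 < η → 1 ≤ B →
  ∃ σ : ℝ, 0 < σ ∧ ∀ᶠ N : ℕ in atTop, ∀ A K W : Finset ℕ,
    (∀ n ∈ A, 1 ≤ n ∧ n ≤ N) → (N : ℝ) ^ (1 - 2 * κ + η) ≤ (A.card : ℝ) →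
    (∀ k ∈ K, 1 ≤ k ∧ (k : ℝ) ≤ (N : ℝ) ^ κ) →
    (∀ m ∈ W, 1 ≤ m ∧ (m : ℝ) ≤ B * (N : ℝ) ^ (1 - κ)) →
    (∀ m ∈ W, ∀ p : ℕ, p.Prime → p ∣ m → (N : ℝ) ^ a ≤ p) →
    |ER A K W| ≤ A.card * (N : ℝ) ^ (1 - σ)

/-! ## The counting argument -/

/-- **TRV** (60 lines). The elements with a common factor.

PROOF. For such an `s` there is a prime `p` dividing `s` and `n`, so `p > z`. The number of the prime factors of `n` is at most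
`L` (`2^ω ≤ ∏ p ≤ n < 2^L`), and at most `X/p ≤ X/z` of the `s ∈ [1, X]` are divisible by `p`. -/
def SpecTRV : Prop := ∀ (S : Finset ℕ) (X n z L : ℕ), (∀ s ∈ S, 1 ≤ s ∧ s ≤ X) → 1 ≤ z →
  (∀ s ∈ S, ∀ p : ℕ, p.Prime → p ∣ s → p ∣ n → z < p) → 1 ≤ n → n < 2 ^ L →
  ((S.filter (fun s => ¬ s.Coprime n)).card : ℝ) ≤ L * X / z

/-- **CNT** (150 lines). The triples.

PROOF. The left side is the number of the quadruples `(n, r, k, m)`, `n ∈ A`, `r ∈ W`, `(n, r) = 1`, `k ∈ K`, `m ∈ W`,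
`k m ≡ n (mod r)`; as `k m < n` this means `r ∣ n - k m`. Put `s = (n - k m)/r ∈ Ss`; `k m + r s = n`, so `bad k` or
`bad s`. The quadruples with `bad k` are counted in the first sum on the right. If `bad s` and `(n, m) = 1`: then
`(n, m, (s, r))` is counted in the second sum (`s r + k m = n` gives `s r ≡ n (mod m)`), and `(n, r, k, m) ↦ (n, m, s, r)` is
injective (`m > 0`, `k = (n - s r)/m`). The quadruples with `(n, m) ≠ 1`: for given `n` at most `Q` values of `m`, at most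
`|K|` values of `k`, at most `T` values of `r`. -/
def SpecCNT : Prop := ∀ (A K Ss W : Finset ℕ) (bad : ℕ → Prop) (Q T : ℝ), 0 ≤ Q → 0 ≤ T →
  (∀ r ∈ W, 0 < r) → (∀ n ∈ A, ∀ k ∈ K, ∀ m ∈ W, k * m < n) →
  (∀ n ∈ A, ∀ k ∈ K, ∀ m ∈ W, ∀ r ∈ W, r ∣ n - k * m → (n - k * m) / r ∈ Ss) →
  (∀ n ∈ A, ∀ k ∈ K, ∀ s ∈ Ss, ∀ m ∈ W, ∀ r ∈ W, k * m + r * s = n → bad k ∨ bad s) →
  (∀ n ∈ A, ((W.filter (fun m => ¬ n.Coprime m)).card : ℝ) ≤ Q) →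
  (∀ n ∈ A, ∀ k ∈ K, ∀ m ∈ W, ((W.filter (fun r => r ∣ n - k * m)).card : ℝ) ≤ T) →
  ∑ r ∈ W, ∑ n ∈ A.filter (fun n => n.Coprime r), cnt K W n r ≤
    ∑ r ∈ W, ∑ n ∈ A.filter (fun n => n.Coprime r), cnt (K.filter bad) W n r +
    ∑ m ∈ W, ∑ n ∈ A.filter (fun n => n.Coprime m), cnt (Ss.filter bad) W n m +
    A.card * K.card * Q * T

/-- **END** (130 lines), USES CNT.

PROOF. `ER A K W = ∑_r ∑_n (cnt K W n r - cop K W r/φ(r))`, so CNT and the three bounds for `ER` give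
`∑_{r ∈ W} ∑_{n ∈ A, (n,r)=1} (cop K W r - cop Kbad W r - cop Sbad W r)/φ(r) ≤ 3 E + |A||K| Q T`. For `r ∈ W`:
`cop K W r ≥ |K||W| - q1 |W| - Q |K|` (the pairs with `(k, r) ≠ 1`, resp. `(m, r) ≠ 1`), `cop Kbad W r ≤ |Kbad||W|`,
`cop Sbad W r ≤ |Sbad||W|`, so the bracket is at least `H`, `0 ≤ H`. `1/φ(r) ≥ 1/r ≥ 1/X`; the number of the pairs `(n, r)`
with `(n, r) = 1` is at least `|A| (|W| - Q)`. -/
def SpecEND : Prop := ∀ (A K Ss W : Finset ℕ) (bad : ℕ → Prop) (Q T q1 E X H : ℝ),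
  0 ≤ Q → 0 ≤ T → 0 < X → 0 ≤ H →
  (∀ r ∈ W, 0 < r ∧ (r : ℝ) ≤ X) → (∀ n ∈ A, ∀ k ∈ K, ∀ m ∈ W, k * m < n) →
  (∀ n ∈ A, ∀ k ∈ K, ∀ m ∈ W, ∀ r ∈ W, r ∣ n - k * m → (n - k * m) / r ∈ Ss) →
  (∀ n ∈ A, ∀ k ∈ K, ∀ s ∈ Ss, ∀ m ∈ W, ∀ r ∈ W, k * m + r * s = n → bad k ∨ bad s) →
  (∀ n ∈ A, ((W.filter (fun m => ¬ n.Coprime m)).card : ℝ) ≤ Q) →
  (∀ n ∈ A, ∀ k ∈ K, ∀ m ∈ W, ((W.filter (fun r => r ∣ n - k * m)).card : ℝ) ≤ T) →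
  (∀ r ∈ W, ((K.filter (fun k => ¬ k.Coprime r)).card : ℝ) ≤ q1) →
  (∀ r ∈ W, ((W.filter (fun m => ¬ m.Coprime r)).card : ℝ) ≤ Q) →
  |ER A K W| ≤ E → |ER A (K.filter bad) W| ≤ E → |ER A (Ss.filter bad) W| ≤ E →
  H ≤ W.card * ((K.card : ℝ) - (K.filter bad).card - (Ss.filter bad).card) - q1 * W.card -
    Q * K.card →
  A.card * ((W.card : ℝ) - Q) * H ≤ X * (3 * E + A.card * K.card * Q * T)

/-! ## The windows -/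

/-- **PRW** (110 lines). The products.

PROOF. An element is `∏ f i` with primes `X < f i ≤ (1+ν) X ≤ 2X`: it is `> X^j` (`j ≥ 1`) and `≤ ((1+ν)X)^j`, and a prime
dividing it is one of the `f i`. The number of the functions `f` is `|PX|^j`. If `∏ f i = w` then every `f i` is a prime
factor of `w`, and `w` has at most `j` prime factors (they are among the `f₀ i` for one such `f₀`); so there are at most `j^j`
functions with product `w`. -/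
def SpecPRW : Prop := ∀ (ν : ℝ) (X j : ℕ), 0 < ν → ν ≤ 1 → 1 ≤ X → 1 ≤ j →
  (∀ m ∈ PW ν X j, X ^ j < m ∧ (m : ℝ) ≤ (1 + ν) ^ j * (X : ℝ) ^ j ∧
    ∀ p : ℕ, p.Prime → p ∣ m → X < p ∧ p ≤ 2 * X) ∧
  (PX ν X).card ^ j ≤ j ^ j * (PW ν X j).card

/-- **WDX** (90 lines), USES PRW, PIG (`SM.SpecPIG`).

PROOF. PIG with `x = N^a`, `a ≤ 1`: `|PX ν X| ≥ c N^a/(a log N) ≥ c N^a/log N`, `N^a ≤ X ≤ 8 N^a`. So
`|PW| ≥ (c N^a/(j log N))^j ≥ (c X/(8 j log N))^j ≥ X^j/(log N)^(2j)` as soon as `log N ≥ 8 j/c`. -/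
def SpecWDX : Prop := ∀ (ν a : ℝ) (j : ℕ), 0 < ν → ν ≤ 1 → 0 < a → a ≤ 1 → 1 ≤ j →
  ∀ᶠ N : ℕ in atTop, ∃ X : ℕ, (N : ℝ) ^ a ≤ X ∧ (X : ℝ) ≤ 8 * (N : ℝ) ^ a ∧
    (X : ℝ) ^ j ≤ Real.log N ^ (2 * j) * ((PW ν X j).card : ℝ)

/-- **IVX** (150 lines). The intervals.

PROOF. `x = N/(2V)`. `k1 = ⌈x⌉`, `k2 = ⌊(1+lam)x⌋`, `S = ⌊(1-lam-6mu)x⌋`, `S' = ⌈x⌉`. The
four estimates of the lengths are clear. Let `V < m, r ≤ (1+mu)V`. For `k ∈ (k1, k2]`: `x < k ≤ (1+lam)x`, so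
`N/2 = x V < k m ≤ (1+lam)(1+mu) N/2 < N/(1+mu) < n`. If `r ∣ n - k m`, `s = (n - k m)/r`:
`s r = n - k m < N/2 = x V < x r`, so
`s < x ≤ S'`. And `s r > N/(1+mu) - (1+lam)(1+mu)N/2 ≥ (2 - 2mu - (1+lam)(1+mu)) N/2 = (1 - lam - 3mu - lam mu) N/2`, while
`(1-lam-6mu) x r ≤ (1-lam-6mu)(1+mu) N/2 = (1 - lam - 5mu - lam mu - 6mu²) N/2`, so `s > (1-lam-6mu)x ≥ S`. -/
def SpecIVX : Prop := ∀ (lam mu : ℝ) (N V : ℕ), 0 < lam → lam ≤ 1 / 100 → 0 < mu → mu ≤ 1 / 1000 →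
  0 < V → 10 / lam ≤ (N : ℝ) / (2 * V) → 10 / mu ≤ (N : ℝ) / (2 * V) →
  ∃ k1 k2 S S' : ℕ, k1 ≤ k2 ∧ S ≤ S' ∧
    (k2 : ℝ) ≤ 2 * ((N : ℝ) / (2 * V)) ∧ (S' : ℝ) ≤ 2 * ((N : ℝ) / (2 * V)) ∧
    lam * ((N : ℝ) / (2 * V)) - 2 ≤ (k2 : ℝ) - k1 ∧ (k2 : ℝ) - k1 ≤ lam * ((N : ℝ) / (2 * V)) ∧
    lam * ((N : ℝ) / (2 * V)) ≤ (S' : ℝ) - S ∧
    (S' : ℝ) - S ≤ (lam + 6 * mu) * ((N : ℝ) / (2 * V)) + 2 ∧
    ∀ n m r : ℕ, n ≤ N → (N : ℝ) < (1 + mu) * n → V < m → (m : ℝ) ≤ (1 + mu) * V →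
      V < r → (r : ℝ) ≤ (1 + mu) * V →
      (∀ k ∈ Ioc k1 k2, k * m < n) ∧
      (∀ k ∈ Ioc k1 k2, r ∣ n - k * m → (n - k * m) / r ∈ Ioc S S')

/-! ## The theorem -/

/-- **ASX** (300 lines, helper54), USES EVA, TRV, END, PRW, WDX, IVX, DIV, NSM. Large sets contain a representable number.

PROOF. `ε0 = min((1/2 - log(κ/θ))/4, 1/100)`, `lam = 1/100`, `mu = ε0 lam/2 ≤ 1/1000`; `j ≥ 1` with
`a := (1-κ)/j < min(θ, κ)`, `ν = mu/(2j)` (so `(1+ν)^j ≤ 1 + mu`). Windows from WDX: `X`, `W = PW ν X j`, `V = X^j`,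
`N^(1-κ) ≤ V ≤ 8^j N^(1-κ)`, `|W| ≥ V/ℓ^(2j)`, `ℓ = log N`; `x = N/(2V)`, `N^κ/(2·8^j) ≤ x ≤ N^κ/2`. Intervals
`K = (k1, k2]`, `Ss = (S, S']` from IVX; `K, Ss ⊂ [1, N^κ]`. `bad k`: `k` has a prime factor `> N^θ`. NSM (with the
constant `lam/(4·8^j)`): `|Kbad| ≤ (1/2 - 3ε0)|K|`, `|Sbad| ≤ (1/2 - 3ε0)|Ss|`, so
`|K| - |Kbad| - |Sbad| ≥ (1/2+3ε0)(lam x - 2) - (1/2-3ε0)((lam + 6mu)x + 2) ≥ 4 ε0 lam x`. Suppose no `n ∈ A` is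
representable with the primes `≤ N^θ` (those of `W` are `≤ 2X ≤ 16 N^a ≤ N^θ`), `a = k m`, `b = r s`. `L` = number of binary
digits of `N`, `L ≤ 3ℓ`. TRV: `Q = 2 L V/X`, `q1 = L N^κ/X`; DIV: `T = N^(a/4)`; EVA (`B = 2·8^j`): `E = |A| N^(1-σ)`;
`H = 2 ε0 lam x |W|` is allowed because `q1 ≤ ε0 lam x` and `Q |K| ≤ ε0 lam x |W|` for large `N` (`X ≥ N^a` beats the powers of
`ℓ`); `Q ≤ |W|/2`. END (`X := 2V`) gives
`|A| (|W|/2) 2 ε0 lam x |W| ≤ 2 V (3 |A| N^(1-σ) + |A| lam x (2 L V/X) N^(a/4))`; divide by `|A| V > 0`, `x V = N/2`: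
`ε0 lam N/(2 ℓ^(4j)) ≤ 6 N^(1-σ) + 2 lam L N^(1 - 3a/4)`: false for large `N`. -/
def SpecASX : Prop := ∀ θ κ η : ℝ, 0 < θ → θ < κ → κ < 1 / 2 → Real.log (κ / θ) < 1 / 2 → 0 < η →
  ∃ mu : ℝ, 0 < mu ∧ mu ≤ 1 / 1000 ∧ ∀ᶠ N : ℕ in atTop, ∀ A : Finset ℕ,
    (∀ n ∈ A, n ≤ N ∧ (N : ℝ) < (1 + mu) * n) → (N : ℝ) ^ (1 - 2 * κ + η) ≤ (A.card : ℝ) →
    ∃ n ∈ A, Rep ((N : ℝ) ^ θ) n

/-- **FNX** (180 lines), USES ASX. The final theorem.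

PROOF. The bound is monotone in `δ` (`N ≥ 1`), so assume `δ < min(√e ε, 1/2)`. Put `κ = min(√e ε, 1/2) - δ/4 > 0`,
`η = δ/2`, so `β := 1 - 2κ + η = max(0, 1 - 2 √e ε) + δ`. As `κ/√e < κ` and `κ/√e < ε` there is `θ` with
`κ/√e < θ < κ`, `θ ≤ ε`; so `log(κ/θ) < 1/2`. ASX gives `mu` and `M0 ≥ 1` (for `N ≥ M0`). Fix `N` and let `Bd` be the set of the
`n ∈ [2, N]` without a representation with primes `≤ N^ε`. For `M0 ≤ M ≤ N` the elements of `Bd` in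
`(M/(1+mu), M]` are fewer than `M^β` (`M^θ ≤ N^ε`, so `Rep (M^θ) n` implies `Rep (N^ε) n`). Claim: for all `M ≤ N`
`#(Bd ∩ [1, M]) ≤ M0 + C₁ M^β`, `C₁ = 1/(1 - (1+mu)^(-β))`: strong induction; trivial for `M ≤ M0`; for `M > M0` put
`M' = ⌊M/(1+mu)⌋ < M`: `#(Bd ∩ [1, M]) ≤ M0 + C₁ (M/(1+mu))^β + M^β = M0 + C₁ M^β`. `C = M0 + C₁` (`N^β ≥ 1`). -/
def SpecFNX : Prop := ∀ ε δ : ℝ, 0 < ε → 0 < δ → ∃ C : ℝ, ∀ N : ℕ, 1 ≤ N →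
  (((Icc 2 N).filter (fun n => ¬ Rep ((N : ℝ) ^ ε) n)).card : ℝ) ≤
    C * (N : ℝ) ^ (max 0 (1 - 2 * √(Real.exp 1) * ε) + δ)

end Pool.Agent.Lib.MP_1446ad_nt.EX
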